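import Pool.Agent.RHT.St2

/-!
# Quantitatively tame oracles for the real hierarchy : the theorem
-/

set_option autoImplicit false

open Pool.Agent.RH

namespace Pool.Agent.RHT

theorem END2 (hD2 : St_D2) (hX2 : St_X2) (hO1 : St_O1) (hO2 : St_O2) (hO4 : St_O4)
    (hV2 : St_V2) : St_END2 := by
  intro k hk
  obtain ⟨-, hex, -⟩ := hO1
  have hen : ∀ w : List Bool, ∃ g : List Bool → List Bool, Pool.Agent.PolyTime.PolyTime g ∧
      (Pool.Agent.PolyTime.PolyTime (en w) → g = en w) := by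
    intro w
    by_cases h : Pool.Agent.PolyTime.PolyTime (en w)
    · exact ⟨en w, h, fun _ => rfl⟩
    · exact ⟨_, Pool.Agent.RelPoly.PT_poly_iff.1 Pool.Agent.RelPoly.PT.id, fun h' => absurd h' h⟩
  choose g hg1 hg2 using hen
  obtain ⟨E, hE, hreq⟩ := hX2 (Set (ℕ × ℕ)) (ℕ × ℕ × List Bool)
    (fun n e => e.Finite ∧ e.ncard ≤ 2 ^ n)
    (fun r E => Rq k r.1 (k + r.2.1) (g r.2.2) E)
    ⟨fun _ => ∅, fun n => ⟨Set.finite_empty, by simp⟩⟩
    (fun r E m h => hD2 k r.1 (k + r.2.1) hk (Nat.le_add_right _ _) (g r.2.2) (hg1 _) E m h)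
  obtain ⟨T, hT⟩ := hex k E
  obtain ⟨h1, h2⟩ := hO4 T E hE
  refine ⟨ore T E, h1, h2, hO2 k T E hT, ?_⟩
  intro j hj
  obtain ⟨d, rfl⟩ := Nat.exists_eq_add_of_le hj
  have key : ∀ (c : ℕ) (f : List Bool → List Bool), Pool.Agent.PolyTime.PolyTime f →
      ¬ ∀ x, ∃ ψ : Qf, f x = ψ.code ∧ (x ∈ Lg (ore T E) (k + d) ↔ Fu c (ore T E) (k + d) ψ) := by
    intro c f hf
    obtain ⟨w, hw⟩ := en_spec hf
    have := hreq (c, d, w) T hT
    simp only at this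
    have hgw : g w = f := by
      rw [← hw] at hf
      rw [hg2 w hf, hw]
    rw [hgw] at this
    exact this
  refine ⟨Lg (ore T E) (k + d), hV2 _ _, ?_, ?_, ?_⟩
  · rintro ⟨f, hf, h⟩
    refine key 0 f hf fun x => ?_
    obtain ⟨ψ, -, e1, e2⟩ := h x
    exact ⟨ψ, e1, e2⟩
  · rintro ⟨f, hf, h⟩
    refine key 1 f hf fun x => ?_
    obtain ⟨ψ, -, e1, e2⟩ := h x
    exact ⟨ψ, e1, e2⟩
  · rintro ⟨f, hf, h⟩
    refine key 2 f hf fun x => ?_
    obtain ⟨ψ, -, e1, e2⟩ := h x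
    exact ⟨ψ, e1, e2⟩

end Pool.Agent.RHT
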