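import Pool.Agent.RHT.St2

set_option autoImplicit false

open MvPolynomial
open Pool.Agent.RH

namespace Pool.Agent.RHT

private theorem F2_tfin (s : ℕ) : {t : Tm | t.code.length ≤ s}.Finite := by
  have h1 : Set.Finite {l : List Bool | l.length ≤ s} := List.finite_length_le Bool s
  have h2 : Function.Injective Tm.code := by
    intro t t' h
    exact (Tm.code_inj (r := []) (r' := []) (by simpa using h)).1
  exact h1.preimage h2.injOn

private theorem F2_val (s : ℕ) (b : ℕ → ℕ → ℝ) : ∀ t : Tm, t.code.length ≤ s →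
    t.val b = aeval (tr s b) (tp t) := by
  intro t
  induction t with
  | var i j =>
    intro h
    have hj : j < s := by
      simp only [Tm.code, unary, List.length_append, List.length_replicate, List.length_cons,
        List.length_nil] at h
      omega
    simp [Tm.val, tp, tr, hj]
  | zero => intro _; simp [Tm.val, tp]
  | one => intro _; simp [Tm.val, tp]
  | add t1 t2 ih1 ih2 =>
    intro h
    simp only [Tm.code, List.length_append] at h
    simp only [Tm.val, tp, map_add]
    rw [ih1 (by omega), ih2 (by omega)]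
  | sub t1 t2 ih1 ih2 =>
    intro h
    simp only [Tm.code, List.length_append] at h
    simp only [Tm.val, tp, map_sub]
    rw [ih1 (by omega), ih2 (by omega)]
  | mul t1 t2 ih1 ih2 =>
    intro h
    simp only [Tm.code, List.length_append] at h
    simp only [Tm.val, tp, map_mul]
    rw [ih1 (by omega), ih2 (by omega)]

private theorem F2_sign {x y x' y' : ℝ} (h : SignType.sign (x - y) = SignType.sign (x' - y')) :
    (x = y ↔ x' = y') ∧ (x < y ↔ x' < y') ∧ (x ≤ y ↔ x' ≤ y') := by
  have h1 : x = y ↔ x' = y' := by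
    rw [← sub_eq_zero, ← sub_eq_zero (a := x'), ← sign_eq_zero_iff, ← sign_eq_zero_iff (a := x' - y'), h]
  have h2 : x < y ↔ x' < y' := by
    rw [← sub_neg, ← sub_neg (a := x'), ← sign_eq_neg_one_iff, ← sign_eq_neg_one_iff (a := x' - y'), h]
  refine ⟨h1, h2, ?_⟩
  rw [le_iff_lt_or_eq, le_iff_lt_or_eq, h1, h2]

private theorem F2_lab {U : List ℕ} {p c : ℕ} (h : lab U p = some c) :
    1 ≤ p ∧ p ≤ U.length ∧ c ∈ U := by
  cases p with
  | zero => simp [lab] at h
  | succ p =>
    simp only [lab] at h
    obtain ⟨h1, h2⟩ := List.getElem?_eq_some_iff.1 h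
    refine ⟨by omega, by omega, ?_⟩
    rw [← h2]
    exact List.getElem_mem h1

private theorem F2_swap {C : ℕ} {U V : List ℕ} {D : Set (ℕ × ℕ)} (h : KK (Rl C 0) U V D) :
    KK (Rl C 0) V U (Prod.swap '' D) where
  zero := ⟨_, h.zero, rfl⟩
  last := ⟨_, h.last, rfl⟩
  le := by
    rintro _ ⟨d, hd, rfl⟩
    exact ⟨(h.le d hd).2, (h.le d hd).1⟩
  lb := by
    rintro _ ⟨d, hd, rfl⟩
    exact (h.lb d hd).symm
  ord := by
    rintro _ ⟨d, hd, rfl⟩ _ ⟨e, he, rfl⟩
    exact (h.ord d hd e he).symm
  gap := by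
    rintro _ ⟨d, hd, rfl⟩ _ ⟨e, he, rfl⟩ h1 h2
    have h3 := h.gap d hd e he ((h.ord d hd e he).2 h1) (by
      intro f hf hf'
      exact h2 (Prod.swap f) ⟨f, hf, rfl⟩
        ⟨(h.ord d hd f hf).1 hf'.1, (h.ord f hf e he).1 hf'.2⟩)
    show (_ = [] ↔ _ = [])
    exact Iff.symm h3

private theorem F2_OT {C : ℕ} {U V : List ℕ} {D : Set (ℕ × ℕ)} (h : KK (Rl C 0) U V D)
    (d : ℕ × ℕ) (hd : d ∈ D) : OT D (fun _ : Unit => d.1) (fun _ : Unit => d.2) :=
  ⟨fun _ e he => ⟨h.ord d hd e he, h.ord e he d hd⟩, fun _ _ => by simp⟩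

private theorem F2_key {C : ℕ} {U V : List ℕ} {D : Set (ℕ × ℕ)} (h : KK (Rl C 0) U V D)
    (a : ℕ → ℕ) (x x' : ℝ)
    (hP : ∀ p < U.length + 2, ∀ p' < V.length + 2,
      OT D (fun _ : Unit => p) (fun _ : Unit => p') → (x = (a p : ℝ) ↔ x' = (a p' : ℝ)))
    (hC : ∀ p < U.length + 2, x = (a p : ℝ) → p ∈ Prod.fst '' D) (c : ℕ) :
    (∃ p, lab U p = some c ∧ x = (a p : ℝ)) ↔ (∃ p, lab V p = some c ∧ x' = (a p : ℝ)) := by
  classical
  constructor
  · rintro ⟨p, hp, hx⟩
    obtain ⟨h1, h2, -⟩ := F2_lab hp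
    obtain ⟨d, hd, rfl⟩ := hC p (by omega) hx
    refine ⟨d.2, (h.lb d hd).symm.trans hp, ?_⟩
    exact (hP d.1 (by omega) d.2 (by have := (h.le d hd).2; omega) (F2_OT h d hd)).1 hx
  · rintro ⟨p', hp', hx'⟩
    obtain ⟨h1, h2, -⟩ := F2_lab hp'
    by_cases hex : ∃ d ∈ D, d.2 = p'
    · obtain ⟨d, hd, rfl⟩ := hex
      refine ⟨d.1, (h.lb d hd).trans hp', ?_⟩
      exact (hP d.1 (by have := (h.le d hd).1; omega) d.2 (by omega) (F2_OT h d hd)).2 hx'
    · exfalso
      have hex1 : ∀ f ∈ D, f.2 ≠ p' := fun f hf hfp => hex ⟨f, hf, hfp⟩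
      obtain ⟨d, hd, hdp, hdm⟩ : ∃ d ∈ D, d.2 < p' ∧ ∀ f ∈ D, f.2 < p' → f.2 ≤ d.2 := by
        let P : ℕ → Prop := fun m => ∃ d ∈ D, d.2 = m
        have h0 : P 0 := ⟨_, h.zero, rfl⟩
        have hs : P (Nat.findGreatest P p') := Nat.findGreatest_spec (Nat.zero_le _) h0
        obtain ⟨d, hd, hde⟩ := hs
        have hle : Nat.findGreatest P p' ≤ p' := Nat.findGreatest_le _
        refine ⟨d, hd, ?_, ?_⟩
        · have := hex1 d hd
          omega
        · intro f hf hfp
          rw [hde]
          exact Nat.le_findGreatest hfp.le ⟨f, hf, rfl⟩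
      obtain ⟨e, he, hep, hem⟩ : ∃ e ∈ D, p' < e.2 ∧ ∀ f ∈ D, p' < f.2 → e.2 ≤ f.2 := by
        have hE : ∃ m, p' < m ∧ ∃ d ∈ D, d.2 = m := ⟨V.length + 1, by omega, _, h.last, rfl⟩
        obtain ⟨hs1, e, he, hee⟩ := Nat.find_spec hE
        refine ⟨e, he, by omega, ?_⟩
        intro f hf hfp
        rw [hee]
        exact Nat.find_min' hE ⟨hfp, f, hf, rfl⟩
      have hde1 : d.1 < e.1 := (h.ord d hd e he).2 (by omega)
      have hno : ∀ f ∈ D, ¬ (d.1 < f.1 ∧ f.1 < e.1) := by
        rintro f hf ⟨hf1, hf2⟩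
        have hf1' := (h.ord d hd f hf).1 hf1
        have hf2' := (h.ord f hf e he).1 hf2
        rcases lt_trichotomy f.2 p' with hlt | heq | hgt
        · have := hdm f hf hlt
          omega
        · exact hex1 f hf heq
        · have := hem f hf hgt
          omega
      have hgap : seg U d.1 e.1 = [] ↔ seg V d.2 e.2 = [] := h.gap d hd e he hde1 hno
      have hV : seg V d.2 e.2 ≠ [] := by
        intro hh
        have hl := congrArg List.length hh
        simp only [seg, List.length_take, List.length_drop, List.length_nil] at hl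
        omega
      have hU : seg U d.1 e.1 ≠ [] := fun hh => hV (hgap.1 hh)
      have hlt : d.1 + 1 < e.1 := by
        by_contra hcon
        apply hU
        have h0 : e.1 - 1 - d.1 = 0 := by omega
        simp [seg, h0]
      have he1 := (h.le e he).1
      have hOT : OT D (fun _ : Unit => d.1 + 1) (fun _ : Unit => p') := by
        refine ⟨fun _ f hf => ⟨⟨?_, ?_⟩, ⟨?_, ?_⟩⟩, fun _ _ => by simp⟩
        · intro hf1
          have hf1 : d.1 + 1 < f.1 := hf1
          show p' < f.2
          have h3 : e.1 ≤ f.1 := by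
            by_contra hcon
            exact hno f hf ⟨by omega, by omega⟩
          have h4 : ¬ f.2 < e.2 := fun hh => by
            have := (h.ord f hf e he).2 hh
            omega
          omega
        · intro hf1
          have hf1 : p' < f.2 := hf1
          show d.1 + 1 < f.1
          have h3 := hem f hf hf1
          have h4 : ¬ f.1 < e.1 := fun hh => by
            have := (h.ord f hf e he).1 hh
            omega
          omega
        · intro hf1
          have hf1 : f.1 < d.1 + 1 := hf1
          show f.2 < p'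
          have h4 : ¬ d.2 < f.2 := fun hh => by
            have := (h.ord d hd f hf).2 hh
            omega
          omega
        · intro hf1
          have hf1 : f.2 < p' := hf1
          show f.1 < d.1 + 1
          have h3 := hdm f hf hf1
          have h4 : ¬ d.1 < f.1 := fun hh => by
            have := (h.ord d hd f hf).1 hh
            omega
          omega
      have hx : x = (a (d.1 + 1) : ℝ) := (hP (d.1 + 1) (by omega) p' (by omega) hOT).2 hx'
      obtain ⟨g, hg, hgp⟩ := hC (d.1 + 1) (by omega) hx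
      exact hno g hg ⟨by omega, by omega⟩

private theorem F2_key2 {C : ℕ} {U V : List ℕ} {D : Set (ℕ × ℕ)} (h : KK (Rl C 0) U V D)
    (a : ℕ → ℕ) (x x' : ℝ)
    (hP : ∀ p < U.length + 2, ∀ p' < V.length + 2,
      OT D (fun _ : Unit => p) (fun _ : Unit => p') → (x = (a p : ℝ) ↔ x' = (a p' : ℝ)))
    (hC : (∀ p < U.length + 2, x = (a p : ℝ) → p ∈ Prod.fst '' D) ∨
      (∀ p < V.length + 2, x' = (a p : ℝ) → p ∈ Prod.snd '' D)) (c : ℕ) :
    (∃ p, lab U p = some c ∧ x = (a p : ℝ)) ↔ (∃ p, lab V p = some c ∧ x' = (a p : ℝ)) := by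
  rcases hC with hC | hC
  · exact F2_key h a x x' hP hC c
  · refine (F2_key (F2_swap h) a x' x ?_ ?_ c).symm
    · intro p hp p' hp' hO
      refine (hP p' hp' p hp ?_).symm
      refine ⟨fun k d hd => ?_, fun _ _ => by simp⟩
      have := hO.1 k (Prod.swap d) ⟨d, hd, rfl⟩
      exact ⟨this.1.symm, this.2.symm⟩
    · intro p hp hx
      obtain ⟨d, hd, hdp⟩ := hC p hp hx
      exact ⟨Prod.swap d, ⟨d, hd, rfl⟩, hdp⟩

private theorem F2_LL {n : ℕ} {a : ℕ → ℕ} {U : List ℕ} {b : ℕ → ℕ → ℝ} {l : List Tm} :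
    l.map (Tm.val b) ∈ LL n (lbl a U) ↔
      ∃ (l0 : List Tm) (t1 t2 t3 : Tm) (c : ℕ), l = l0 ++ [t1, t2, t3] ∧ l0.length = n ∧
        (∀ t ∈ l0, t.val b = 1) ∧ t1.val b = 2 ∧ t2.val b = (c : ℝ) ∧
          ∃ p, lab U p = some c ∧ t3.val b = (a p : ℝ) := by
  constructor
  · rintro ⟨t, ⟨p, hp1, hp2⟩, hl⟩
    obtain ⟨l0, l1, rfl, h0, h1⟩ := List.map_eq_append_iff.1 hl
    obtain ⟨t1, l2, rfl, h2, h3⟩ := List.map_eq_cons_iff.1 h1
    obtain ⟨t2, l3, rfl, h4, h5⟩ := List.map_eq_cons_iff.1 h3
    obtain ⟨t3, l4, rfl, h6, h7⟩ := List.map_eq_cons_iff.1 h5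
    obtain rfl := List.map_eq_nil_iff.1 h7
    refine ⟨l0, t1, t2, t3, t.1, rfl, ?_, ?_, h2, h4, p, hp1, ?_⟩
    · have := congrArg List.length h0
      simpa using this
    · intro u hu
      have h8 : u.val b ∈ l0.map (Tm.val b) := List.mem_map_of_mem hu
      rw [h0] at h8
      exact List.eq_of_mem_replicate h8
    · rw [h6, hp2]
  · rintro ⟨l0, t1, t2, t3, c, rfl, h0, h1, h2, h3, p, hp, h4⟩
    refine ⟨(c, a p), ⟨p, hp, rfl⟩, ?_⟩
    have h5 : l0.map (Tm.val b) = List.replicate n 1 := by
      rw [List.eq_replicate_iff]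
      refine ⟨by simpa using h0, ?_⟩
      intro z hz
      obtain ⟨t, ht, rfl⟩ := List.mem_map.1 hz
      exact h1 t ht
    rw [List.map_append, h5]
    simp only [List.map_cons, List.map_nil, h2, h3, h4]

private theorem F2_memcode {l : List Tm} : ∀ t ∈ l,
    t.code.length < (l.flatMap (fun t => true :: t.code)).length := by
  induction l with
  | nil => intro t ht; simp at ht
  | cons u l ih =>
    intro t ht
    simp only [List.flatMap_cons, List.length_append, List.length_cons]
    rcases List.mem_cons.1 ht with rfl | ht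
    · omega
    · have := ih t ht
      omega

private theorem F2_lencode (l : List Tm) :
    l.length ≤ (l.flatMap (fun t => true :: t.code)).length := by
  induction l with
  | nil => simp
  | cons u l ih =>
    simp only [List.flatMap_cons, List.length_append, List.length_cons]
    omega

theorem F2 : St_F2 := by
  classical
  intro s K h1K h2K
  let T : Finset Tm := (F2_tfin s).toFinset
  have hT : ∀ t : Tm, t ∈ T ↔ t.code.length ≤ s := fun t => by
    simp [T]
  refine ⟨((T ×ˢ T).image (fun q => rename Sum.inl (tp q.1) - rename Sum.inl (tp q.2))) ∪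
    (((T ×ˢ K).image (fun q => rename Sum.inl (tp q.1) - MvPolynomial.C (q.2 : ℚ))) ∪
      T.image (fun t => rename Sum.inl (tp t) - X (Sum.inr ()))), ?_⟩
  intro Cc a n U V D B b b' ha hUK hVK hB hKK hRR
  -- the three kinds of sign conditions
  have hOT0 : OT D (fun _ : Unit => 0) (fun _ : Unit => 0) := F2_OT hKK (0, 0) hKK.zero
  have hsub : ∀ t t' : Tm, t.code.length ≤ s → t'.code.length ≤ s →
      SignType.sign (t.val b - t'.val b) = SignType.sign (t.val b' - t'.val b') := by
    intro t t' ht ht'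
    have := hRR (rename Sum.inl (tp t) - rename Sum.inl (tp t'))
      (Finset.mem_union_left _ (Finset.mem_image.2
        ⟨(t, t'), Finset.mem_product.2 ⟨(hT t).2 ht, (hT t').2 ht'⟩, rfl⟩))
      (fun _ => 0) (fun _ => 0) (fun _ => by omega) (fun _ => by omega) hOT0
    simp only [map_sub, aeval_rename, Sum.elim_comp_inl] at this
    rw [← F2_val s b t ht, ← F2_val s b t' ht', ← F2_val s b' t ht, ← F2_val s b' t' ht'] at this
    exact this
  have hcst : ∀ t : Tm, t.code.length ≤ s → ∀ c ∈ K, (t.val b = (c : ℝ) ↔ t.val b' = (c : ℝ)) := by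
    intro t ht c hc
    have := hRR (rename Sum.inl (tp t) - MvPolynomial.C (c : ℚ))
      (Finset.mem_union_right _ (Finset.mem_union_left _ (Finset.mem_image.2
        ⟨(t, c), Finset.mem_product.2 ⟨(hT t).2 ht, hc⟩, rfl⟩)))
      (fun _ => 0) (fun _ => 0) (fun _ => by omega) (fun _ => by omega) hOT0
    simp only [map_sub, aeval_rename, Sum.elim_comp_inl, aeval_C] at this
    rw [← F2_val s b t ht, ← F2_val s b' t ht] at this
    have h2 := (F2_sign this).1
    simpa using h2
  have hpos : ∀ t : Tm, t.code.length ≤ s → ∀ p < U.length + 2, ∀ p' < V.length + 2,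
      OT D (fun _ : Unit => p) (fun _ : Unit => p') →
        (t.val b = (a p : ℝ) ↔ t.val b' = (a p' : ℝ)) := by
    intro t ht p hp p' hp' hO
    have := hRR (rename Sum.inl (tp t) - X (Sum.inr ()))
      (Finset.mem_union_right _ (Finset.mem_union_right _ (Finset.mem_image.2
        ⟨t, (hT t).2 ht, rfl⟩)))
      (fun _ => p) (fun _ => p') (fun _ => hp) (fun _ => hp') hO
    simp only [map_sub, aeval_rename, Sum.elim_comp_inl, aeval_X, Sum.elim_inr] at this
    rw [← F2_val s b t ht, ← F2_val s b' t ht] at this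
    exact (F2_sign this).1
  have hkey : ∀ L : List Tm, (Cv L a (U.length + 2) (tr s b) (Prod.fst '' D) ∨
      Cv L a (V.length + 2) (tr s b') (Prod.snd '' D)) → ∀ t ∈ L, t.code.length ≤ s → ∀ c : ℕ,
      ((∃ p, lab U p = some c ∧ t.val b = (a p : ℝ)) ↔
        (∃ p, lab V p = some c ∧ t.val b' = (a p : ℝ))) := by
    intro L hL t htL ht c
    refine F2_key2 hKK a _ _ (hpos t ht) ?_ c
    rcases hL with h | h
    · left
      intro p hp hx
      exact h t htL p hp (by rw [← F2_val s b t ht]; exact hx)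
    · right
      intro p hp hx
      exact h t htL p hp (by rw [← F2_val s b' t ht]; exact hx)
  have hmono : ∀ L L' : List Tm, (∀ t ∈ L', t ∈ L) →
      (Cv L a (U.length + 2) (tr s b) (Prod.fst '' D) ∨
        Cv L a (V.length + 2) (tr s b') (Prod.snd '' D)) →
      (Cv L' a (U.length + 2) (tr s b) (Prod.fst '' D) ∨
        Cv L' a (V.length + 2) (tr s b') (Prod.snd '' D)) := by
    intro L L' h hL
    rcases hL with h1 | h1
    · exact Or.inl fun t ht => h1 t (h t ht)
    · exact Or.inr fun t ht => h1 t (h t ht)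
  intro ψ
  induction ψ with
  | eq t1 t2 =>
    intro h hCd
    simp only [Qf.code, List.length_append, List.length_cons, List.length_nil] at h
    simp only [Qf.holds]
    exact (F2_sign (hsub t1 t2 (by omega) (by omega))).1
  | lt t1 t2 =>
    intro h hCd
    simp only [Qf.code, List.length_append, List.length_cons, List.length_nil] at h
    simp only [Qf.holds]
    exact (F2_sign (hsub t1 t2 (by omega) (by omega))).2.1
  | le t1 t2 =>
    intro h hCd
    simp only [Qf.code, List.length_append, List.length_cons, List.length_nil] at h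
    simp only [Qf.holds]
    exact (F2_sign (hsub t1 t2 (by omega) (by omega))).2.2
  | orc l =>
    intro h hCd
    simp only [Qf.code, List.length_append, List.length_cons, List.length_nil] at h
    have hcl : ∀ t ∈ l, t.code.length ≤ s := fun t ht => by
      have := F2_memcode t ht
      omega
    have hll : l.length ≤ s := by
      have := F2_lencode l
      omega
    have hsame : ∀ (O : Set (List ℝ)), (∀ z ∈ l.map (Tm.val b), ∃ c ∈ K, z = (c : ℝ)) →
        l.map (Tm.val b) = l.map (Tm.val b') := by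
      intro _ hz
      apply List.map_congr_left
      intro t ht
      obtain ⟨c, hc, hzc⟩ := hz _ (List.mem_map_of_mem ht)
      rw [hzc, (hcst t (hcl t ht) c hc).1 hzc]
    have hsame' : (∀ z ∈ l.map (Tm.val b'), ∃ c ∈ K, z = (c : ℝ)) →
        l.map (Tm.val b) = l.map (Tm.val b') := by
      intro hz
      apply List.map_congr_left
      intro t ht
      obtain ⟨c, hc, hzc⟩ := hz _ (List.mem_map_of_mem ht)
      rw [hzc, (hcst t (hcl t ht) c hc).2 hzc]
    simp only [Qf.holds, Set.mem_union]
    rw [F2_LL, F2_LL]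
    constructor
    · rintro (hb | ⟨l0, t1, t2, t3, c, hl, h0, h1, h2, h3, h4⟩)
      · left
        rw [← hsame B (hB _ hb (by simpa using hll))]
        exact hb
      · right
        have hcK : c ∈ K := by
          obtain ⟨p, hp, -⟩ := h4
          exact hUK c (F2_lab hp).2.2
        have hm3 : t3 ∈ l := by simp [hl]
        subst hl
        have hc0 : ∀ t ∈ l0, t.code.length ≤ s := fun t ht => hcl t (by simp [ht])
        have hc1 := hcl t1 (by simp)
        have hc2 := hcl t2 (by simp)
        have hc3 := hcl t3 (by simp)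
        refine ⟨l0, t1, t2, t3, c, rfl, h0, ?_, ?_, ?_, ?_⟩
        · intro t ht
          have := (hcst t (hc0 t ht) 1 h1K).1 (by rw [h1 t ht]; norm_num)
          rw [this]; norm_num
        · have := (hcst t1 hc1 2 h2K).1 (by rw [h2]; norm_num)
          rw [this]; norm_num
        · exact (hcst t2 hc2 c hcK).1 h3
        · exact (hkey _ hCd t3 hm3 hc3 c).1 h4
    · rintro (hb | ⟨l0, t1, t2, t3, c, hl, h0, h1, h2, h3, h4⟩)
      · left
        rw [hsame' (hB _ hb (by simpa using hll))]
        exact hb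
      · right
        have hcK : c ∈ K := by
          obtain ⟨p, hp, -⟩ := h4
          exact hVK c (F2_lab hp).2.2
        have hm3 : t3 ∈ l := by simp [hl]
        subst hl
        have hc0 : ∀ t ∈ l0, t.code.length ≤ s := fun t ht => hcl t (by simp [ht])
        have hc1 := hcl t1 (by simp)
        have hc2 := hcl t2 (by simp)
        have hc3 := hcl t3 (by simp)
        refine ⟨l0, t1, t2, t3, c, rfl, h0, ?_, ?_, ?_, ?_⟩
        · intro t ht
          have := (hcst t (hc0 t ht) 1 h1K).2 (by rw [h1 t ht]; norm_num)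
          rw [this]; norm_num
        · have := (hcst t1 hc1 2 h2K).2 (by rw [h2]; norm_num)
          rw [this]; norm_num
        · exact (hcst t2 hc2 c hcK).2 h3
        · exact (hkey _ hCd t3 hm3 hc3 c).2 h4
  | neg φ ih =>
    intro h hCd
    simp only [Qf.code, List.length_append, List.length_cons, List.length_nil] at h
    simp only [Qf.holds]
    exact not_congr (ih (by omega) hCd)
  | and φ χ ih1 ih2 =>
    intro h hCd
    simp only [Qf.code, List.length_append, List.length_cons, List.length_nil] at h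
    simp only [Qf.holds]
    exact and_congr (ih1 (by omega) (hmono _ _ (fun t ht => List.mem_append_left _ ht) hCd))
      (ih2 (by omega) (hmono _ _ (fun t ht => List.mem_append_right _ ht) hCd))
  | or φ χ ih1 ih2 =>
    intro h hCd
    simp only [Qf.code, List.length_append, List.length_cons, List.length_nil] at h
    simp only [Qf.holds]
    exact or_congr (ih1 (by omega) (hmono _ _ (fun t ht => List.mem_append_left _ ht) hCd))
      (ih2 (by omega) (hmono _ _ (fun t ht => List.mem_append_right _ ht) hCd))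

end Pool.Agent.RHT

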