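import Pool.Agent.RHT.St

/-!
# H1: the sign of a polynomial is eventually constant, in the nested sense
-/

set_option autoImplicit false

open MvPolynomial

namespace Pool.Agent.RHT

private theorem H1_Nv_mono : ∀ (e : ℕ) (P Q : (Fin e → ℝ) → Prop), (∀ b, P b → Q b) →
    Nv e P → Nv e Q
  | 0, _, _, h, hP => h _ hP
  | e + 1, P, Q, h, hP => H1_Nv_mono e _ _ (fun b hb => by
      filter_upwards [hb] with t ht
      exact h _ ht) hP

private theorem H1_Nv_true : ∀ (e : ℕ) (P : (Fin e → ℝ) → Prop), (∀ b, P b) → Nv e P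
  | 0, _, h => h _
  | e + 1, _, h => H1_Nv_true e _ (fun _ => Filter.Eventually.of_forall fun _ => h _)

/-- `g` as a polynomial in the last variable -/
private noncomputable def H1_last {e : ℕ} (g : MvPolynomial (Fin (e + 1)) ℚ) :
    Polynomial (MvPolynomial (Fin e) ℚ) :=
  optionEquivLeft ℚ (Fin e) (rename finSuccEquivLast g)

private theorem H1_last_eval {e : ℕ} (g : MvPolynomial (Fin (e + 1)) ℚ) (b : Fin e → ℝ) (t : ℝ) :
    aeval (Fin.snoc b t : Fin (e + 1) → ℝ) g =
      ((H1_last g).map ((aeval b : MvPolynomial (Fin e) ℚ →ₐ[ℚ] ℝ) :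
        MvPolynomial (Fin e) ℚ →+* ℝ)).eval t := by
  unfold H1_last
  induction g using MvPolynomial.induction_on with
  | C a => simp
  | add p q hp hq => rw [map_add, hp, hq]; simp
  | mul_X p i hp =>
    rw [map_mul, hp, map_mul, map_mul, Polynomial.map_mul, Polynomial.eval_mul]
    congr 1
    rw [aeval_X, rename_X]
    refine Fin.lastCases ?_ (fun i => ?_) i
    · rw [finSuccEquivLast_last, optionEquivLeft_X_none]
      simp
    · rw [finSuccEquivLast_castSucc, optionEquivLeft_X_some]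
      simp

private theorem H1_sign (Q : Polynomial ℝ) :
    ∀ᶠ t : ℕ in Filter.atTop, SignType.sign (Q.eval (t : ℝ)) = SignType.sign Q.leadingCoeff := by
  obtain ⟨φ, hφ, h⟩ := (Polynomial.isEquivalent_atTop_lead (P := Q)).exists_eq_mul
  have h1 : ∀ᶠ x : ℝ in Filter.atTop,
      SignType.sign (Q.eval x) = SignType.sign Q.leadingCoeff := by
    filter_upwards [h, hφ.eventually (lt_mem_nhds (show (0 : ℝ) < 1 from one_pos)),
      Filter.eventually_gt_atTop (0 : ℝ)] with x hx hpos hx0
    have hx' : Q.eval x = φ x * (Q.leadingCoeff * x ^ Q.natDegree) := hx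
    rw [hx', sign_mul, sign_mul, sign_pos hpos, sign_pos (pow_pos hx0 _), one_mul, mul_one]
  exact tendsto_natCast_atTop_atTop.eventually h1

private theorem H1_strong : ∀ (e : ℕ) (g : MvPolynomial (Fin e) ℚ), g ≠ 0 →
    ∃ ε : SignType, ε ≠ 0 ∧ Nv e (fun b => SignType.sign (aeval b g) = ε)
  | 0, g, hg => by
    refine ⟨SignType.sign (aeval (fun i : Fin 0 => (i.elim0 : ℝ)) g), ?_, rfl⟩
    rw [Ne, sign_eq_zero_iff]
    intro h0
    apply hg
    obtain ⟨a, rfl⟩ := MvPolynomial.C_surjective (Fin 0) g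
    rw [aeval_C] at h0
    have h1 : a = 0 := by
      have : ((a : ℚ) : ℝ) = 0 := h0
      exact_mod_cast this
    rw [h1, map_zero]
  | e + 1, g, hg => by
    have hp : H1_last g ≠ 0 := by
      unfold H1_last
      intro h0
      have h1 := (map_eq_zero_iff _ (optionEquivLeft ℚ (Fin e)).injective).mp h0
      exact hg ((map_eq_zero_iff _ (rename_injective _ finSuccEquivLast.injective)).mp h1)
    have hl : (H1_last g).leadingCoeff ≠ 0 := Polynomial.leadingCoeff_ne_zero.mpr hp
    obtain ⟨ε, hε, h⟩ := H1_strong e _ hl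
    refine ⟨ε, hε, ?_⟩
    refine H1_Nv_mono e _ _ (fun b hb => ?_) h
    have hne : ((aeval b : MvPolynomial (Fin e) ℚ →ₐ[ℚ] ℝ) :
        MvPolynomial (Fin e) ℚ →+* ℝ) (H1_last g).leadingCoeff ≠ 0 := by
      intro h0
      apply hε
      rw [← hb, sign_eq_zero_iff]
      exact h0
    have hs := H1_sign ((H1_last g).map ((aeval b : MvPolynomial (Fin e) ℚ →ₐ[ℚ] ℝ) :
        MvPolynomial (Fin e) ℚ →+* ℝ))
    filter_upwards [hs] with t ht
    rw [H1_last_eval, ht, ← hb]
    congr 1
    exact Polynomial.leadingCoeff_map_of_leadingCoeff_ne_zero _ hne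

/-- **H1**. -/
theorem H1 : St_H1 := by
  intro e g
  by_cases hg : g = 0
  · refine ⟨0, H1_Nv_true e _ fun b => ?_⟩
    rw [hg, map_zero, sign_zero]
  · obtain ⟨ε, _, h⟩ := H1_strong e g hg
    exact ⟨ε, h⟩

end Pool.Agent.RHT
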