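import Pool.Agent.RHT.St

/-!
# RHT, module H2: from nested largeness to a sequence
-/

set_option autoImplicit false

namespace Pool.Agent.RHT

/-- `k` entries, from the position `l` on, are still to be chosen. -/
private def H2gd : ℕ → ℕ → ((ℕ → ℝ) → Prop) → (ℕ → ℝ) → Prop
  | 0, _, Q, b => Q b
  | k + 1, l, Q, b => ∀ᶠ t : ℕ in Filter.atTop, H2gd k (l + 1) Q (Function.update b l (t : ℝ))

private theorem H2_gd_succ (k : ℕ) : ∀ (l : ℕ) (Q : (ℕ → ℝ) → Prop) (b : ℕ → ℝ),
    H2gd (k + 1) l Q b ↔
      H2gd k l (fun b' => ∀ᶠ t : ℕ in Filter.atTop, Q (Function.update b' (l + k) (t : ℝ))) b := by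
  induction k with
  | zero => intro l Q b; exact Iff.rfl
  | succ k ih =>
    intro l Q b
    have h1 : ∀ t : ℕ, H2gd (k + 1) (l + 1) Q (Function.update b l (t : ℝ)) ↔
        H2gd k (l + 1) (fun b' => ∀ᶠ t : ℕ in Filter.atTop,
          Q (Function.update b' (l + (k + 1)) (t : ℝ))) (Function.update b l (t : ℝ)) := by
      intro t
      rw [ih (l + 1) Q (Function.update b l (t : ℝ))]
      have h2 : l + 1 + k = l + (k + 1) := by omega
      rw [h2]
    show (∀ᶠ t : ℕ in Filter.atTop, H2gd (k + 1) (l + 1) Q (Function.update b l (t : ℝ))) ↔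
      (∀ᶠ t : ℕ in Filter.atTop, H2gd k (l + 1) (fun b' => ∀ᶠ t : ℕ in Filter.atTop,
          Q (Function.update b' (l + (k + 1)) (t : ℝ))) (Function.update b l (t : ℝ)))
    exact Filter.eventually_congr (Filter.Eventually.of_forall h1)

private theorem H2_start (e : ℕ) : ∀ (P : (Fin e → ℝ) → Prop) (b : ℕ → ℝ), Nv e P →
    H2gd e 0 (fun b' => P (fun i => b' i)) b := by
  induction e with
  | zero =>
    intro P b h
    show P _
    have h1 : (fun i : Fin 0 => b i) = fun i => i.elim0 := by
      funext i; exact i.elim0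
    rw [h1]
    exact h
  | succ e ih =>
    intro P b h
    rw [H2_gd_succ]
    have h1 := ih (fun b' => ∀ᶠ t : ℕ in Filter.atTop, P (Fin.snoc b' (t : ℝ))) b h
    have h2 : (fun b' : ℕ → ℝ => ∀ᶠ t : ℕ in Filter.atTop,
        P (Fin.snoc (fun i : Fin e => b' i) (t : ℝ))) =
        fun b' : ℕ → ℝ => ∀ᶠ t : ℕ in Filter.atTop,
          P (fun i : Fin (e + 1) => Function.update b' (0 + e) (t : ℝ) i) := by
      funext b'
      refine propext (Filter.eventually_congr (Filter.Eventually.of_forall fun t => ?_))
      have h3 : (Fin.snoc (fun i : Fin e => b' i) (t : ℝ) : Fin (e + 1) → ℝ) =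
          fun i : Fin (e + 1) => Function.update b' (0 + e) (t : ℝ) i := by
        funext i
        refine Fin.lastCases ?_ (fun j => ?_) i
        · simp [Fin.snoc_last]
        · have hj : (j : ℕ) ≠ 0 + e := by have := j.2; omega
          simp only [Fin.snoc_castSucc, Fin.val_castSucc]
          rw [Function.update_of_ne hj]
      rw [h3]
    rw [← h2]
    exact h1

/-- Recursive choice. -/
private theorem H2_seq (C : ℕ → (ℕ → ℕ) → ℕ → Prop) (hC : ∀ m a, ∃ t, C m a t)
    (hloc : ∀ m (a a' : ℕ → ℕ) t, (∀ j, j < m → a j = a' j) → C m a t → C m a' t) :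
    ∃ a : ℕ → ℕ, ∀ m, C m a (a m) := by
  choose f hf using hC
  let F : ℕ → ℕ → ℕ := fun m => Nat.rec (fun _ => 0) (fun m G => Function.update G m (f m G)) m
  have hF : ∀ m, F (m + 1) = Function.update (F m) m (f m (F m)) := fun m => rfl
  have h1 : ∀ m j, j < m → F m j = F (j + 1) j := by
    intro m
    induction m with
    | zero => intro j hj; omega
    | succ m ih =>
      intro j hj
      rcases Nat.lt_succ_iff_lt_or_eq.mp hj with h | h
      · rw [hF m, Function.update_of_ne (by omega), ih j h]
      · rw [h]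
  refine ⟨fun m => F (m + 1) m, fun m => ?_⟩
  have h2 : F (m + 1) m = f m (F m) := by
    rw [hF m, Function.update_self]
  show C m (fun m => F (m + 1) m) (F (m + 1) m)
  rw [h2]
  exact hloc m (F m) _ _ (fun j hj => h1 m j hj) (hf m (F m))

/-- The tuple of the chosen values, filled up with `0`. -/
private noncomputable def H2bb (a : ℕ → ℕ) (l : ℕ) (g : Fin l → ℕ) : ℕ → ℝ :=
  fun j => if h : j < l then (a (g ⟨j, h⟩) : ℝ) else 0

theorem H2 : St_H2 := by
  intro m e P hP
  have hstart : ∀ i b, H2gd (e i) 0 (fun b' => P i (fun k => b' k)) b :=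
    fun i b => H2_start (e i) (P i) b (hP i)
  obtain ⟨a, ha⟩ := H2_seq
    (fun n a t => (∀ j, j < n → a j < t) ∧ ∀ (i : Fin m) (l : Fin (e i)) (g : Fin l → Fin n),
      H2gd (e i - l) l (fun b' => P i (fun k => b' k)) (H2bb a l (fun k => g k)) →
      H2gd (e i - (l + 1)) (l + 1) (fun b' => P i (fun k => b' k))
        (Function.update (H2bb a l (fun k => g k)) l (t : ℝ)))
    (by
      intro n a
      have hev : ∀ᶠ t : ℕ in Filter.atTop, (∀ j : Fin n, a j < t) ∧
          ∀ (i : Fin m) (l : Fin (e i)) (g : Fin l → Fin n),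
            H2gd (e i - l) l (fun b' => P i (fun k => b' k)) (H2bb a l (fun k => g k)) →
            H2gd (e i - (l + 1)) (l + 1) (fun b' => P i (fun k => b' k))
              (Function.update (H2bb a l (fun k => g k)) l (t : ℝ)) := by
        refine Filter.Eventually.and ?_ ?_
        · exact Filter.eventually_all.mpr fun j => Filter.eventually_gt_atTop (a j)
        · refine Filter.eventually_all.mpr fun i => Filter.eventually_all.mpr fun l =>
            Filter.eventually_all.mpr fun g => ?_
          by_cases hg : H2gd (e i - l) l (fun b' => P i (fun k => b' k))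
              (H2bb a l (fun k => g k))
          · have h1 : e i - (l : ℕ) = (e i - (l + 1)) + 1 := by have := l.2; omega
            rw [h1] at hg
            have hg' : ∀ᶠ t : ℕ in Filter.atTop, H2gd (e i - (l + 1)) (l + 1)
                (fun b' => P i (fun k => b' k))
                (Function.update (H2bb a l (fun k => g k)) l (t : ℝ)) := hg
            exact hg'.mono fun t ht _ => ht
          · exact Filter.Eventually.of_forall fun t h => absurd h hg
      obtain ⟨t, ht⟩ := hev.exists
      exact ⟨t, fun j hj => ht.1 ⟨j, hj⟩, ht.2⟩)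
    (by
      intro n a a' t haa h
      refine ⟨fun j hj => by rw [← haa j hj]; exact h.1 j hj, fun i l g => ?_⟩
      have h1 : H2bb a' l (fun k => g k) = H2bb a l (fun k => g k) := by
        funext j
        unfold H2bb
        by_cases hj : j < (l : ℕ)
        · rw [dif_pos hj, dif_pos hj, haa _ (g ⟨j, hj⟩).2]
        · rw [dif_neg hj, dif_neg hj]
      rw [h1]
      exact h.2 i l g)
  have hmono : StrictMono a := by
    intro j k hjk
    exact (ha k).1 j hjk
  refine ⟨a, hmono, ?_⟩
  intro i c hc
  have key : ∀ l (hl : l ≤ e i), H2gd (e i - l) l (fun b' => P i (fun k => b' k))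
      (H2bb a l (fun k => c ⟨k, lt_of_lt_of_le k.2 hl⟩)) := by
    intro l
    induction l with
    | zero => intro _; exact hstart i _
    | succ l ih =>
      intro hl
      have h1 := ih (by omega)
      have h2 := (ha (c ⟨l, by omega⟩)).2 i ⟨l, by omega⟩
        (fun k => ⟨c ⟨k, by have := k.2; simp only at this; omega⟩, hc (by
          show (k : ℕ) < l
          exact k.2)⟩) h1
      have h3 : H2bb a (l + 1) (fun k => c ⟨k, lt_of_lt_of_le k.2 hl⟩) =
          Function.update (H2bb a l (fun k => c ⟨k, by have := k.2; omega⟩)) l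
            (a (c ⟨l, by omega⟩) : ℝ) := by
        funext j
        unfold H2bb
        by_cases hj : j < l
        · rw [dif_pos (by omega), Function.update_of_ne (by omega), dif_pos hj]
        · by_cases hj' : j = l
          · subst hj'
            rw [dif_pos (by omega), Function.update_self]
          · rw [dif_neg (by omega), Function.update_of_ne hj', dif_neg hj]
      rw [h3]
      exact h2
  have h4 := key (e i) le_rfl
  rw [Nat.sub_self] at h4
  have h5 : P i (fun k : Fin (e i) => H2bb a (e i) (fun k => c ⟨k, lt_of_lt_of_le k.2 le_rfl⟩) k) :=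
    h4
  have h6 : (fun k : Fin (e i) => H2bb a (e i) (fun k => c ⟨k, lt_of_lt_of_le k.2 le_rfl⟩) k) =
      fun k => (a (c k) : ℝ) := by
    funext k
    unfold H2bb
    rw [dif_pos k.2]
  rw [h6] at h5
  exact h5

end Pool.Agent.RHT
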