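import Pool.Agent.RHT.St

/-!
# RHT, module H3: a sequence of which finitely many polynomials see only order types (helper76)
-/

set_option autoImplicit false

open MvPolynomial
open Pool.Agent.RH

namespace Pool.Agent.RHT

/-- A tuple of natural numbers and a second one of the same order type are values of strictly
increasing tuples along the same map. -/
private theorem H3_factor {κ : Type} [Fintype κ] (w w' : κ → ℕ)
    (h : ∀ k l, w k < w l ↔ w' k < w' l) :
    ∃ (e : ℕ) (_ : e < Fintype.card κ + 1) (ρ : κ → Fin e) (c c' : Fin e → ℕ), StrictMono c ∧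
      StrictMono c' ∧ (∀ k, w k = c (ρ k)) ∧ ∀ k, w' k = c' (ρ k) := by
  classical
  set S : Finset ℕ := Finset.univ.image w with hS
  have hmem : ∀ k, w k ∈ S := fun k => Finset.mem_image_of_mem w (Finset.mem_univ k)
  set o := S.orderIsoOfFin rfl with ho
  set ρ : κ → Fin S.card := fun k => o.symm ⟨w k, hmem k⟩ with hρ
  have h1 : ∀ k, w k = ((o (ρ k) : S) : ℕ) := by
    intro k
    simp [hρ]
  have hsur : ∀ j : Fin S.card, ∃ k, ρ k = j := by
    intro j
    obtain ⟨k, -, hk⟩ := Finset.mem_image.1 (o j).2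
    refine ⟨k, ?_⟩
    simp only [hρ]
    rw [OrderIso.symm_apply_eq]
    exact Subtype.ext hk
  choose pk hpk using hsur
  have hc : StrictMono fun j : Fin S.card => ((o j : S) : ℕ) := by
    intro i j hij
    exact_mod_cast o.strictMono hij
  refine ⟨S.card, ?_, ρ, fun j => ((o j : S) : ℕ), fun j => w' (pk j), hc, ?_, h1, ?_⟩
  · have h3 : S.card ≤ Fintype.card κ := Finset.card_image_le
    omega
  · intro i j hij
    show w' (pk i) < w' (pk j)
    rw [← h, h1 (pk i), h1 (pk j), hpk, hpk]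
    exact hc hij
  · intro k
    show w' k = w' (pk (ρ k))
    have h4 : w (pk (ρ k)) = w k := by rw [h1 (pk (ρ k)), hpk, ← h1 k]
    have h5 : ¬ w' (pk (ρ k)) < w' k := by
      rw [← h, h4]
      exact lt_irrefl _
    have h6 : ¬ w' k < w' (pk (ρ k)) := by
      rw [← h, h4]
      exact lt_irrefl _
    omega

theorem H3 (h1 : St_H1) (h2 : St_H2) : St_H3 := by
  classical
  intro m κ _ G
  let T := Σ i : Fin m, Σ e : Fin (Fintype.card (κ i) + 1), (κ i → Fin (e : ℕ)) × {f // f ∈ G i}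
  have hfin : Finite T := inferInstance
  obtain ⟨M, ⟨eqv⟩⟩ := Finite.exists_equiv_fin T
  choose ε hε using fun t : T => h1 (t.2.1 : ℕ) (rename t.2.2.1 t.2.2.2.1)
  obtain ⟨a, ha, hP⟩ := h2 M (fun t => ((eqv.symm t).2.1 : ℕ))
    (fun t b => SignType.sign (aeval b (rename (eqv.symm t).2.2.1 (eqv.symm t).2.2.2.1)) =
      ε (eqv.symm t)) (fun t => hε (eqv.symm t))
  have key : ∀ t : T, ∀ c : Fin (t.2.1 : ℕ) → ℕ, StrictMono c →
      SignType.sign (aeval (fun k => (a (c k) : ℝ)) (rename t.2.2.1 t.2.2.2.1)) = ε t := by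
    intro t
    obtain ⟨t', rfl⟩ := eqv.symm.surjective t
    exact hP t'
  refine ⟨a, ha, ?_⟩
  intro i f hf w w' hw
  obtain ⟨e, he, ρ, c, c', hc, hc', hwc, hwc'⟩ := H3_factor w w' hw
  have k1 := key ⟨i, ⟨e, he⟩, ρ, ⟨f, hf⟩⟩ c hc
  have k2 := key ⟨i, ⟨e, he⟩, ρ, ⟨f, hf⟩⟩ c' hc'
  rw [aeval_rename] at k1 k2
  have e1 : (fun k => (a (w k) : ℝ)) = (fun j => (a (c j) : ℝ)) ∘ ρ := by
    funext k
    simp only [Function.comp_apply]
    rw [hwc k]
  have e2 : (fun k => (a (w' k) : ℝ)) = (fun j => (a (c' j) : ℝ)) ∘ ρ := by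
    funext k
    simp only [Function.comp_apply]
    rw [hwc' k]
  rw [e1, e2]
  exact k1.trans k2.symm

end Pool.Agent.RHT
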