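import Pool.Agent.RHT.St

/-!
# RHT: one pick in a state of the game on words
-/

set_option autoImplicit false

namespace Pool.Agent.RHT

private lemma K1_split (U : List ℕ) (p z q : ℕ) (hpz : p < z) (hzq : z < q)
    (hz : z - 1 < U.length) :
    seg U p q = seg U p z ++ U[z - 1] :: seg U z q := by
  unfold seg
  have e1 : q - 1 - p = (z - 1 - p) + ((q - 1 - z) + 1) := by omega
  rw [e1, List.take_add, List.drop_drop]
  have e2 : p + (z - 1 - p) = z - 1 := by omega
  rw [e2, List.drop_eq_getElem_cons hz, List.take_succ_cons]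
  have e3 : z - 1 + 1 = z := by omega
  rw [e3]

private lemma K1_len (V : List ℕ) (p q : ℕ) (hq : q ≤ V.length + 1) :
    (seg V p q).length = q - 1 - p := by
  unfold seg
  rw [List.length_take, List.length_drop]
  omega

private lemma K1_back (V : List ℕ) (p q : ℕ) (hpq : p < q) (hq : q ≤ V.length + 1) (a : ℕ)
    (p' q' : List ℕ) (h : seg V p q = p' ++ a :: q') :
    p + 1 + p'.length < q ∧ seg V p (p + 1 + p'.length) = p' ∧
      seg V (p + 1 + p'.length) q = q' ∧ lab V (p + 1 + p'.length) = some a := by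
  have hl := K1_len V p q hq
  rw [h, List.length_append, List.length_cons] at hl
  have h1 : p + 1 + p'.length < q := by omega
  have hs : (V.drop p).take (q - 1 - p) = p' ++ a :: q' := h
  refine ⟨h1, ?_, ?_, ?_⟩
  · show (V.drop p).take (p + 1 + p'.length - 1 - p) = p'
    have e1 : p + 1 + p'.length - 1 - p = p'.length := by omega
    rw [e1]
    have e2 : ((V.drop p).take (q - 1 - p)).take p'.length = (V.drop p).take p'.length := by
      rw [List.take_take]
      congr 1
      omega
    rw [← e2, hs, List.take_left]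
  · show (V.drop (p + 1 + p'.length)).take (q - 1 - (p + 1 + p'.length)) = q'
    have e2 : ((V.drop p).take (q - 1 - p)).drop (p'.length + 1) =
        (V.drop (p + 1 + p'.length)).take (q - 1 - (p + 1 + p'.length)) := by
      rw [List.drop_take, List.drop_drop]
      congr 1
      · omega
      · congr 1
        omega
    rw [← e2, hs]
    have e3 : p' ++ a :: q' = (p' ++ [a]) ++ q' := by simp
    have e4 : p'.length + 1 = (p' ++ [a]).length := by simp
    rw [e3, e4, List.drop_left]
  · have e1 : p + 1 + p'.length = (p + p'.length) + 1 := by omega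
    rw [e1]
    show V[p + p'.length]? = some a
    have e2 : V[p + p'.length]? = (V.drop p)[p'.length]? := by
      rw [List.getElem?_drop]
    have e3 : (V.drop p)[p'.length]? = ((V.drop p).take (q - 1 - p))[p'.length]? := by
      rw [List.getElem?_take_of_lt]
      omega
    rw [e2, e3, hs]
    simp

private lemma K1_max (D : Set (ℕ × ℕ)) (z : ℕ) (h : ∃ d ∈ D, d.1 < z) :
    ∃ d ∈ D, d.1 < z ∧ ∀ f ∈ D, f.1 < z → f.1 ≤ d.1 := by
  obtain ⟨d0, hd0, hd0z⟩ := h
  have hne : {n : ℕ | ∃ f ∈ D, f.1 = n ∧ n < z}.Nonempty := ⟨d0.1, d0, hd0, rfl, hd0z⟩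
  have hb : BddAbove {n : ℕ | ∃ f ∈ D, f.1 = n ∧ n < z} := by
    refine ⟨z, ?_⟩
    rintro n ⟨f, _, _, hn⟩
    exact hn.le
  obtain ⟨d, hd, hd1, hd2⟩ := Nat.sSup_mem hne hb
  refine ⟨d, hd, by rw [hd1]; exact hd2, ?_⟩
  intro f hf hfz
  rw [hd1]
  exact le_csSup hb ⟨f, hf, rfl, hfz⟩

private lemma K1_min (D : Set (ℕ × ℕ)) (z : ℕ) (h : ∃ d ∈ D, z < d.1) :
    ∃ d ∈ D, z < d.1 ∧ ∀ f ∈ D, z < f.1 → d.1 ≤ f.1 := by
  obtain ⟨d0, hd0, hd0z⟩ := h
  have hne : {n : ℕ | ∃ f ∈ D, f.1 = n ∧ z < n}.Nonempty := ⟨d0.1, d0, hd0, rfl, hd0z⟩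
  obtain ⟨d, hd, hd1, hd2⟩ := Nat.sInf_mem hne
  refine ⟨d, hd, by rw [hd1]; exact hd2, ?_⟩
  intro f hf hfz
  rw [hd1]
  exact Nat.sInf_le ⟨f, hf, rfl, hfz⟩

theorem K1 : St_K1 := by
  intro R c U V D hK z hz
  by_cases hex : ∃ d ∈ D, d.1 = z
  · obtain ⟨d, hd, rfl⟩ := hex
    refine ⟨d.2, (hK.le d hd).2, ?_⟩
    have e : insert (d.1, d.2) D = D := Set.insert_eq_of_mem hd
    rw [e]
    exact ⟨hK.zero, hK.last, hK.le, hK.lb, hK.ord, fun a ha b hb hab hf =>
      (hK.gap a ha b hb hab hf).1⟩
  · have hne : ∀ d ∈ D, d.1 ≠ z := fun d hd h => hex ⟨d, hd, h⟩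
    have hz0 : z ≠ 0 := fun h => hne _ hK.zero h.symm
    have hz1 : z ≠ U.length + 1 := fun h => hne _ hK.last h.symm
    obtain ⟨d, hd, hdz, hdm⟩ := K1_max D z ⟨_, hK.zero, Nat.pos_of_ne_zero hz0⟩
    obtain ⟨e, he, hze, hem⟩ := K1_min D z ⟨_, hK.last, lt_of_le_of_ne hz hz1⟩
    have hzl : z - 1 < U.length := by omega
    have hde : d.1 < e.1 := hdz.trans hze
    have hgap := hK.gap d hd e he hde (by
      rintro f hf ⟨hf1, hf2⟩
      rcases lt_trichotomy f.1 z with h | h | h
      · exact absurd (hdm f hf h) (by omega)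
      · exact hne f hf h
      · exact absurd (hem f hf h) (by omega))
    obtain ⟨p', q', hpq, hp', hq'⟩ := hgap.2 (seg U d.1 z) (U[z - 1]) (seg U z e.1)
      (K1_split U d.1 z e.1 hdz hze hzl)
    have hde2 : d.2 < e.2 := (hK.ord d hd e he).1 hde
    obtain ⟨b1, b2, b3, b4⟩ := K1_back V d.2 e.2 hde2 (hK.le e he).2 _ p' q' hpq
    -- the new position
    obtain ⟨z', hz'⟩ : ∃ z', z' = d.2 + 1 + p'.length := ⟨_, rfl⟩
    rw [← hz'] at b1 b2 b3 b4
    have hdz' : d.2 < z' := by omega
    have hlow : ∀ f ∈ D, f.1 < z → f.2 < z' := by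
      intro f hf hfz
      have h1 : ¬ d.1 < f.1 := by
        have := hdm f hf hfz
        omega
      have h2 : ¬ d.2 < f.2 := fun h => h1 ((hK.ord d hd f hf).2 h)
      omega
    have hhigh : ∀ f ∈ D, z < f.1 → z' < f.2 := by
      intro f hf hfz
      have h1 : ¬ f.1 < e.1 := by
        have := hem f hf hfz
        omega
      have h2 : ¬ f.2 < e.2 := fun h => h1 ((hK.ord f hf e he).2 h)
      omega
    have heq : ∀ f ∈ D, ∀ g ∈ D, f.1 = g.1 → f.2 = g.2 := by
      intro f hf g hg hfg
      have h1 : ¬ f.2 < g.2 := fun h => by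
        have := (hK.ord f hf g hg).2 h
        omega
      have h2 : ¬ g.2 < f.2 := fun h => by
        have := (hK.ord g hg f hf).2 h
        omega
      omega
    have hle := (hK.le e he).2
    refine ⟨z', by omega, ?_⟩
    refine ⟨Set.mem_insert_of_mem _ hK.zero, Set.mem_insert_of_mem _ hK.last, ?_, ?_, ?_, ?_⟩
    · intro f hf
      rcases Set.mem_insert_iff.1 hf with rfl | hf
      · exact ⟨hz, by show z' ≤ V.length + 1; omega⟩
      · exact hK.le f hf
    · intro f hf
      rcases Set.mem_insert_iff.1 hf with rfl | hf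
      · show lab U z = lab V z'
        rw [b4]
        obtain ⟨y, rfl⟩ : ∃ y, z = y + 1 := ⟨z - 1, by omega⟩
        show U[y]? = some U[y + 1 - 1]
        exact List.getElem?_eq_getElem hzl
      · exact hK.lb f hf
    · intro f hf g hg
      rcases Set.mem_insert_iff.1 hf with rfl | hf
      · rcases Set.mem_insert_iff.1 hg with rfl | hg
        · exact ⟨fun h => absurd h (lt_irrefl _), fun h => absurd h (lt_irrefl _)⟩
        · show z < g.1 ↔ z' < g.2
          refine ⟨hhigh g hg, fun h => ?_⟩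
          rcases lt_trichotomy g.1 z with h1 | h1 | h1
          · exact absurd (hlow g hg h1) (by omega)
          · exact absurd h1 (hne g hg)
          · exact h1
      · rcases Set.mem_insert_iff.1 hg with rfl | hg
        · show f.1 < z ↔ f.2 < z'
          refine ⟨hlow f hf, fun h => ?_⟩
          rcases lt_trichotomy f.1 z with h1 | h1 | h1
          · exact h1
          · exact absurd h1 (hne f hf)
          · exact absurd (hhigh f hf h1) (by omega)
        · exact hK.ord f hf g hg
    · intro f hf g hg hfg hno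
      rcases Set.mem_insert_iff.1 hf with rfl | hf
      · rcases Set.mem_insert_iff.1 hg with rfl | hg
        · exact absurd hfg (lt_irrefl _)
        · have hfg' : z < g.1 := hfg
          have h1 : g.1 = e.1 := by
            have h2 := hem g hg hfg'
            have h3 : ¬ e.1 < g.1 := fun h => hno e (Set.mem_insert_of_mem _ he) ⟨hze, h⟩
            omega
          show Ss R c (seg U z g.1) (seg V z' g.2)
          rw [heq g hg e he h1, h1, b3]
          exact hq'
      · rcases Set.mem_insert_iff.1 hg with rfl | hg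
        · have hfg' : f.1 < z := hfg
          have h1 : f.1 = d.1 := by
            have h2 := hdm f hf hfg'
            have h3 : ¬ f.1 < d.1 := fun h => hno d (Set.mem_insert_of_mem _ hd) ⟨h, hdz⟩
            omega
          show Ss R c (seg U f.1 z) (seg V f.2 z')
          rw [heq f hf d hd h1, h1, b2]
          exact hp'
        · exact (hK.gap f hf g hg hfg fun k hk => hno k (Set.mem_insert_of_mem _ hk)).1

end Pool.Agent.RHT
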