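import Pool.Agent.RHT.St

/-!
# RHT: one block of picks, the start of the game, the exchange of the roles
-/

set_option autoImplicit false

namespace Pool.Agent.RHT

private lemma K2_weak (R : List ℕ → List ℕ → Prop) (c : ℕ) :
    ∀ u v : List ℕ, Ss R c u v → Ss R 0 u v := by
  induction c with
  | zero => exact fun u v h => h
  | succ c ih => exact fun u v h => ih u v h.1

private lemma K2_mono (R R' : List ℕ → List ℕ → Prop) (h : ∀ u v, R u v → R' u v)
    (U V : List ℕ) (D : Set (ℕ × ℕ)) (hK : KK R U V D) : KK R' U V D :=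
  ⟨hK.zero, hK.last, hK.le, hK.lb, hK.ord, fun d hd e he hde hf =>
    h _ _ (hK.gap d hd e he hde hf)⟩

private lemma K2_fin (h1 : St_K1) (R : List ℕ → List ℕ → Prop) (U V : List ℕ) (n : ℕ) :
    ∀ (c : ℕ) (D : Set (ℕ × ℕ)), KK (Ss R (n + c)) U V D → ∀ w : Fin n → ℕ,
      (∀ k, w k < U.length + 2) → ∃ w' : Fin n → ℕ, (∀ k, w' k < V.length + 2) ∧
        KK (Ss R c) U V (D ∪ grf w w') := by
  induction n with
  | zero =>
    intro c D hK w _
    refine ⟨fun k => k.elim0, fun k => k.elim0, ?_⟩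
    have e : D ∪ grf w (fun k : Fin 0 => (k.elim0 : ℕ)) = D := by
      unfold grf
      rw [Set.range_eq_empty, Set.union_empty]
    rw [e]
    have e2 : 0 + c = c := Nat.zero_add c
    rw [e2] at hK
    exact hK
  | succ n ih =>
    intro c D hK w hw
    have e : n + 1 + c = (n + c) + 1 := by omega
    rw [e] at hK
    obtain ⟨z', hz', hK'⟩ := h1 R (n + c) U V D hK (w 0) (by have := hw 0; omega)
    obtain ⟨w', hw', hK2⟩ := ih c (insert (w 0, z') D) hK' (fun k => w k.succ)
      (fun k => hw k.succ)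
    refine ⟨Fin.cons z' w', ?_, ?_⟩
    · intro k
      refine Fin.cases ?_ (fun k => ?_) k
      · show z' < V.length + 2
        omega
      · exact hw' k
    · have e3 : D ∪ grf w (Fin.cons z' w' : Fin (n + 1) → ℕ) =
          insert (w 0, z') D ∪ grf (fun k => w k.succ) w' := by
        ext d
        simp only [grf, Set.mem_union, Set.mem_range, Set.mem_insert_iff]
        constructor
        · rintro (hd | ⟨k, hk⟩)
          · exact Or.inl (Or.inr hd)
          · revert hk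
            refine Fin.cases (fun hk => ?_) (fun k hk => ?_) k
            · exact Or.inl (Or.inl hk.symm)
            · exact Or.inr ⟨k, hk⟩
        · rintro ((hd | hd) | ⟨k, hk⟩)
          · exact Or.inr ⟨0, hd.symm⟩
          · exact Or.inl hd
          · exact Or.inr ⟨k.succ, hk⟩
      rw [e3]
      exact hK2

private lemma K2_one (h1 : St_K1) (κ : Type) [Fintype κ] (R : List ℕ → List ℕ → Prop) (c : ℕ)
    (U V : List ℕ) (D : Set (ℕ × ℕ)) (hK : KK (Ss R c) U V D) (hc : Fintype.card κ ≤ c)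
    (w : κ → ℕ) (hw : ∀ k, w k < U.length + 2) :
    ∃ w' : κ → ℕ, (∀ k, w' k < V.length + 2) ∧ KK (Ss R 0) U V (D ∪ grf w w') := by
  obtain ⟨f⟩ : Nonempty (κ ≃ Fin (Fintype.card κ)) := ⟨Fintype.equivFin κ⟩
  obtain ⟨c', rfl⟩ : ∃ c', c = Fintype.card κ + c' := ⟨c - Fintype.card κ, by omega⟩
  obtain ⟨w', hw', hK'⟩ := K2_fin h1 R U V (Fintype.card κ) c' D hK (fun k => w (f.symm k))
    (fun k => hw _)
  refine ⟨fun k => w' (f k), fun k => hw' _, ?_⟩
  have e : grf w (fun k => w' (f k)) = grf (fun k => w (f.symm k)) w' := by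
    ext d
    simp only [grf, Set.mem_range]
    constructor
    · rintro ⟨k, hk⟩
      exact ⟨f k, by rw [Equiv.symm_apply_apply]; exact hk⟩
    · rintro ⟨k, hk⟩
      exact ⟨f.symm k, by rw [Equiv.apply_symm_apply]; exact hk⟩
  rw [e]
  exact K2_mono _ _ (K2_weak R c') U V _ hK'

private lemma K2_start (R : List ℕ → List ℕ → Prop) (U V : List ℕ) (h : R U V) :
    KK R U V {(0, 0), (U.length + 1, V.length + 1)} := by
  have hm : ∀ d ∈ ({(0, 0), (U.length + 1, V.length + 1)} : Set (ℕ × ℕ)),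
      d = (0, 0) ∨ d = (U.length + 1, V.length + 1) := by
    intro d hd
    exact hd
  have hlab : ∀ W : List ℕ, lab W (W.length + 1) = none := by
    intro W
    show W[W.length]? = none
    exact List.getElem?_eq_none le_rfl
  have hseg : ∀ W : List ℕ, seg W 0 (W.length + 1) = W := by
    intro W
    unfold seg
    simp
  refine ⟨Or.inl rfl, Or.inr rfl, ?_, ?_, ?_, ?_⟩
  · intro d hd
    rcases hm d hd with rfl | rfl
    · exact ⟨Nat.zero_le _, Nat.zero_le _⟩
    · exact ⟨le_rfl, le_rfl⟩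
  · intro d hd
    rcases hm d hd with rfl | rfl
    · rfl
    · show lab U (U.length + 1) = lab V (V.length + 1)
      rw [hlab, hlab]
  · intro d hd e he
    rcases hm d hd with rfl | rfl <;> rcases hm e he with rfl | rfl
    · exact Iff.rfl
    · exact ⟨fun _ => Nat.succ_pos _, fun _ => Nat.succ_pos _⟩
    · exact ⟨fun h => absurd h (Nat.not_lt_zero _), fun h => absurd h (Nat.not_lt_zero _)⟩
    · exact ⟨fun h => absurd h (lt_irrefl _), fun h => absurd h (lt_irrefl _)⟩
  · intro d hd e he hde _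
    rcases hm d hd with rfl | rfl <;> rcases hm e he with rfl | rfl
    · exact absurd hde (lt_irrefl _)
    · show R (seg U 0 (U.length + 1)) (seg V 0 (V.length + 1))
      rw [hseg, hseg]
      exact h
    · exact absurd hde (Nat.not_lt_zero _)
    · exact absurd hde (lt_irrefl _)

private lemma K2_swap (R : List ℕ → List ℕ → Prop) (U V : List ℕ) (D : Set (ℕ × ℕ))
    (hK : KK (Ss R 0) U V D) : KK R V U (Prod.swap '' D) := by
  refine ⟨⟨_, hK.zero, rfl⟩, ⟨_, hK.last, rfl⟩, ?_, ?_, ?_, ?_⟩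
  · rintro _ ⟨d, hd, rfl⟩
    exact ⟨(hK.le d hd).2, (hK.le d hd).1⟩
  · rintro _ ⟨d, hd, rfl⟩
    exact (hK.lb d hd).symm
  · rintro _ ⟨d, hd, rfl⟩ _ ⟨e, he, rfl⟩
    exact (hK.ord d hd e he).symm
  · rintro _ ⟨d, hd, rfl⟩ _ ⟨e, he, rfl⟩ hde hf
    have h1 : d.1 < e.1 := (hK.ord d hd e he).2 hde
    refine hK.gap d hd e he h1 ?_
    rintro f hf' ⟨h2, h3⟩
    exact hf f.swap ⟨f, hf', rfl⟩ ⟨(hK.ord d hd f hf').1 h2, (hK.ord f hf' e he).1 h3⟩

private lemma K2_ot (κ : Type) (R : List ℕ → List ℕ → Prop) (U V : List ℕ) (D : Set (ℕ × ℕ))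
    (w w' : κ → ℕ) (hK : KK R U V (D ∪ grf w w')) : OT D w w' := by
  have hg : ∀ k, (w k, w' k) ∈ D ∪ grf w w' := fun k => Or.inr ⟨k, rfl⟩
  refine ⟨fun k d hd => ⟨?_, ?_⟩, fun k l => ?_⟩
  · exact hK.ord (w k, w' k) (hg k) d (Or.inl hd)
  · exact hK.ord d (Or.inl hd) (w k, w' k) (hg k)
  · exact hK.ord (w k, w' k) (hg k) (w l, w' l) (hg l)

/-- Uses K1. -/
theorem K2 (h1 : St_K1) : St_K2 := by
  refine ⟨?_, ?_, ?_, ?_, ?_⟩
  · intro κ _ R c U V D hK hc w hw
    exact K2_one h1 κ R c U V D hK hc w hw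
  · intro R U V h
    exact K2_start R U V h
  · intro R U V D hK
    exact K2_swap R U V D hK
  · intro κ R U V D w w' hK
    exact K2_ot κ R U V D w w' hK
  · intro κ _ C i U V D hK hc w hw
    obtain ⟨w', hw', hK'⟩ := K2_one h1 κ (Rr C i) C U V D hK hc w hw
    exact ⟨w', hw', K2_ot κ _ U V D w w' hK', K2_swap (Rr C i) U V _ hK'⟩

end Pool.Agent.RHT
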