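import Pool.Agent.RHT.St

/-!
# W2 : pumping of powers of a word in the game
-/

set_option autoImplicit false

namespace Pool.Agent.RHT

private theorem W2_rep_succ (u : List ℕ) (n : ℕ) : rep u (n + 1) = u ++ rep u n := by
  simp [rep, List.replicate_succ]

private theorem W2_rep_add (u : List ℕ) (a b : ℕ) : rep u (a + b) = rep u a ++ rep u b := by
  induction a with
  | zero => simp [rep]
  | succ a ih => rw [Nat.succ_add, W2_rep_succ, W2_rep_succ, ih, List.append_assoc]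

/-- A letter of a power of `u` is in one of the copies of `u`. -/
theorem W2_split (u : List ℕ) (x : ℕ) : ∀ (a : ℕ) (p q : List ℕ), rep u a = p ++ x :: q →
    ∃ (a1 a2 : ℕ) (s r : List ℕ), a = a1 + 1 + a2 ∧ u = s ++ x :: r ∧ p = rep u a1 ++ s ∧
      q = r ++ rep u a2 := by
  intro a
  induction a with
  | zero =>
    intro p q h
    simp [rep] at h
  | succ a ih =>
    intro p q h
    rw [W2_rep_succ, List.append_eq_append_iff] at h
    rcases h with ⟨as, h1, h2⟩ | ⟨bs, h1, h2⟩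
    · obtain ⟨a1, a2, s, r, e1, e2, e3, e4⟩ := ih as q h2
      refine ⟨a1 + 1, a2, s, r, by omega, e2, ?_, e4⟩
      rw [h1, e3, W2_rep_succ, List.append_assoc]
    · cases bs with
      | nil =>
        rw [List.nil_append] at h2
        rw [List.append_nil] at h1
        obtain ⟨a1, a2, s, r, e1, e2, e3, e4⟩ := ih [] q h2.symm
        refine ⟨a1 + 1, a2, s, r, by omega, e2, ?_, e4⟩
        rw [W2_rep_succ, List.append_assoc, ← e3, List.append_nil, h1]
      | cons y r =>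
        rw [List.cons_append, List.cons.injEq] at h2
        obtain ⟨rfl, h2⟩ := h2
        exact ⟨0, a, p, r, by omega, h1, by simp [rep], h2⟩

/-- The thresholds. -/
private def W2_t (θ : ℕ) : ℕ → ℕ
  | 0 => θ
  | c + 1 => 2 * W2_t θ c + 1

private theorem W2_claim (w1 : St_W1) (C i : ℕ) (u : List ℕ) (θ : ℕ)
    (hθ : ∀ a b, θ ≤ a → θ ≤ b → Rr C i (rep u a) (rep u b)) :
    ∀ c a b, (a = b ∨ (W2_t θ c ≤ a ∧ W2_t θ c ≤ b)) → Ss (Rr C i) c (rep u a) (rep u b) := by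
  obtain ⟨-, -, -, -, -, w6, w7⟩ := w1 C i
  intro c
  induction c with
  | zero =>
    rintro a b (rfl | ⟨h1, h2⟩)
    · exact w7 0 _
    · exact hθ b a h2 h1
  | succ c ih =>
    rintro a b (rfl | ⟨h1, h2⟩)
    · exact w7 _ _
    · have h1' : 2 * W2_t θ c + 1 ≤ a := h1
      have h2' : 2 * W2_t θ c + 1 ≤ b := h2
      refine ⟨ih a b (Or.inr ⟨by omega, by omega⟩), fun p x q h => ?_⟩
      obtain ⟨a1, a2, s, r, e1, e2, e3, e4⟩ := W2_split u x a p q h
      obtain ⟨b1, b2, f1, f2, f3⟩ : ∃ b1 b2, b = b1 + 1 + b2 ∧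
          (a1 = b1 ∨ (W2_t θ c ≤ a1 ∧ W2_t θ c ≤ b1)) ∧
          (a2 = b2 ∨ (W2_t θ c ≤ a2 ∧ W2_t θ c ≤ b2)) := by
        by_cases g1 : a1 < W2_t θ c
        · exact ⟨a1, b - 1 - a1, by omega, Or.inl rfl, Or.inr ⟨by omega, by omega⟩⟩
        · by_cases g2 : a2 < W2_t θ c
          · exact ⟨b - 1 - a2, a2, by omega, Or.inr ⟨by omega, by omega⟩, Or.inl rfl⟩
          · exact ⟨W2_t θ c, b - 1 - W2_t θ c, by omega, Or.inr ⟨by omega, le_rfl⟩,
              Or.inr ⟨by omega, by omega⟩⟩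
      refine ⟨rep u b1 ++ s, r ++ rep u b2, ?_, ?_, ?_⟩
      · rw [f1, W2_rep_add, W2_rep_add]
        have : rep u 1 = s ++ x :: r := by rw [← e2]; simp [rep]
        rw [this]
        simp [List.append_assoc]
      · rw [e3]
        exact w6 c _ _ _ _ (ih a1 b1 f2) (w7 c s)
      · rw [e4]
        exact w6 c _ _ _ _ (w7 c r) (ih a2 b2 f3)

theorem W2 (w1 : St_W1) : St_W2 := by
  intro C i u
  have key : ∀ i, ∃ θ, ∀ a b, θ ≤ a → θ ≤ b → Rr C i (rep u a) (rep u b) := by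
    intro i
    induction i with
    | zero =>
      refine ⟨1, fun a b ha hb => ?_⟩
      obtain ⟨a, rfl⟩ : ∃ a', a = a' + 1 := ⟨a - 1, by omega⟩
      obtain ⟨b, rfl⟩ : ∃ b', b = b' + 1 := ⟨b - 1, by omega⟩
      change rep u (a + 1) = [] ↔ rep u (b + 1) = []
      have : ∀ n, rep u (n + 1) = [] ↔ u = [] := by
        intro n
        rw [W2_rep_succ, List.append_eq_nil_iff]
        refine ⟨fun h => h.1, fun h => ⟨h, ?_⟩⟩
        subst h
        simp [rep]
      rw [this, this]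
    | succ i ih =>
      obtain ⟨θ, hθ⟩ := ih
      exact ⟨W2_t θ C, fun a b ha hb => W2_claim w1 C i u θ hθ C a b (Or.inr ⟨ha, hb⟩)⟩
  refine ⟨key i, fun c => ?_⟩
  obtain ⟨θ, hθ⟩ := key i
  exact ⟨W2_t θ c, fun a b ha hb => W2_claim w1 C i u θ hθ c a b (Or.inr ⟨ha, hb⟩)⟩

end Pool.Agent.RHT
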