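import Pool.Agent.RHT.St2
import Pool.Agent.RHT.W2

/-!
# L2 : pumping of powers of a word, with explicit thresholds (helper9)
-/

set_option autoImplicit false

namespace Pool.Agent.RHT

private theorem L2_rep_succ (u : List ℕ) (n : ℕ) : rep u (n + 1) = u ++ rep u n := by
  simp [rep, List.replicate_succ]

private theorem L2_rep_add (u : List ℕ) (a b : ℕ) : rep u (a + b) = rep u a ++ rep u b := by
  induction a with
  | zero => simp [rep]
  | succ a ih => rw [Nat.succ_add, L2_rep_succ, L2_rep_succ, ih, List.append_assoc]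

private theorem L2_claim (l1 : St_L1) (C i : ℕ) (u : List ℕ) (T : ℕ) (hT : 1 ≤ T)
    (h1 : ∀ a b, T ≤ a + 1 → T ≤ b + 1 → Rl C i (rep u a) (rep u b)) :
    ∀ c a b, (a = b ∨ (T * (c + 1) ≤ a + 1 ∧ T * (c + 1) ≤ b + 1)) →
      Sl (Rl C i) c (rep u a) (rep u b) := by
  obtain ⟨w1, -, -, w4, -, w6, w7, -⟩ := l1 C i
  intro c
  induction c with
  | zero =>
    rintro a b (rfl | ⟨h2, h3⟩)
    · exact w7 0 _
    · exact h1 b a (by omega) (by omega)
  | succ c ih =>
    rintro a b (rfl | ⟨h2, h3⟩)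
    · exact w7 _ _
    · have e0 : T * (c + 1 + 1) = T * (c + 1) + T := by ring
      rw [e0] at h2 h3
      have hM1 : 1 ≤ T * (c + 1) := Nat.mul_pos hT (Nat.succ_pos c)
      set M := T * (c + 1) with hM
      refine ⟨h1 b a (by omega) (by omega), fun p x q h => ?_⟩
      obtain ⟨a1, a2, s, r, e1, e2, e3, e4⟩ := W2_split u x a p q h
      obtain ⟨b1, b2, f1, f2, f3⟩ : ∃ b1 b2, b = b1 + 1 + b2 ∧
          (a1 = b1 ∨ (T ≤ a1 + 1 ∧ T ≤ b1 + 1)) ∧
          (a2 = b2 ∨ (M ≤ a2 + 1 ∧ M ≤ b2 + 1)) := by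
        by_cases g2 : M ≤ a2 + 1
        · by_cases g1 : T ≤ a1 + 1
          · exact ⟨T - 1, b - T, by omega, Or.inr ⟨g1, by omega⟩, Or.inr ⟨g2, by omega⟩⟩
          · exact ⟨a1, b - 1 - a1, by omega, Or.inl rfl, Or.inr ⟨g2, by omega⟩⟩
        · exact ⟨b - 1 - a2, a2, by omega, Or.inr ⟨by omega, by omega⟩, Or.inl rfl⟩
      refine ⟨rep u b1 ++ s, r ++ rep u b2, ?_, ?_, ?_⟩
      · rw [f1, L2_rep_add, L2_rep_add]
        have : rep u 1 = s ++ x :: r := by rw [← e2]; simp [rep]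
        rw [this]
        simp [List.append_assoc]
      · rw [e3]
        refine w4 _ _ _ _ ?_ (w1 s)
        rcases f2 with rfl | ⟨f2, f2'⟩
        · exact w1 _
        · exact h1 _ _ f2' f2
      · rw [e4]
        exact w6 c _ _ _ _ (w7 c r) (ih a2 b2 f3)

theorem L2 (l1 : St_L1) : St_L2 := by
  intro C i u
  have key : ∀ i, ∀ a b, 2 * (C + 1) ^ i ≤ a + 1 → 2 * (C + 1) ^ i ≤ b + 1 →
      Rl C i (rep u a) (rep u b) := by
    intro i
    induction i with
    | zero =>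
      intro a b ha hb
      rw [pow_zero, mul_one] at ha hb
      obtain ⟨a, rfl⟩ : ∃ a', a = a' + 1 := ⟨a - 1, by omega⟩
      obtain ⟨b, rfl⟩ : ∃ b', b = b' + 1 := ⟨b - 1, by omega⟩
      change rep u (a + 1) = [] ↔ rep u (b + 1) = []
      have : ∀ n, rep u (n + 1) = [] ↔ u = [] := by
        intro n
        rw [L2_rep_succ, List.append_eq_nil_iff]
        refine ⟨fun h => h.1, fun h => ⟨h, ?_⟩⟩
        subst h
        simp [rep]
      rw [this, this]
    | succ i ih =>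
      intro a b ha hb
      have e : 2 * (C + 1) ^ (i + 1) = 2 * (C + 1) ^ i * (C + 1) := by ring
      rw [e] at ha hb
      exact L2_claim l1 C i u (2 * (C + 1) ^ i) (Nat.succ_le_of_lt (by positivity)) ih C a b (Or.inr ⟨ha, hb⟩)
  exact ⟨key i, fun c a b ha hb =>
    L2_claim l1 C i u (2 * (C + 1) ^ i) (Nat.succ_le_of_lt (by positivity)) (key i) c a b (Or.inr ⟨ha, hb⟩)⟩

end Pool.Agent.RHT
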