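import Pool.Agent.RHT.St2

/-!
# RHT, module L3: inserting a word into a power, with explicit thresholds
-/

set_option autoImplicit false

namespace Pool.Agent.RHT

private theorem L3_rep_add (u : List ℕ) (m n : ℕ) : rep u (m + n) = rep u m ++ rep u n := by
  unfold rep
  rw [List.replicate_add, List.flatten_append]

private theorem L3_rep_one (u : List ℕ) : rep u 1 = u := by
  simp [rep]

private theorem L3_rep_zero (u : List ℕ) : rep u 0 = [] := by
  simp [rep]

private theorem L3_mid (u : List ℕ) (m n : ℕ) :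
    rep u (m + 1 + n) = rep u m ++ (u ++ rep u n) := by
  rw [L3_rep_add, L3_rep_add, L3_rep_one, List.append_assoc]

private theorem L3_dec (u : List ℕ) : ∀ (a : ℕ) (p : List ℕ) (x : ℕ) (q : List ℕ),
    rep u a = p ++ x :: q → ∃ a1 a2 s r, a = a1 + 1 + a2 ∧ u = s ++ x :: r ∧
      p = rep u a1 ++ s ∧ q = r ++ rep u a2 := by
  intro a
  induction a with
  | zero =>
    intro p x q h
    rw [L3_rep_zero] at h
    simp at h
  | succ a ih =>
    intro p x q h
    rw [Nat.add_comm a 1, L3_rep_add, L3_rep_one] at h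
    rcases List.append_eq_append_iff.mp h with ⟨p2, hp, hq⟩ | ⟨c', hu, hq⟩
    · obtain ⟨a1, a2, s, r, h1, h2, h3, h4⟩ := ih p2 x q hq
      refine ⟨a1 + 1, a2, s, r, by omega, h2, ?_, h4⟩
      rw [Nat.add_comm a1 1, L3_rep_add, L3_rep_one, hp, h3, List.append_assoc]
    · cases c' with
      | nil =>
        rw [List.append_nil] at hu
        rw [List.nil_append] at hq
        obtain ⟨a1, a2, s, r, h1, h2, h3, h4⟩ := ih [] x q (by rw [List.nil_append]; exact hq.symm)
        refine ⟨a1 + 1, a2, s, r, by omega, h2, ?_, h4⟩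
        rw [Nat.add_comm a1 1, L3_rep_add, L3_rep_one, List.append_assoc, ← h3, List.append_nil]
        exact hu.symm
      | cons y r =>
        rw [List.cons_append] at hq
        injection hq with h5 h6
        subst h5
        refine ⟨0, a, p, r, by omega, hu, ?_, h6⟩
        rw [L3_rep_zero, List.nil_append]

theorem L3 (L1 : St_L1) (L2 : St_L2) : St_L3 := by
  intro C i u v hvu a b b' ha hb hb'
  obtain ⟨w1, w2, -, w4, -, w6, w7, -⟩ := L1 C i
  obtain ⟨hN, -⟩ := L2 C i u
  obtain ⟨P, hP⟩ : ∃ P, P = 2 * (C + 1) ^ i := ⟨_, rfl⟩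
  rw [← hP] at hN
  have hP1 : 2 * (C + 1) ^ (i + 1) = P * (C + 1) := by rw [hP, pow_succ]; ring
  rw [hP1] at ha hb hb'
  have hP2 : 2 ≤ P := by
    rw [hP]
    have : 0 < (C + 1) ^ i := by positivity
    omega
  -- the general comparison
  have base : ∀ a b b', P ≤ a + 1 → P ≤ b + 1 + b' + 1 →
      Rl C i (rep u b ++ v ++ rep u b') (rep u a) := by
    intro a b b' ha hb
    refine w2 _ (rep u (b + 1 + b')) _ ?_ (hN _ _ hb ha)
    rw [L3_mid, ← List.append_assoc]
    exact w4 _ _ _ _ (w4 _ _ _ _ (w1 _) hvu) (w1 _)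
  have key : ∀ c a b b', P * (c + 1) ≤ a + 1 → P * (c + 1) ≤ b + 1 → P * (c + 1) ≤ b' + 1 →
      Sl (Rl C i) c (rep u a) (rep u b ++ v ++ rep u b') := by
    intro c
    induction c with
    | zero =>
      intro a b b' ha hb hb'
      show Rl C i (rep u b ++ v ++ rep u b') (rep u a)
      exact base _ _ _ (by omega) (by omega)
    | succ c ih =>
      intro a b b' ha hb hb'
      have e1 : P * (c + 1 + 1) = P * (c + 1) + P := by ring
      rw [e1] at ha hb hb'
      have hge : P ≤ P * (c + 1) := Nat.le_mul_of_pos_right P (Nat.succ_pos c)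
      obtain ⟨m, hm⟩ : ∃ m, m = P * (c + 1) := ⟨_, rfl⟩
      rw [← hm] at ha hb hb' hge
      rw [← hm] at ih
      refine ⟨base _ _ _ (by omega) (by omega), ?_⟩
      intro p x q hpq
      obtain ⟨a1, a2, s, r, h1, h2, h3, h4⟩ := L3_dec u a p x q hpq
      subst h3
      subst h4
      by_cases hc : m ≤ a2 + 1
      · -- the pick is answered on the left
        obtain ⟨b2, hb2⟩ : ∃ b2, b = min a1 (P - 1) + 1 + b2 := ⟨b - 1 - min a1 (P - 1), by omega⟩
        refine ⟨rep u (min a1 (P - 1)) ++ s, r ++ (rep u b2 ++ v ++ rep u b'), ?_, ?_, ?_⟩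
        · rw [hb2, L3_mid]
          have h5 : u ++ rep u b2 = s ++ x :: (r ++ rep u b2) := by
            have h6 := congrArg (fun z => z ++ rep u b2) h2
            simpa using h6
          rw [h5]
          simp
        · refine w4 _ _ _ _ ?_ (w1 s)
          by_cases h5 : a1 ≤ P - 1
          · rw [min_eq_left h5]
            exact w1 _
          · rw [min_eq_right (by omega)]
            exact hN _ _ (by omega) (by omega)
        · exact w6 c _ _ _ _ (w7 c r) (ih a2 b2 b' hc (by omega) (by omega))
      · -- the pick is answered on the right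
        obtain ⟨b1, hb1⟩ : ∃ b1, b' = b1 + 1 + a2 := ⟨b' - 1 - a2, by omega⟩
        refine ⟨rep u b ++ v ++ rep u b1 ++ s, r ++ rep u a2, ?_, ?_, ?_⟩
        · rw [hb1, L3_mid]
          have h5 : u ++ rep u a2 = s ++ x :: (r ++ rep u a2) := by
            have h6 := congrArg (fun z => z ++ rep u a2) h2
            simpa using h6
          rw [h5]
          simp
        · exact w4 _ _ _ _ (base _ _ _ (by omega) (by omega)) (w1 s)
        · exact w7 c _
  exact key C a b b' ha hb hb'

end Pool.Agent.RHT
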