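import Pool.Agent.RHT.St2

/-! RHT L4 (helper32): words which differ for `val i` but cannot be distinguished, with a bound
for their lengths (adapted from W4 by helper8). -/

set_option autoImplicit false

namespace Pool.Agent.RHT

private theorem L4_rep_succ (u : List ℕ) (n : ℕ) : rep u (n + 1) = u ++ rep u n := by
  simp [rep, List.replicate_succ]

private theorem L4_len_rep (u : List ℕ) (n : ℕ) : (rep u n).length = n * u.length := by
  induction n with
  | zero => simp [rep]
  | succ n ih => rw [L4_rep_succ, List.length_append, ih, Nat.succ_mul, Nat.add_comm]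

private theorem L4_mem_rep {u : List ℕ} {n c : ℕ} (h : c ∈ rep u n) : c ∈ u := by
  induction n with
  | zero => simp [rep] at h
  | succ n ih =>
    rw [L4_rep_succ, List.mem_append] at h
    rcases h with h | h
    · exact h
    · exact ih h

/-- two lists without `m` in front of a letter `m` -/
private theorem L4_split {m : ℕ} {x y : List ℕ} (hx : m ∉ x) (hy : m ∉ y) {s t : List ℕ}
    (h : x ++ m :: s = y ++ m :: t) : x = y := by
  induction x generalizing y with
  | nil =>
    cases y with
    | nil => rfl
    | cons b y =>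
      simp only [List.nil_append, List.cons_append, List.cons.injEq] at h
      exact absurd (by rw [h.1]; exact List.mem_cons_self) hy
  | cons a x ih =>
    cases y with
    | nil =>
      simp only [List.nil_append, List.cons_append, List.cons.injEq] at h
      exact absurd (by rw [← h.1]; exact List.mem_cons_self) hx
    | cons b y =>
      simp only [List.cons_append, List.cons.injEq] at h
      rw [h.1, ih (fun h' => hx (List.mem_cons_of_mem _ h'))
        (fun h' => hy (List.mem_cons_of_mem _ h')) h.2]

private theorem L4_factor {m : ℕ} {w : List ℕ} (hw : m ∉ w) (n : ℕ) :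
    ∀ p z q : List ℕ, rep (m :: w) n = p ++ m :: (z ++ m :: q) → m ∉ z → z = w := by
  induction n with
  | zero =>
    intro p z q h
    simp [rep] at h
  | succ n ih =>
    intro p z q h hz
    rw [L4_rep_succ] at h
    cases p with
    | nil =>
      simp only [List.nil_append, List.cons_append, List.cons.injEq, true_and] at h
      cases n with
      | zero =>
        have h2 : rep (m :: w) 0 = [] := by simp [rep]
        rw [h2, List.append_nil] at h
        exact absurd (by rw [h]; simp) hw
      | succ k =>
        rw [L4_rep_succ, List.cons_append] at h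
        exact (L4_split hw hz h).symm
    | cons a p =>
      simp only [List.cons_append, List.cons.injEq] at h
      obtain ⟨-, h⟩ := h
      rcases List.append_eq_append_iff.1 h with ⟨s, hs1, hs2⟩ | ⟨s, hs1, hs2⟩
      · exact ih s z q hs2 hz
      · cases s with
        | nil =>
          refine ih [] z q ?_ hz
          simpa using hs2.symm
        | cons b s =>
          simp only [List.cons_append, List.cons.injEq] at hs2
          exact absurd (by rw [hs1, ← hs2.1]; simp) hw

/-- the arithmetic of the lengths -/
private theorem L4_arith (C i l θ x y : ℕ) (hl : l = (4 * (C + 1)) ^ ((i + 2) ^ 2))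
    (hθ : θ + 2 = 2 * (C + 1) ^ (i + 2)) (hx : x ≤ l) (hy : y ≤ l) :
    (θ + 1) * (y + 1) + (x + 1) + (θ + 1) * (y + 1) ≤ (4 * (C + 1)) ^ ((i + 3) ^ 2) := by
  have hl1 : 1 ≤ l := by
    rw [hl]
    exact Nat.one_le_pow _ _ (by omega)
  have h1 : (θ + 1) * (y + 1) + (x + 1) + (θ + 1) * (y + 1) ≤ (2 * (θ + 1) + 1) * (l + 1) := by
    nlinarith [Nat.mul_le_mul_left (θ + 1) hy]
  have h2 : 2 * (θ + 1) + 1 ≤ (4 * (C + 1)) ^ (i + 2) := by
    have h3 : 2 * (θ + 1) + 1 ≤ 4 * (C + 1) ^ (i + 2) := by omega
    refine h3.trans ?_
    rw [Nat.mul_pow]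
    apply Nat.mul_le_mul_right
    calc 4 = 4 ^ 1 := rfl
      _ ≤ 4 ^ (i + 2) := Nat.pow_le_pow_right (by norm_num) (by omega)
  have h3 : l + 1 ≤ (4 * (C + 1)) * l := by nlinarith
  calc (θ + 1) * (y + 1) + (x + 1) + (θ + 1) * (y + 1) ≤ (2 * (θ + 1) + 1) * (l + 1) := h1
    _ ≤ (4 * (C + 1)) ^ (i + 2) * ((4 * (C + 1)) * l) := Nat.mul_le_mul h2 h3
    _ = (4 * (C + 1)) ^ ((i + 2) + 1 + (i + 2) ^ 2) := by
      rw [hl, pow_add _ (i + 2 + 1) ((i + 2) ^ 2), pow_add _ (i + 2) 1, pow_one]
      exact (mul_assoc _ _ _).symm
    _ ≤ (4 * (C + 1)) ^ ((i + 3) ^ 2) := by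
      apply Nat.pow_le_pow_right (by omega)
      nlinarith

theorem L4 (h1 : St_L1) (h3 : St_L3) : St_L4 := by
  intro C i
  induction i with
  | zero =>
    have hr : Rl C 0 [1] [0] := by simp [Rl]
    have ha : 2 * (C + 1) ^ (0 + 1) ≤ (2 * C + 1) + 1 := by
      rw [zero_add, pow_one]
      omega
    have hpow : 4 * (C + 1) ≤ (4 * (C + 1)) ^ ((0 + 2) ^ 2) :=
      Nat.le_self_pow (by norm_num) _
    refine ⟨_, _, h3 C 0 [0] [1] hr (2 * C + 1) (2 * C + 1) (2 * C + 1) ha ha ha,
      ?_, ?_, ?_, ?_, ?_, ?_⟩
    · simp [val]
    · intro h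
      have := L4_mem_rep h
      simp at this
    · intro c hc
      have := L4_mem_rep hc
      simp only [List.mem_singleton] at this
      omega
    · intro c hc
      simp only [List.append_assoc, List.cons_append, List.nil_append, List.mem_append,
        List.mem_cons] at hc
      rcases hc with hc | hc | hc
      · have := L4_mem_rep hc
        simp only [List.mem_singleton] at this
        omega
      · omega
      · have := L4_mem_rep hc
        simp only [List.mem_singleton] at this
        omega
    · refine le_trans ?_ hpow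
      rw [L4_len_rep, List.length_singleton]
      omega
    · refine le_trans ?_ hpow
      rw [List.length_append, List.length_append, L4_len_rep, List.length_singleton,
        List.length_singleton]
      omega
  | succ i ih =>
    obtain ⟨lo, wi, hR, hwi, hlo, hlol, hwil, hll, hwl⟩ := ih
    have hmlo : i + 2 ∉ lo := fun h => lt_irrefl _ (hlol _ h)
    have hmwi : i + 2 ∉ wi := fun h => lt_irrefl _ (hwil _ h)
    obtain ⟨hrefl, -, -, happ, -⟩ := h1 C (i + 1)
    have hvu : Rl C (i + 1) ((i + 2) :: lo) ((i + 2) :: wi) :=
      happ [i + 2] [i + 2] lo wi (hrefl _) hR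
    obtain ⟨θ, hθ⟩ : ∃ θ : ℕ, θ + 2 = 2 * (C + 1) ^ (i + 2) := by
      have : 1 ≤ (C + 1) ^ (i + 2) := Nat.one_le_pow _ _ (by omega)
      exact ⟨2 * (C + 1) ^ (i + 2) - 2, by omega⟩
    have ha : 2 * (C + 1) ^ (i + 1 + 1) ≤ (θ + 1) + 1 := le_of_eq hθ.symm
    have har := L4_arith C i _ θ lo.length wi.length rfl hθ hll hwl
    refine ⟨_, _, h3 C (i + 1) ((i + 2) :: wi) ((i + 2) :: lo) hvu (θ + 1) (θ + 1) (θ + 1)
      ha ha ha, ?_, ?_, ?_, ?_, ?_, ?_⟩
    · refine ⟨rep ((i + 2) :: wi) (θ + 1), lo, wi ++ rep ((i + 2) :: wi) θ, ?_, hmlo, hlo⟩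
      conv_lhs => rw [L4_rep_succ ((i + 2) :: wi) θ]
      rw [L4_rep_succ ((i + 2) :: wi) θ]
      simp only [List.append_assoc, List.cons_append]
    · rintro ⟨p, z, q, h, hz, hval⟩
      rw [L4_factor hmwi _ p z q h hz] at hval
      exact hval hwi
    · intro c hc
      rcases List.mem_cons.1 (L4_mem_rep hc) with h | h
      · omega
      · have := hwil c h
        omega
    · intro c hc
      simp only [List.append_assoc, List.cons_append, List.mem_append, List.mem_cons] at hc
      rcases hc with hc | hc | hc | hc
      · rcases List.mem_cons.1 (L4_mem_rep hc) with h | h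
        · omega
        · have := hwil c h
          omega
      · omega
      · have := hlol c hc
        omega
      · rcases List.mem_cons.1 (L4_mem_rep hc) with h | h
        · omega
        · have := hwil c h
          omega
    · rw [L4_len_rep, List.length_cons]
      refine le_trans ?_ har
      omega
    · rw [List.length_append, List.length_append, L4_len_rep, List.length_cons,
        List.length_cons]
      exact har

end Pool.Agent.RHT
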