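import Pool.Agent.RHT.St2

/-!
# RHT, second round: one block of picks from left to right, exchange of the roles
-/

set_option autoImplicit false

namespace Pool.Agent.RHT

private lemma L5_split (U : List ℕ) (p z q : ℕ) (hpz : p < z) (hzq : z < q)
    (hz : z - 1 < U.length) :
    seg U p q = seg U p z ++ U[z - 1] :: seg U z q := by
  unfold seg
  have e1 : q - 1 - p = (z - 1 - p) + ((q - 1 - z) + 1) := by omega
  rw [e1, List.take_add, List.drop_drop]
  have e2 : p + (z - 1 - p) = z - 1 := by omega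
  rw [e2, List.drop_eq_getElem_cons hz, List.take_succ_cons]
  have e3 : z - 1 + 1 = z := by omega
  rw [e3]

private lemma L5_len (V : List ℕ) (p q : ℕ) (hq : q ≤ V.length + 1) :
    (seg V p q).length = q - 1 - p := by
  unfold seg
  rw [List.length_take, List.length_drop]
  omega

private lemma L5_back (V : List ℕ) (p q : ℕ) (hpq : p < q) (hq : q ≤ V.length + 1) (a : ℕ)
    (p' q' : List ℕ) (h : seg V p q = p' ++ a :: q') :
    p + 1 + p'.length < q ∧ seg V p (p + 1 + p'.length) = p' ∧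
      seg V (p + 1 + p'.length) q = q' ∧ lab V (p + 1 + p'.length) = some a := by
  have hl := L5_len V p q hq
  rw [h, List.length_append, List.length_cons] at hl
  have h1 : p + 1 + p'.length < q := by omega
  have hs : (V.drop p).take (q - 1 - p) = p' ++ a :: q' := h
  refine ⟨h1, ?_, ?_, ?_⟩
  · show (V.drop p).take (p + 1 + p'.length - 1 - p) = p'
    have e1 : p + 1 + p'.length - 1 - p = p'.length := by omega
    rw [e1]
    have e2 : ((V.drop p).take (q - 1 - p)).take p'.length = (V.drop p).take p'.length := by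
      rw [List.take_take]
      congr 1
      omega
    rw [← e2, hs, List.take_left]
  · show (V.drop (p + 1 + p'.length)).take (q - 1 - (p + 1 + p'.length)) = q'
    have e2 : ((V.drop p).take (q - 1 - p)).drop (p'.length + 1) =
        (V.drop (p + 1 + p'.length)).take (q - 1 - (p + 1 + p'.length)) := by
      rw [List.drop_take, List.drop_drop]
      congr 1
      · omega
      · congr 1
        omega
    rw [← e2, hs]
    have e3 : p' ++ a :: q' = (p' ++ [a]) ++ q' := by simp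
    have e4 : p'.length + 1 = (p' ++ [a]).length := by simp
    rw [e3, e4, List.drop_left]
  · have e1 : p + 1 + p'.length = (p + p'.length) + 1 := by omega
    rw [e1]
    show V[p + p'.length]? = some a
    have e2 : V[p + p'.length]? = (V.drop p)[p'.length]? := by
      rw [List.getElem?_drop]
    have e3 : (V.drop p)[p'.length]? = ((V.drop p).take (q - 1 - p))[p'.length]? := by
      rw [List.getElem?_take_of_lt]
      omega
    rw [e2, e3, hs]
    simp

private lemma L5_max (D : Set (ℕ × ℕ)) (z : ℕ) (h : ∃ d ∈ D, d.1 < z) :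
    ∃ d ∈ D, d.1 < z ∧ ∀ f ∈ D, f.1 < z → f.1 ≤ d.1 := by
  obtain ⟨d0, hd0, hd0z⟩ := h
  have hne : {n : ℕ | ∃ f ∈ D, f.1 = n ∧ n < z}.Nonempty := ⟨d0.1, d0, hd0, rfl, hd0z⟩
  have hb : BddAbove {n : ℕ | ∃ f ∈ D, f.1 = n ∧ n < z} := by
    refine ⟨z, ?_⟩
    rintro n ⟨f, _, _, hn⟩
    exact hn.le
  obtain ⟨d, hd, hd1, hd2⟩ := Nat.sSup_mem hne hb
  refine ⟨d, hd, by rw [hd1]; exact hd2, ?_⟩
  intro f hf hfz
  rw [hd1]
  exact le_csSup hb ⟨f, hf, rfl, hfz⟩

private lemma L5_min (D : Set (ℕ × ℕ)) (z : ℕ) (h : ∃ d ∈ D, z < d.1) :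
    ∃ d ∈ D, z < d.1 ∧ ∀ f ∈ D, z < f.1 → d.1 ≤ f.1 := by
  obtain ⟨d0, hd0, hd0z⟩ := h
  have hne : {n : ℕ | ∃ f ∈ D, f.1 = n ∧ z < n}.Nonempty := ⟨d0.1, d0, hd0, rfl, hd0z⟩
  obtain ⟨d, hd, hd1, hd2⟩ := Nat.sInf_mem hne
  refine ⟨d, hd, by rw [hd1]; exact hd2, ?_⟩
  intro f hf hfz
  rw [hd1]
  exact Nat.sInf_le ⟨f, hf, rfl, hfz⟩

/-- The state after the pick `z`, with `c` picks left. -/
private structure L5_S (R : List ℕ → List ℕ → Prop) (c : ℕ) (U V : List ℕ) (z : ℕ)
    (D : Set (ℕ × ℕ)) : Prop where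
  zero : (0, 0) ∈ D
  last : (U.length + 1, V.length + 1) ∈ D
  le : ∀ d ∈ D, d.1 ≤ U.length + 1 ∧ d.2 ≤ V.length + 1
  lb : ∀ d ∈ D, lab U d.1 = lab V d.2
  ord : ∀ d ∈ D, ∀ e ∈ D, d.1 < e.1 ↔ d.2 < e.2
  mem : ∃ f ∈ D, f.1 = z
  gap : ∀ d ∈ D, ∀ e ∈ D, d.1 < e.1 → (∀ f ∈ D, ¬ (d.1 < f.1 ∧ f.1 < e.1)) →
    (e.1 ≤ z → R (seg V d.2 e.2) (seg U d.1 e.1)) ∧
      (z ≤ d.1 → Sl R c (seg U d.1 e.1) (seg V d.2 e.2))

private lemma L5_R (R : List ℕ → List ℕ → Prop) (c : ℕ) (u v : List ℕ) (h : Sl R c u v) :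
    R v u := by
  cases c with
  | zero => exact h
  | succ c => exact h.1

private lemma L5_pred (R : List ℕ → List ℕ → Prop) (c : ℕ) :
    ∀ u v : List ℕ, Sl R (c + 1) u v → Sl R c u v := by
  induction c with
  | zero => exact fun u v h => h.1
  | succ c ih =>
    intro u v h
    refine ⟨h.1, fun p a q hu => ?_⟩
    obtain ⟨p', q', hv, hp, hq⟩ := h.2 p a q hu
    exact ⟨p', q', hv, hp, ih _ _ hq⟩

private lemma L5_old (R : List ℕ → List ℕ → Prop) (c : ℕ) (U V : List ℕ) (z y : ℕ)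
    (D : Set (ℕ × ℕ)) (hS : L5_S R (c + 1) U V z D) (hzy : z ≤ y) (f : ℕ × ℕ) (hf : f ∈ D)
    (g : ℕ × ℕ) (hg : g ∈ D) (hfg : f.1 < g.1) (hno : ∀ k ∈ D, ¬ (f.1 < k.1 ∧ k.1 < g.1)) :
    (g.1 ≤ y → R (seg V f.2 g.2) (seg U f.1 g.1)) ∧
      (y ≤ f.1 → Sl R c (seg U f.1 g.1) (seg V f.2 g.2)) := by
  have hgap := hS.gap f hf g hg hfg hno
  refine ⟨fun _ => ?_, fun h => L5_pred R c _ _ (hgap.2 (hzy.trans h))⟩
  by_cases h : g.1 ≤ z
  · exact hgap.1 h
  · obtain ⟨k, hk, hkz⟩ := hS.mem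
    have h1 := hno k hk
    exact L5_R R (c + 1) _ _ (hgap.2 (by omega))

private lemma L5_step (R : List ℕ → List ℕ → Prop) (c : ℕ) (U V : List ℕ) (y : ℕ)
    (D : Set (ℕ × ℕ)) (hK : L5_S R (c + 1) U V y D) (z : ℕ) (hyz : y ≤ z)
    (hz : z ≤ U.length + 1) :
    ∃ z', z' ≤ V.length + 1 ∧ L5_S R c U V z (insert (z, z') D) := by
  by_cases hex : ∃ d ∈ D, d.1 = z
  · obtain ⟨d, hd, hdz⟩ := hex
    refine ⟨d.2, (hK.le d hd).2, ?_⟩
    have e : insert (z, d.2) D = D := by
      rw [← hdz]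
      exact Set.insert_eq_of_mem hd
    rw [e]
    exact ⟨hK.zero, hK.last, hK.le, hK.lb, hK.ord, ⟨d, hd, hdz⟩, fun a ha b hb hab hf =>
      L5_old R c U V y z D hK hyz a ha b hb hab hf⟩
  · have hne : ∀ d ∈ D, d.1 ≠ z := fun d hd h => hex ⟨d, hd, h⟩
    have hz0 : z ≠ 0 := fun h => hne _ hK.zero h.symm
    have hz1 : z ≠ U.length + 1 := fun h => hne _ hK.last h.symm
    obtain ⟨d, hd, hdz, hdm⟩ := L5_max D z ⟨_, hK.zero, Nat.pos_of_ne_zero hz0⟩
    obtain ⟨e, he, hze, hem⟩ := L5_min D z ⟨_, hK.last, lt_of_le_of_ne hz hz1⟩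
    have hzl : z - 1 < U.length := by omega
    have hde : d.1 < e.1 := hdz.trans hze
    have hyd : y ≤ d.1 := by
      obtain ⟨k, hk, hky⟩ := hK.mem
      have h1 := hne k hk
      have h2 := hdm k hk (by omega)
      omega
    have hgap := (hK.gap d hd e he hde (by
      rintro f hf ⟨hf1, hf2⟩
      rcases lt_trichotomy f.1 z with h | h | h
      · exact absurd (hdm f hf h) (by omega)
      · exact hne f hf h
      · exact absurd (hem f hf h) (by omega))).2 hyd
    obtain ⟨p', q', hpq, hp', hq'⟩ := hgap.2 (seg U d.1 z) (U[z - 1]) (seg U z e.1)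
      (L5_split U d.1 z e.1 hdz hze hzl)
    have hde2 : d.2 < e.2 := (hK.ord d hd e he).1 hde
    obtain ⟨b1, b2, b3, b4⟩ := L5_back V d.2 e.2 hde2 (hK.le e he).2 _ p' q' hpq
    obtain ⟨z', hz'⟩ : ∃ z', z' = d.2 + 1 + p'.length := ⟨_, rfl⟩
    rw [← hz'] at b1 b2 b3 b4
    have hdz' : d.2 < z' := by omega
    have hlow : ∀ f ∈ D, f.1 < z → f.2 < z' := by
      intro f hf hfz
      have h1 : ¬ d.1 < f.1 := by
        have := hdm f hf hfz
        omega
      have h2 : ¬ d.2 < f.2 := fun h => h1 ((hK.ord d hd f hf).2 h)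
      omega
    have hhigh : ∀ f ∈ D, z < f.1 → z' < f.2 := by
      intro f hf hfz
      have h1 : ¬ f.1 < e.1 := by
        have := hem f hf hfz
        omega
      have h2 : ¬ f.2 < e.2 := fun h => h1 ((hK.ord f hf e he).2 h)
      omega
    have heq : ∀ f ∈ D, ∀ g ∈ D, f.1 = g.1 → f.2 = g.2 := by
      intro f hf g hg hfg
      have h1 : ¬ f.2 < g.2 := fun h => by
        have := (hK.ord f hf g hg).2 h
        omega
      have h2 : ¬ g.2 < f.2 := fun h => by
        have := (hK.ord g hg f hf).2 h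
        omega
      omega
    have hle := (hK.le e he).2
    refine ⟨z', by omega, ?_⟩
    refine ⟨Set.mem_insert_of_mem _ hK.zero, Set.mem_insert_of_mem _ hK.last, ?_, ?_, ?_,
      ⟨(z, z'), Set.mem_insert _ _, rfl⟩, ?_⟩
    · intro f hf
      rcases Set.mem_insert_iff.1 hf with rfl | hf
      · exact ⟨hz, by show z' ≤ V.length + 1; omega⟩
      · exact hK.le f hf
    · intro f hf
      rcases Set.mem_insert_iff.1 hf with rfl | hf
      · show lab U z = lab V z'
        rw [b4]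
        obtain ⟨y, rfl⟩ : ∃ y, z = y + 1 := ⟨z - 1, by omega⟩
        show U[y]? = some U[y + 1 - 1]
        exact List.getElem?_eq_getElem hzl
      · exact hK.lb f hf
    · intro f hf g hg
      rcases Set.mem_insert_iff.1 hf with rfl | hf
      · rcases Set.mem_insert_iff.1 hg with rfl | hg
        · exact ⟨fun h => absurd h (lt_irrefl _), fun h => absurd h (lt_irrefl _)⟩
        · show z < g.1 ↔ z' < g.2
          refine ⟨hhigh g hg, fun h => ?_⟩
          rcases lt_trichotomy g.1 z with h1 | h1 | h1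
          · exact absurd (hlow g hg h1) (by omega)
          · exact absurd h1 (hne g hg)
          · exact h1
      · rcases Set.mem_insert_iff.1 hg with rfl | hg
        · show f.1 < z ↔ f.2 < z'
          refine ⟨hlow f hf, fun h => ?_⟩
          rcases lt_trichotomy f.1 z with h1 | h1 | h1
          · exact h1
          · exact absurd h1 (hne f hf)
          · exact absurd (hhigh f hf h1) (by omega)
        · exact hK.ord f hf g hg
    · intro f hf g hg hfg hno
      rcases Set.mem_insert_iff.1 hf with rfl | hf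
      · rcases Set.mem_insert_iff.1 hg with rfl | hg
        · exact absurd hfg (lt_irrefl _)
        · have hfg' : z < g.1 := hfg
          have h1 : g.1 = e.1 := by
            have h2 := hem g hg hfg'
            have h3 : ¬ e.1 < g.1 := fun h => hno e (Set.mem_insert_of_mem _ he) ⟨hze, h⟩
            omega
          refine ⟨fun h => absurd h (by omega), fun _ => ?_⟩
          show Sl R c (seg U z g.1) (seg V z' g.2)
          rw [heq g hg e he h1, h1, b3]
          exact hq'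
      · rcases Set.mem_insert_iff.1 hg with rfl | hg
        · have hfg' : f.1 < z := hfg
          have h1 : f.1 = d.1 := by
            have h2 := hdm f hf hfg'
            have h3 : ¬ f.1 < d.1 := fun h => hno d (Set.mem_insert_of_mem _ hd) ⟨h, hdz⟩
            omega
          refine ⟨fun _ => ?_, fun (h : z ≤ f.1) => absurd h (by omega)⟩
          show R (seg V f.2 z') (seg U f.1 z)
          rw [heq f hf d hd h1, h1, b2]
          exact hp'
        · exact L5_old R c U V y z D hK hyz f hf g hg hfg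
            fun k hk => hno k (Set.mem_insert_of_mem _ hk)

private lemma L5_fin (R : List ℕ → List ℕ → Prop) (U V : List ℕ) (n : ℕ) :
    ∀ (c z : ℕ) (D : Set (ℕ × ℕ)), L5_S R (n + c) U V z D → ∀ w : Fin n → ℕ, Monotone w →
      (∀ k, z ≤ w k) → (∀ k, w k < U.length + 2) → ∃ w' : Fin n → ℕ,
        (∀ k, w' k < V.length + 2) ∧ ∃ y, L5_S R c U V y (D ∪ grf w w') := by
  induction n with
  | zero =>
    intro c z D hK w _ _ _
    refine ⟨fun k => k.elim0, fun k => k.elim0, z, ?_⟩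
    have e : D ∪ grf w (fun k : Fin 0 => (k.elim0 : ℕ)) = D := by
      unfold grf
      rw [Set.range_eq_empty, Set.union_empty]
    rw [e]
    have e2 : 0 + c = c := Nat.zero_add c
    rw [e2] at hK
    exact hK
  | succ n ih =>
    intro c z D hK w hm hz hw
    have e : n + 1 + c = (n + c) + 1 := by omega
    rw [e] at hK
    obtain ⟨z', hz', hK'⟩ := L5_step R (n + c) U V z D hK (w 0) (hz 0)
      (by have := hw 0; omega)
    obtain ⟨w', hw', y, hK2⟩ := ih c (w 0) (insert (w 0, z') D) hK' (fun k => w k.succ)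
      (fun k l hkl => hm (Fin.succ_le_succ_iff.2 hkl)) (fun k => hm (Fin.zero_le _))
      (fun k => hw k.succ)
    refine ⟨Fin.cons z' w', ?_, y, ?_⟩
    · intro k
      refine Fin.cases ?_ (fun k => ?_) k
      · show z' < V.length + 2
        omega
      · exact hw' k
    · have e3 : D ∪ grf w (Fin.cons z' w' : Fin (n + 1) → ℕ) =
          insert (w 0, z') D ∪ grf (fun k => w k.succ) w' := by
        ext d
        simp only [grf, Set.mem_union, Set.mem_range, Set.mem_insert_iff]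
        constructor
        · rintro (hd | ⟨k, hk⟩)
          · exact Or.inl (Or.inr hd)
          · revert hk
            refine Fin.cases (fun hk => ?_) (fun k hk => ?_) k
            · exact Or.inl (Or.inl hk.symm)
            · exact Or.inr ⟨k, hk⟩
        · rintro ((hd | hd) | ⟨k, hk⟩)
          · exact Or.inr ⟨0, hd.symm⟩
          · exact Or.inl hd
          · exact Or.inr ⟨k.succ, hk⟩
      rw [e3]
      exact hK2

private lemma L5_one (κ : Type) [Fintype κ] (R : List ℕ → List ℕ → Prop) (C : ℕ)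
    (U V : List ℕ) (D : Set (ℕ × ℕ)) (hK : KK (Sl R C) U V D) (hc : Fintype.card κ ≤ C)
    (w : κ → ℕ) (hw : ∀ k, w k < U.length + 2) :
    ∃ w' : κ → ℕ, (∀ k, w' k < V.length + 2) ∧
      KK (fun u v => R v u) U V (D ∪ grf w w') := by
  obtain ⟨f0⟩ : Nonempty (κ ≃ Fin (Fintype.card κ)) := ⟨Fintype.equivFin κ⟩
  obtain ⟨c', rfl⟩ : ∃ c', C = Fintype.card κ + c' := ⟨C - Fintype.card κ, by omega⟩
  obtain ⟨f, hf⟩ : ∃ f : κ ≃ Fin (Fintype.card κ), Monotone (fun k => w (f.symm k)) := by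
    refine ⟨f0.trans (Tuple.sort (fun k => w (f0.symm k))).symm, ?_⟩
    exact Tuple.monotone_sort (fun k => w (f0.symm k))
  have hS : L5_S R (Fintype.card κ + c') U V 0 D :=
    ⟨hK.zero, hK.last, hK.le, hK.lb, hK.ord, ⟨_, hK.zero, rfl⟩, fun d hd e he hde hno =>
      ⟨fun h => absurd h (by omega), fun _ => hK.gap d hd e he hde hno⟩⟩
  obtain ⟨w', hw', y, hK'⟩ := L5_fin R U V (Fintype.card κ) c' 0 D hS (fun k => w (f.symm k))
    hf (fun k => Nat.zero_le _) (fun k => hw _)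
  refine ⟨fun k => w' (f k), fun k => hw' _, ?_⟩
  have e : grf w (fun k => w' (f k)) = grf (fun k => w (f.symm k)) w' := by
    ext d
    simp only [grf, Set.mem_range]
    constructor
    · rintro ⟨k, hk⟩
      exact ⟨f k, by rw [Equiv.symm_apply_apply]; exact hk⟩
    · rintro ⟨k, hk⟩
      exact ⟨f.symm k, by rw [Equiv.apply_symm_apply]; exact hk⟩
  rw [e]
  refine ⟨hK'.zero, hK'.last, hK'.le, hK'.lb, hK'.ord, fun d hd e he hde hno => ?_⟩
  have hgap := hK'.gap d hd e he hde hno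
  show R (seg V d.2 e.2) (seg U d.1 e.1)
  by_cases h : e.1 ≤ y
  · exact hgap.1 h
  · obtain ⟨k, hk, hky⟩ := hK'.mem
    have h1 := hno k hk
    exact L5_R R c' _ _ (hgap.2 (by omega))

private lemma L5_swap (R : List ℕ → List ℕ → Prop) (U V : List ℕ) (D : Set (ℕ × ℕ))
    (hK : KK (fun u v => R v u) U V D) : KK R V U (Prod.swap '' D) := by
  refine ⟨⟨_, hK.zero, rfl⟩, ⟨_, hK.last, rfl⟩, ?_, ?_, ?_, ?_⟩
  · rintro _ ⟨d, hd, rfl⟩
    exact ⟨(hK.le d hd).2, (hK.le d hd).1⟩
  · rintro _ ⟨d, hd, rfl⟩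
    exact (hK.lb d hd).symm
  · rintro _ ⟨d, hd, rfl⟩ _ ⟨e, he, rfl⟩
    exact (hK.ord d hd e he).symm
  · rintro _ ⟨d, hd, rfl⟩ _ ⟨e, he, rfl⟩ hde hf
    have h1 : d.1 < e.1 := (hK.ord d hd e he).2 hde
    refine hK.gap d hd e he h1 ?_
    rintro f hf' ⟨h2, h3⟩
    exact hf f.swap ⟨f, hf', rfl⟩ ⟨(hK.ord d hd f hf').1 h2, (hK.ord f hf' e he).1 h3⟩

private lemma L5_ot (κ : Type) (R : List ℕ → List ℕ → Prop) (U V : List ℕ) (D : Set (ℕ × ℕ))
    (w w' : κ → ℕ) (hK : KK R U V (D ∪ grf w w')) : OT D w w' := by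
  have hg : ∀ k, (w k, w' k) ∈ D ∪ grf w w' := fun k => Or.inr ⟨k, rfl⟩
  refine ⟨fun k d hd => ⟨?_, ?_⟩, fun k l => ?_⟩
  · exact hK.ord (w k, w' k) (hg k) d (Or.inl hd)
  · exact hK.ord d (Or.inl hd) (w k, w' k) (hg k)
  · exact hK.ord (w k, w' k) (hg k) (w l, w' l) (hg l)

theorem L5 : St_L5 := by
  refine ⟨?_, ?_, ?_⟩
  · intro κ _ R C U V D hK hc w hw
    exact L5_one κ R C U V D hK hc w hw
  · intro R U V D hK
    exact L5_swap R U V D hK
  · intro κ _ C i U V D hK hc w hw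
    obtain ⟨w', hw', hK'⟩ := L5_one κ (Rl C i) C U V D hK hc w hw
    exact ⟨w', hw', L5_ot κ _ U V D w w' hK', L5_swap (Rl C i) U V _ hK'⟩

end Pool.Agent.RHT
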