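import Pool.Agent.RHT.St

/-!
# Locality of truth, existence and uniqueness of the truth table
-/

set_option autoImplicit false

open MvPolynomial
open Pool.Agent.RH

namespace Pool.Agent.RHT

private theorem O1_local (O O' : Set (List ℝ)) (s : ℕ)
    (h : ∀ l : List ℝ, l.length < s → (l ∈ O ↔ l ∈ O')) (ψ : Qf) (hψ : ψ.code.length ≤ s) :
    ∀ (k : ℕ) (e : Bool) (i : ℕ) (b : ℕ → ℕ → ℝ),
      (truth O e k i ψ b ↔ truth O' e k i ψ b) := by
  intro k
  induction k with
  | zero =>
    intro e i b
    have h1 : ψ.holds O b ↔ ψ.holds O' b := by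
      refine Qf.holds_congr (fun l hl => h l ?_)
      exact lt_of_lt_of_le (Qf.qs_length hl) hψ
    cases e <;> exact h1
  | succ k ih =>
    intro e i b
    cases e with
    | true => exact exists_congr fun v => ih false (i + 1) _
    | false => exact forall_congr' fun v => ih true (i + 1) _

private theorem O1_ore (T T' : Set Qf) (E E' : ℕ → Set (ℕ × ℕ)) (s : ℕ)
    (hT : ∀ χ : Qf, χ.code.length < s → (χ ∈ T ↔ χ ∈ T')) (hE : ∀ n, n < s → E n = E' n)
    (l : List ℝ) (hl : l.length < s) : l ∈ ore T E ↔ l ∈ ore T' E' := by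
  have h1 : ∀ χ : Qf, l = 0 :: bits χ.code → χ.code.length < s := by
    intro χ h
    have h2 : l.length = χ.code.length + 1 := by
      rw [h, List.length_cons]
      unfold bits
      rw [List.length_map]
    omega
  have h3 : ∀ (n : ℕ) (e : Set (ℕ × ℕ)), l ∈ LL n e → n < s := by
    rintro n e ⟨t, -, h⟩
    have h4 : l.length = n + 3 := by
      rw [h, List.length_append, List.length_replicate]
      rfl
    omega
  constructor
  · rintro (⟨χ, hχ, h⟩ | ⟨n, h⟩)
    · exact Or.inl ⟨χ, (hT χ (h1 χ h)).1 hχ, h⟩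
    · refine Or.inr ⟨n, ?_⟩
      rw [← hE n (h3 n _ h)]
      exact h
  · rintro (⟨χ, hχ, h⟩ | ⟨n, h⟩)
    · exact Or.inl ⟨χ, (hT χ (h1 χ h)).2 hχ, h⟩
    · refine Or.inr ⟨n, ?_⟩
      rw [hE n (h3 n _ h)]
      exact h

/-- Locality, existence and uniqueness of the fixed point. -/
theorem O1 : St_O1 := by
  refine ⟨?_, ?_, ?_⟩
  · intro O O' s h ψ hψ e k i b
    exact O1_local O O' s h ψ hψ k e i b
  · intro k E
    obtain ⟨T, hT⟩ := exists_fix (fun ψ : Qf => ψ.code.length)
      (fun T => {ψ | SigmaTrue (ore T E) k ψ}) (by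
        intro T T' ψ h
        exact O1_local (ore T E) (ore T' E) ψ.code.length
          (O1_ore T T' E E ψ.code.length h (fun _ _ => rfl)) ψ le_rfl k true 0 (fun _ _ => 0))
    exact ⟨T, fun ψ => hT ψ⟩
  · intro k s E E' T T' hT hT' hE ψ hψ
    have key : ∀ n, ∀ ψ : Qf, ψ.code.length = n → n ≤ s → (ψ ∈ T ↔ ψ ∈ T') := by
      intro n
      induction n using Nat.strong_induction_on with
      | _ n ih =>
        intro ψ h1 h2
        rw [hT ψ, hT' ψ]
        refine O1_local (ore T E) (ore T' E') ψ.code.length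
          (O1_ore T T' E E' ψ.code.length ?_ ?_) ψ le_rfl k true 0 (fun _ _ => 0)
        · intro χ hχ
          exact ih χ.code.length (by omega) χ rfl (by omega)
        · intro m hm
          exact hE m (by omega)
    exact key _ ψ rfl hψ

end Pool.Agent.RHT

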