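import Pool.Agent.RHT.St

/-!
# RHT, module O2: the first levels collapse
-/

set_option autoImplicit false

open Pool.Agent.RH Pool.Agent.RelPoly Function

namespace Pool.Agent.RHT

private lemma O2_tval {k : ℕ} {a a' : ℕ → ℕ → ℝ} (h : ∀ i, i < k → a i = a' i) {t : Tm}
    (ht : t.Closed k) : t.val a = t.val a' := by
  induction t with
  | var i j => simp only [Tm.val]; rw [h i ht]
  | zero => rfl
  | one => rfl
  | add s t ihs iht => simp only [Tm.val]; rw [ihs ht.1, iht ht.2]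
  | sub s t ihs iht => simp only [Tm.val]; rw [ihs ht.1, iht ht.2]
  | mul s t ihs iht => simp only [Tm.val]; rw [ihs ht.1, iht ht.2]

private lemma O2_holds (O : Set (List ℝ)) {k : ℕ} {a a' : ℕ → ℕ → ℝ}
    (h : ∀ i, i < k → a i = a' i) {ψ : Qf} (hψ : ψ.Closed k) :
    ψ.holds O a ↔ ψ.holds O a' := by
  induction ψ with
  | eq s t => simp only [Qf.holds]; rw [O2_tval h hψ.1, O2_tval h hψ.2]
  | lt s t => simp only [Qf.holds]; rw [O2_tval h hψ.1, O2_tval h hψ.2]
  | le s t => simp only [Qf.holds]; rw [O2_tval h hψ.1, O2_tval h hψ.2]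
  | orc l =>
    simp only [Qf.holds]
    rw [List.map_congr_left (fun t ht => O2_tval h (hψ t ht))]
  | neg φ ih => simp only [Qf.holds]; rw [ih hψ]
  | and φ ψ ih1 ih2 => simp only [Qf.holds]; rw [ih1 hψ.1, ih2 hψ.2]
  | or φ ψ ih1 ih2 => simp only [Qf.holds]; rw [ih1 hψ.1, ih2 hψ.2]

private lemma O2_tclosed {k k' : ℕ} (h : k ≤ k') {t : Tm} (ht : t.Closed k) : t.Closed k' := by
  induction t with
  | var i j => exact lt_of_lt_of_le ht h
  | zero => trivial
  | one => trivial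
  | add s t ihs iht => exact ⟨ihs ht.1, iht ht.2⟩
  | sub s t ihs iht => exact ⟨ihs ht.1, iht ht.2⟩
  | mul s t ihs iht => exact ⟨ihs ht.1, iht ht.2⟩

private lemma O2_closed {k k' : ℕ} (h : k ≤ k') {ψ : Qf} (hψ : ψ.Closed k) : ψ.Closed k' := by
  induction ψ with
  | eq s t => exact ⟨O2_tclosed h hψ.1, O2_tclosed h hψ.2⟩
  | lt s t => exact ⟨O2_tclosed h hψ.1, O2_tclosed h hψ.2⟩
  | le s t => exact ⟨O2_tclosed h hψ.1, O2_tclosed h hψ.2⟩
  | orc l => exact fun t ht => O2_tclosed h (hψ t ht)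
  | neg φ ih => exact ih hψ
  | and φ ψ ih1 ih2 => exact ⟨ih1 hψ.1, ih2 hψ.2⟩
  | or φ ψ ih1 ih2 => exact ⟨ih1 hψ.1, ih2 hψ.2⟩

/-- blocks without variables do not matter -/
private lemma O2_none (O : Set (List ℝ)) {ψ : Qf} (d : ℕ) : ∀ (e : Bool) (i : ℕ)
    (b : ℕ → ℕ → ℝ), ψ.Closed i → (truth O e d i ψ b ↔ ψ.holds O b) := by
  induction d with
  | zero => intro e i b _; cases e <;> rfl
  | succ d ih =>
    intro e i b hψ
    have h1 : ∀ v : ℕ → ℝ, ψ.holds O (update b i v) ↔ ψ.holds O b := by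
      intro v
      refine O2_holds O (k := i) ?_ hψ
      intro i' hi'
      exact update_of_ne (Nat.ne_of_lt hi') v b
    have h2 : ψ.Closed (i + 1) := O2_closed (by omega) hψ
    cases e with
    | true =>
      simp only [truth]
      constructor
      · rintro ⟨v, hv⟩
        exact (h1 v).mp ((ih false (i + 1) _ h2).mp hv)
      · intro h
        exact ⟨fun _ => 0, (ih false (i + 1) _ h2).mpr ((h1 _).mpr h)⟩
    | false =>
      simp only [truth]
      constructor
      · intro h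
        exact (h1 (fun _ => 0)).mp ((ih true (i + 1) _ h2).mp (h (fun _ => 0)))
      · intro h v
        exact (ih true (i + 1) _ h2).mpr ((h1 v).mpr h)

private lemma O2_more (O : Set (List ℝ)) {ψ : Qf} (d d' : ℕ) : ∀ (e : Bool) (i : ℕ)
    (b : ℕ → ℕ → ℝ), ψ.Closed (i + d) → (truth O e d i ψ b ↔ truth O e (d + d') i ψ b) := by
  induction d with
  | zero =>
    intro e i b hψ
    rw [zero_add, O2_none O d' e i b hψ, O2_none O 0 e i b hψ]
  | succ d ih =>
    intro e i b hψ
    have h2 : ψ.Closed (i + 1 + d) := by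
      have h3 : i + 1 + d = i + (d + 1) := by ring
      rw [h3]; exact hψ
    have h4 : d + 1 + d' = (d + d') + 1 := by ring
    rw [h4]
    cases e with
    | true =>
      simp only [truth]
      exact exists_congr fun v => ih false (i + 1) _ h2
    | false =>
      simp only [truth]
      exact forall_congr' fun v => ih true (i + 1) _ h2

private lemma O2_neg (O : Set (List ℝ)) (ψ : Qf) (d : ℕ) : ∀ (i : ℕ) (b : ℕ → ℕ → ℝ),
    (truth O true d i (Qf.neg ψ) b ↔ ¬ truth O false d i ψ b) ∧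
    (truth O false d i (Qf.neg ψ) b ↔ ¬ truth O true d i ψ b) := by
  induction d with
  | zero => intro i b; exact ⟨Iff.rfl, Iff.rfl⟩
  | succ d ih =>
    intro i b
    refine ⟨?_, ?_⟩
    · simp only [truth, not_forall]
      exact exists_congr fun v => (ih (i + 1) _).2
    · simp only [truth, not_exists]
      exact forall_congr' fun v => (ih (i + 1) _).1

private lemma O2_mem {T : Set Qf} {E : ℕ → Set (ℕ × ℕ)} {ψ : Qf} :
    (0 :: bits ψ.code) ∈ ore T E ↔ ψ ∈ T := by
  constructor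
  · rintro (⟨χ, hχ, h⟩ | ⟨n, t, ht, h⟩)
    · rw [List.cons.injEq] at h
      rw [Qf.code_injective (bits_injective h.2)]
      exact hχ
    · cases n with
      | zero => simp at h
      | succ n => simp [List.replicate_succ] at h
  · intro h
    exact Or.inl ⟨ψ, h, rfl⟩

private lemma O2_pt1 {f : List Bool → List Bool} (hf : Pool.Agent.PolyTime.PolyTime f) :
    Pool.Agent.PolyTime.PolyTime (fun x => (Qf.orc (Tm.zero :: bitsTm (f x))).code) := by
  have h1 : PT poly (fun x : List Bool => ([false, true] ++ (true :: Tm.zero.code)) ++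
      ((bitsTm (f x)).flatMap (fun t => true :: t.code) ++ [false])) :=
    PT.append (PT.const _) (PT.append (PT.comp (f := f) pt_bitsCode (PT_poly_iff.2 hf)) (PT.const _))
  refine PT_poly_iff.1 (h1.congr (fun x => ?_))
  simp [Qf.code]

private lemma O2_pt2 {f : List Bool → List Bool} (hf : Pool.Agent.PolyTime.PolyTime f) :
    Pool.Agent.PolyTime.PolyTime
      (fun x => (Qf.neg (Qf.orc (Tm.zero :: bitsTm ([true, false] ++ f x)))).code) := by
  have h0 : PT poly (fun x : List Bool => [true, false] ++ f x) :=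
    PT.append (PT.const _) (PT_poly_iff.2 hf)
  have h1 : PT poly (fun x : List Bool => ([true, false] ++ ([false, true] ++
      (true :: Tm.zero.code))) ++
      ((bitsTm ([true, false] ++ f x)).flatMap (fun t => true :: t.code) ++ [false])) :=
    PT.append (PT.const _) (PT.append (PT.comp (f := fun x => [true, false] ++ f x)
      pt_bitsCode h0) (PT.const _))
  refine PT_poly_iff.1 (h1.congr (fun x => ?_))
  simp [Qf.code]

private lemma O2_orc_closed (w : List Bool) (k : ℕ) :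
    (Qf.orc (Tm.zero :: bitsTm w)).Closed k := by
  simp only [Qf.Closed, List.mem_cons]
  rintro t (rfl | ht)
  · trivial
  · exact bitsTm_closed _ _ t ht

private lemma O2_orc_true (O : Set (List ℝ)) (w : List Bool) :
    SigmaTrue O 0 (Qf.orc (Tm.zero :: bitsTm w)) ↔ (0 :: bits w) ∈ O := by
  simp only [SigmaTrue, truth, Qf.holds, List.map_cons, bitsTm_val, Tm.val]

theorem O2 : St_O2 := by
  intro k T E hT j hj L
  have hSig : ∀ ψ : Qf, ψ.Closed j → (SigmaTrue (ore T E) j ψ ↔ ψ ∈ T) := by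
    intro ψ hψ
    rw [hT ψ]
    have h1 := O2_more (ore T E) (ψ := ψ) j (k - j) true 0 (fun _ _ => 0) (by rwa [zero_add])
    rw [Nat.add_sub_cancel' hj] at h1
    exact h1
  refine ⟨⟨?_, ?_⟩, ⟨?_, ?_⟩⟩
  · rintro ⟨f, hf, h⟩
    refine ⟨fun x => (Qf.orc (Tm.zero :: bitsTm (f x))).code, O2_pt1 hf, fun x => ?_⟩
    obtain ⟨ψ, h0, h1, h2⟩ := h x
    refine ⟨_, O2_orc_closed _ _, rfl, ?_⟩
    rw [h2, hSig ψ h0, O2_orc_true, h1, O2_mem]
  · rintro ⟨f, hf, h⟩
    refine ⟨f, hf, fun x => ?_⟩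
    obtain ⟨ψ, h0, h1, h2⟩ := h x
    refine ⟨ψ, O2_closed (Nat.zero_le j) h0, h1, ?_⟩
    rw [h2]
    unfold SigmaTrue
    rw [O2_none _ j true 0 _ h0, O2_none _ 0 true 0 _ h0]
  · rintro ⟨f, hf, h⟩
    refine ⟨fun x => (Qf.neg (Qf.orc (Tm.zero :: bitsTm ([true, false] ++ f x)))).code,
      O2_pt2 hf, fun x => ?_⟩
    obtain ⟨ψ, h0, h1, h2⟩ := h x
    refine ⟨Qf.neg (Qf.orc (Tm.zero :: bitsTm ([true, false] ++ f x))), O2_orc_closed _ _,
      rfl, ?_⟩
    have e : [true, false] ++ f x = (Qf.neg ψ).code := by rw [h1]; rfl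
    have h3 : SigmaTrue (ore T E) 0 (Qf.neg (Qf.orc (Tm.zero :: bitsTm ([true, false] ++ f x)))) ↔
        ¬ SigmaTrue (ore T E) 0 (Qf.orc (Tm.zero :: bitsTm ([true, false] ++ f x))) := Iff.rfl
    rw [h3, O2_orc_true, e, O2_mem, ← hSig (Qf.neg ψ) h0, h2]
    have h4 := (O2_neg (ore T E) ψ j 0 (fun _ _ => 0)).1
    unfold SigmaTrue PiTrue
    rw [h4, not_not]
  · rintro ⟨f, hf, h⟩
    refine ⟨f, hf, fun x => ?_⟩
    obtain ⟨ψ, h0, h1, h2⟩ := h x
    refine ⟨ψ, O2_closed (Nat.zero_le j) h0, h1, ?_⟩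
    rw [h2]
    unfold SigmaTrue PiTrue
    rw [O2_none _ j false 0 _ h0, O2_none _ 0 true 0 _ h0]

end Pool.Agent.RHT
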