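import Pool.Agent.RHT.St2

/-!
# RHT, module O4: the oracle is quantitatively tame
-/

set_option autoImplicit false

open Pool.Agent.RH

namespace Pool.Agent.RHT

private lemma O4_words (m : ℕ) : {c : List Bool | c.length = m}.Finite ∧
    {c : List Bool | c.length = m}.ncard ≤ 2 ^ m := by
  have h1 : {c : List Bool | c.length = m} ⊆ (fun g : Fin m → Bool => List.ofFn g) '' Set.univ := by
    intro c hc
    have hc' : c.length = m := hc
    subst hc'
    exact ⟨fun i => c.get i, Set.mem_univ _, by simp⟩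
  have h2 : ((fun g : Fin m → Bool => List.ofFn g) '' Set.univ).Finite := (Set.finite_univ).image _
  refine ⟨h2.subset h1, ?_⟩
  calc {c : List Bool | c.length = m}.ncard
      ≤ ((fun g : Fin m → Bool => List.ofFn g) '' Set.univ).ncard := Set.ncard_le_ncard h1 h2
    _ ≤ (Set.univ : Set (Fin m → Bool)).ncard := Set.ncard_image_le Set.finite_univ
    _ = 2 ^ m := by rw [Set.ncard_univ]; simp

private lemma O4_num (m : ℕ) (T : Set Qf) (E : ℕ → Set (ℕ × ℕ))
    (hE : ∀ n, (E n).Finite ∧ (E n).ncard ≤ 2 ^ n) :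
    {l | l ∈ ore T E ∧ l.length = m}.Finite ∧ {l | l ∈ ore T E ∧ l.length = m}.ncard ≤ 2 ^ m := by
  rcases m with _ | m
  · have h : {l | l ∈ ore T E ∧ l.length = 0} = ∅ := by
      rw [Set.eq_empty_iff_forall_notMem]
      rintro l ⟨hl, hm⟩
      rcases hl with ⟨ψ, hψ, rfl⟩ | ⟨n, t, ht, rfl⟩
      · simp at hm
      · simp at hm
    rw [h]
    exact ⟨Set.finite_empty, by simp⟩
  · set A : Set (List ℝ) := (fun c : List Bool => (0 : ℝ) :: bits c) '' {c : List Bool | c.length = m}
      with hA
    set B : Set (List ℝ) := (fun t : ℕ × ℕ => List.replicate (m - 2) (1 : ℝ) ++ [2, (t.1 : ℝ), (t.2 : ℝ)]) ''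
      (if 2 ≤ m then E (m - 2) else ∅) with hB
    obtain ⟨w1, w2⟩ := O4_words m
    have hAf : A.Finite := w1.image _
    have hAc : A.ncard ≤ 2 ^ m := (Set.ncard_image_le w1).trans w2
    have hif : (if 2 ≤ m then E (m - 2) else ∅ : Set (ℕ × ℕ)).Finite ∧
        (if 2 ≤ m then E (m - 2) else ∅ : Set (ℕ × ℕ)).ncard ≤ 2 ^ m := by
      split_ifs with h
      · exact ⟨(hE _).1, (hE _).2.trans (Nat.pow_le_pow_right (by norm_num) (by omega))⟩
      · exact ⟨Set.finite_empty, by simp⟩
    have hBf : B.Finite := hif.1.image _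
    have hBc : B.ncard ≤ 2 ^ m := (Set.ncard_image_le hif.1).trans hif.2
    have hsub : {l | l ∈ ore T E ∧ l.length = m + 1} ⊆ A ∪ B := by
      rintro l ⟨hl, hm⟩
      rcases hl with ⟨ψ, hψ, rfl⟩ | ⟨n, t, ht, rfl⟩
      · left
        refine ⟨ψ.code, ?_, rfl⟩
        simp only [bits, List.length_cons, List.length_map] at hm
        simp only [Set.mem_setOf_eq]
        omega
      · right
        simp only [List.length_append, List.length_replicate, List.length_cons,
          List.length_nil] at hm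
        have h2 : 2 ≤ m := by omega
        have hn : m - 2 = n := by omega
        refine ⟨t, ?_, ?_⟩
        · rw [if_pos h2, hn]
          exact ht
        · simp only [hn]
    refine ⟨(hAf.union hBf).subset hsub, ?_⟩
    calc {l | l ∈ ore T E ∧ l.length = m + 1}.ncard ≤ (A ∪ B).ncard :=
          Set.ncard_le_ncard hsub (hAf.union hBf)
      _ ≤ A.ncard + B.ncard := Set.ncard_union_le _ _
      _ ≤ 2 ^ (m + 1) := by
          have : 2 ^ (m + 1) = 2 ^ m + 2 ^ m := by ring
          omega

theorem O4 : St_O4 := by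
  intro T E hE
  refine ⟨fun m => O4_num m T E hE, ?_⟩
  intro l hl z hz
  rcases hl with ⟨ψ, hψ, rfl⟩ | ⟨n, t, ht, rfl⟩
  · rcases List.mem_cons.mp hz with rfl | hz
    · exact ⟨0, by simp⟩
    · obtain ⟨b, hb, rfl⟩ := List.mem_map.mp hz
      cases b
      · exact ⟨0, by simp⟩
      · exact ⟨1, by simp⟩
  · rcases List.mem_append.mp hz with hz | hz
    · rw [List.mem_replicate] at hz
      exact ⟨1, by rw [hz.2]; simp⟩
    · simp only [List.mem_cons, List.not_mem_nil, or_false] at hz
      rcases hz with rfl | rfl | rfl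
      · exact ⟨2, by norm_num⟩
      · exact ⟨t.1, rfl⟩
      · exact ⟨t.2, rfl⟩

end Pool.Agent.RHT
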