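import Pool.Agent.RHT.St

/-!
# RHT, module R1 : one real variable (helper9)
-/

set_option autoImplicit false

open MvPolynomial
open Pool.Agent.RH

namespace Pool.Agent.RHT

/-- the polynomial `f` as a function of the variable `v` -/
noncomputable def R1_q {κ : Type} (a : ℕ → ℕ) (x : Vr → ℝ) (v : Vr)
    (f : MvPolynomial (Vr ⊕ κ) ℚ) (u : κ → ℕ) (t : ℝ) : ℝ :=
  aeval (Sum.elim (Function.update x v t) (fun k => (a (u k) : ℝ))) f

theorem R1_poly {κ : Type} (a : ℕ → ℕ) (x : Vr → ℝ) (v : Vr) (f : MvPolynomial (Vr ⊕ κ) ℚ)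
    (u : κ → ℕ) : ∃ P : Polynomial ℝ, ∀ t, R1_q a x v f u t = P.eval t := by
  unfold R1_q
  induction f using MvPolynomial.induction_on with
  | C r => exact ⟨Polynomial.C (r : ℝ), fun t => by simp⟩
  | add p q hp hq =>
    obtain ⟨P, hP⟩ := hp
    obtain ⟨Q, hQ⟩ := hq
    exact ⟨P + Q, fun t => by rw [map_add, hP, hQ, Polynomial.eval_add]⟩
  | mul_X p i hp =>
    obtain ⟨P, hP⟩ := hp
    cases i with
    | inl v' =>
      by_cases h : v' = v
      · refine ⟨P * Polynomial.X, fun t => ?_⟩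
        rw [map_mul, hP, Polynomial.eval_mul, aeval_X, Polynomial.eval_X, Sum.elim_inl, h,
          Function.update_self]
      · refine ⟨P * Polynomial.C (x v'), fun t => ?_⟩
        rw [map_mul, hP, Polynomial.eval_mul, aeval_X, Polynomial.eval_C, Sum.elim_inl,
          Function.update_of_ne h]
    | inr k =>
      refine ⟨P * Polynomial.C (a (u k) : ℝ), fun t => ?_⟩
      rw [map_mul, hP, Polynomial.eval_mul, aeval_X, Polynomial.eval_C, Sum.elim_inr]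

theorem R1_cont {κ : Type} (a : ℕ → ℕ) (x : Vr → ℝ) (v : Vr) (f : MvPolynomial (Vr ⊕ κ) ℚ)
    (u : κ → ℕ) : Continuous (R1_q a x v f u) := by
  obtain ⟨P, hP⟩ := R1_poly a x v f u
  rw [funext hP]
  exact P.continuous

theorem R1_fin {κ : Type} (a : ℕ → ℕ) (x : Vr → ℝ) (v : Vr) (f : MvPolynomial (Vr ⊕ κ) ℚ)
    (u : κ → ℕ) (h : ¬ ∀ s, R1_q a x v f u s = 0) : {s | R1_q a x v f u s = 0}.Finite := by
  obtain ⟨P, hP⟩ := R1_poly a x v f u
  have hP0 : P ≠ 0 := by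
    intro h0
    apply h
    intro s
    rw [hP, h0, Polynomial.eval_zero]
  refine (P.roots.toFinset.finite_toSet).subset fun s hs => ?_
  have h1 : P.eval s = 0 := by
    rw [← hP]
    exact hs
  simp only [Finset.mem_coe, Multiset.mem_toFinset]
  exact (Polynomial.mem_roots hP0).2 h1

/-- the renaming -/
def R1_rho {κ : Type} (v : Vr) (l : Fin 3) : Vr ⊕ κ → Option (Vr ⊕ (Fin 3 × κ)) :=
  Sum.elim (fun v' => if v' = v then none else some (Sum.inl v')) fun k => some (Sum.inr (l, k))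

theorem R1_F {κ : Type} [Fintype κ] (Ψ : Finset (MvPolynomial (Vr ⊕ κ) ℚ)) (v : Vr) :
    ∃ G : Finset (MvPolynomial (Vr ⊕ (Fin 3 × κ)) ℚ), ∀ (a : ℕ → ℕ) (x x' : Vr → ℝ)
      (W W' : Fin 3 × κ → ℕ),
      (∀ p ∈ G, SignType.sign (aeval (Sum.elim x (fun k => (a (W k) : ℝ))) p) =
        SignType.sign (aeval (Sum.elim x' (fun k => (a (W' k) : ℝ))) p)) →
      ∃ φ : ℝ ≃o ℝ, ∀ f ∈ Ψ, ∀ (l : Fin 3) (t : ℝ),
        SignType.sign (R1_q a x v f (fun k => W (l, k)) t) =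
          SignType.sign (R1_q a x' v f (fun k => W' (l, k)) (φ t)) := by
  classical
  obtain ⟨G, hG⟩ := Pool.Agent.PWQ.exists_fibre
    ((Ψ ×ˢ (Finset.univ : Finset (Fin 3))).image fun c => rename (R1_rho v c.2) c.1)
  refine ⟨G, fun a x x' W W' h => ?_⟩
  obtain ⟨φ, hφ⟩ := hG _ _ h
  refine ⟨φ, fun f hf l t => ?_⟩
  have h1 := hφ (rename (R1_rho v l) f)
    (Finset.mem_image.2 ⟨(f, l), Finset.mem_product.2 ⟨hf, Finset.mem_univ _⟩, rfl⟩) t
  have h2 : ∀ (y : Vr → ℝ) (Z : Fin 3 × κ → ℕ) (s : ℝ),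
      aeval (Pool.Agent.PWD.pt s (Sum.elim y fun k => (a (Z k) : ℝ))) (rename (R1_rho v l) f) =
        R1_q a y v f (fun k => Z (l, k)) s := by
    intro y Z s
    rw [aeval_rename]
    unfold R1_q
    congr 2
    funext i
    cases i with
    | inl v' =>
      by_cases hv : v' = v
      · subst hv
        simp [R1_rho, Pool.Agent.PWD.pt]
      · simp [R1_rho, Pool.Agent.PWD.pt, hv]
    | inr k => simp [R1_rho, Pool.Agent.PWD.pt]
  rw [h2, h2] at h1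
  exact h1

theorem R1_Z (φ₀ φ₁ : ℝ ≃o ℝ) (q q' : ℝ → ℝ)
    (h₀ : ∀ s, SignType.sign (q s) = SignType.sign (q' (φ₀ s)))
    (h₁ : ∀ s, SignType.sign (q s) = SignType.sign (q' (φ₁ s)))
    (hf : {s | q s = 0}.Finite) (s : ℝ) (hs : q s = 0) : φ₀ s = φ₁ s := by
  have key : ∀ φ ψ : ℝ ≃o ℝ, (∀ s, SignType.sign (q s) = SignType.sign (q' (φ s))) →
      (∀ s, SignType.sign (q s) = SignType.sign (q' (ψ s))) → ¬ ψ s < φ s := by
    intro φ ψ hφ hψ hlt
    let θ : ℝ → ℝ := fun r => ψ.symm (φ r)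
    have hθ : StrictMono θ := ψ.symm.strictMono.comp φ.strictMono
    have hz : ∀ r, q r = 0 → q (θ r) = 0 := by
      intro r hr
      have e1 := hφ r
      have e2 := hψ (θ r)
      have e3 : ψ (θ r) = φ r := ψ.apply_symm_apply _
      rw [e3, ← e1, hr, sign_zero] at e2
      exact sign_eq_zero_iff.1 e2
    have h1 : s < θ s := by
      have := ψ.symm.strictMono hlt
      rwa [ψ.symm_apply_apply] at this
    have h2 := hθ.strictMono_iterate_of_lt_map h1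
    have h3 : ∀ n : ℕ, q (θ^[n] s) = 0 := by
      intro n
      induction n with
      | zero => exact hs
      | succ n ih =>
        rw [Function.iterate_succ_apply']
        exact hz _ ih
    exact (Set.infinite_of_injective_forall_mem h2.injective h3) hf
  exact le_antisymm (not_lt.1 (key φ₀ φ₁ h₀ h₁)) (not_lt.1 (key φ₁ φ₀ h₁ h₀))

theorem R1_ivt (g : ℝ → ℝ) (hg : Continuous g) (c d : ℝ) (h : ∀ s ∈ Set.uIcc c d, g s ≠ 0) :
    SignType.sign (g c) = SignType.sign (g d) := by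
  by_contra hne
  have h1 : (0 : ℝ) ∈ Set.uIcc (g c) (g d) := by
    rw [Set.mem_uIcc]
    have hc := h c Set.left_mem_uIcc
    have hd := h d Set.right_mem_uIcc
    rcases lt_or_gt_of_ne hc with hc | hc <;> rcases lt_or_gt_of_ne hd with hd | hd
    · exact absurd (by rw [sign_neg hc, sign_neg hd]) hne
    · exact Or.inl ⟨hc.le, hd.le⟩
    · exact Or.inr ⟨hd.le, hc.le⟩
    · exact absurd (by rw [sign_pos hc, sign_pos hd]) hne
  obtain ⟨s, hs, h0⟩ := intermediate_value_uIcc hg.continuousOn h1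
  exact h s hs h0

/-- the joint tuple -/
def R1_W {κ : Type} (w : Fin 2 × κ → ℕ) (u : κ → ℕ) (p : Fin 3 × κ) : ℕ :=
  if h : p.1.val < 2 then w (⟨p.1.val, h⟩, p.2) else u p.2

theorem R1_OT {κ : Type} (D : Set (ℕ × ℕ)) (w w' : Fin 2 × κ → ℕ) (u u' : κ → ℕ)
    (h1 : OT D w w') (h2 : OT (D ∪ grf w w') u u') : OT D (R1_W w u) (R1_W w' u') := by
  have hg : ∀ k, (w k, w' k) ∈ D ∪ grf w w' := fun k => Or.inr ⟨k, rfl⟩
  refine ⟨fun k d hd => ?_, fun k l => ?_⟩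
  · unfold R1_W
    by_cases hk : k.1.val < 2
    · rw [dif_pos hk, dif_pos hk]
      exact h1.1 _ d hd
    · rw [dif_neg hk, dif_neg hk]
      exact h2.1 _ d (Or.inl hd)
  · unfold R1_W
    by_cases hk : k.1.val < 2 <;> by_cases hl : l.1.val < 2
    · rw [dif_pos hk, dif_pos hk, dif_pos hl, dif_pos hl]
      exact h1.2 _ _
    · rw [dif_pos hk, dif_pos hk, dif_neg hl, dif_neg hl]
      exact (h2.1 l.2 _ (hg _)).2
    · rw [dif_neg hk, dif_neg hk, dif_pos hl, dif_pos hl]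
      exact (h2.1 k.2 _ (hg _)).1
    · rw [dif_neg hk, dif_neg hk, dif_neg hl, dif_neg hl]
      exact h2.2 _ _

theorem R1_self {κ : Type} (D : Set (ℕ × ℕ)) (w w' : Fin 2 × κ → ℕ) (h1 : OT D w w') (i : Fin 2) :
    OT (D ∪ grf w w') (fun k => w (i, k)) (fun k => w' (i, k)) := by
  refine ⟨fun k d hd => ?_, fun k l => h1.2 _ _⟩
  rcases hd with hd | ⟨p, rfl⟩
  · exact h1.1 _ d hd
  · exact ⟨h1.2 _ _, h1.2 _ _⟩

/-- the picks: two tuples which carry the neighbouring roots -/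
theorem R1_pick {κ : Type} [Fintype κ] (Ψ : Finset (MvPolynomial (Vr ⊕ κ) ℚ)) (a : ℕ → ℕ) (N : ℕ)
    (x : Vr → ℝ) (v : Vr) (t : ℝ) (hN : 0 < N) :
    ∃ w : Fin 2 × κ → ℕ, (∀ k, w k < N) ∧
      ∀ (f : MvPolynomial (Vr ⊕ κ) ℚ) (u : κ → ℕ) (r : ℝ), f ∈ Ψ → (∀ k, u k < N) →
        R1_q a x v f u r = 0 → (¬ ∀ s, R1_q a x v f u s = 0) →
        ∃ (i : Fin 2) (f₁ : MvPolynomial (Vr ⊕ κ) ℚ) (r₁ : ℝ), f₁ ∈ Ψ ∧
          R1_q a x v f₁ (fun k => w (i, k)) r₁ = 0 ∧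
          (¬ ∀ s, R1_q a x v f₁ (fun k => w (i, k)) s = 0) ∧
          ((r ≤ t → r ≤ r₁ ∧ r₁ ≤ t) ∧ (t < r → t < r₁ ∧ r₁ ≤ r)) := by
  classical
  -- the roots
  let Rt : Set ℝ := {r | ∃ f ∈ Ψ, ∃ u : κ → ℕ, (∀ k, u k < N) ∧ R1_q a x v f u r = 0 ∧
    ¬ ∀ s, R1_q a x v f u s = 0}
  have hfin : Rt.Finite := by
    have hU : {u : κ → ℕ | ∀ k, u k < N}.Finite :=
      Set.Finite.pi' (ι := κ) (t := fun _ => {n : ℕ | n < N}) fun _ => Set.finite_lt_nat N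
    have : Rt ⊆ ⋃ f ∈ Ψ, ⋃ u ∈ {u : κ → ℕ | ∀ k, u k < N},
        {r | R1_q a x v f u r = 0 ∧ ¬ ∀ s, R1_q a x v f u s = 0} := by
      rintro r ⟨f, hf, u, hu, h1, h2⟩
      simp only [Set.mem_iUnion]
      exact ⟨f, hf, u, hu, h1, h2⟩
    refine Set.Finite.subset ?_ this
    refine Set.Finite.biUnion Ψ.finite_toSet fun f _ => Set.Finite.biUnion hU fun u _ => ?_
    by_cases h : ∀ s, R1_q a x v f u s = 0
    · convert Set.finite_empty (α := ℝ)
      ext r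
      simp [h]
    · exact (R1_fin a x v f u h).subset fun r hr => hr.1
  -- below
  have hlow : ∃ w : κ → ℕ, (∀ k, w k < N) ∧ ∀ r ∈ Rt, r ≤ t → ∃ f₁ ∈ Ψ, ∃ r₁,
      R1_q a x v f₁ w r₁ = 0 ∧ (¬ ∀ s, R1_q a x v f₁ w s = 0) ∧ r ≤ r₁ ∧ r₁ ≤ t := by
    by_cases hne : ({r | r ∈ Rt ∧ r ≤ t} : Set ℝ).Nonempty
    · obtain ⟨r₁, hr₁, hmax⟩ := Set.exists_max_image _ id (hfin.subset fun r hr => hr.1) hne
      obtain ⟨⟨f₁, hf₁, w, hw, h1, h2⟩, h3⟩ := hr₁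
      exact ⟨w, hw, fun r hr hrt => ⟨f₁, hf₁, r₁, h1, h2, hmax r ⟨hr, hrt⟩, h3⟩⟩
    · exact ⟨fun _ => 0, fun _ => hN, fun r hr hrt => absurd ⟨r, hr, hrt⟩ hne⟩
  -- above
  have hupp : ∃ w : κ → ℕ, (∀ k, w k < N) ∧ ∀ r ∈ Rt, t < r → ∃ f₁ ∈ Ψ, ∃ r₁,
      R1_q a x v f₁ w r₁ = 0 ∧ (¬ ∀ s, R1_q a x v f₁ w s = 0) ∧ t < r₁ ∧ r₁ ≤ r := by
    by_cases hne : ({r | r ∈ Rt ∧ t < r} : Set ℝ).Nonempty
    · obtain ⟨r₁, hr₁, hmin⟩ := Set.exists_min_image _ id (hfin.subset fun r hr => hr.1) hne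
      obtain ⟨⟨f₁, hf₁, w, hw, h1, h2⟩, h3⟩ := hr₁
      exact ⟨w, hw, fun r hr hrt => ⟨f₁, hf₁, r₁, h1, h2, h3, hmin r ⟨hr, hrt⟩⟩⟩
    · exact ⟨fun _ => 0, fun _ => hN, fun r hr hrt => absurd ⟨r, hr, hrt⟩ hne⟩
  obtain ⟨w₁, hw₁, hl⟩ := hlow
  obtain ⟨w₂, hw₂, hu⟩ := hupp
  refine ⟨fun p => if p.1 = 0 then w₁ p.2 else w₂ p.2, fun p => ?_, ?_⟩
  · by_cases h : p.1 = 0
    · simp only [h, if_true]
      exact hw₁ _
    · simp only [h, if_false]
      exact hw₂ _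
  · intro f u r hf hub h0 hn0
    have hr : r ∈ Rt := ⟨f, hf, u, hub, h0, hn0⟩
    rcases le_or_gt r t with hrt | hrt
    · obtain ⟨f₁, hf₁, r₁, h1, h2, h3, h4⟩ := hl r hr hrt
      exact ⟨0, f₁, r₁, hf₁, h1, h2, fun _ => ⟨h3, h4⟩, fun h => absurd hrt (not_le.2 h)⟩
    · obtain ⟨f₁, hf₁, r₁, h1, h2, h3, h4⟩ := hu r hr hrt
      exact ⟨1, f₁, r₁, hf₁, h1, h2, fun h => absurd h (not_le.2 hrt), fun _ => ⟨h3, h4⟩⟩

theorem R1 : St_R1 := by
  intro κ _ Ψ v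
  obtain ⟨G, hG⟩ := R1_F Ψ v
  refine ⟨G, fun a N x t hN => ?_⟩
  obtain ⟨w, hw, hpick⟩ := R1_pick Ψ a N x v t hN
  refine ⟨w, hw, fun N' D x' w' hw' hRR hOT => ?_⟩
  -- order isomorphisms for test pairs
  have hF : ∀ u u' : κ → ℕ, (∀ k, u k < N) → (∀ k, u' k < N') → OT (D ∪ grf w w') u u' →
      ∃ φ : ℝ ≃o ℝ, (∀ f ∈ Ψ, ∀ (i : Fin 2) (s : ℝ),
        SignType.sign (R1_q a x v f (fun k => w (i, k)) s) =
          SignType.sign (R1_q a x' v f (fun k => w' (i, k)) (φ s))) ∧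
        ∀ f ∈ Ψ, ∀ s : ℝ, SignType.sign (R1_q a x v f u s) =
          SignType.sign (R1_q a x' v f u' (φ s)) := by
    intro u u' hu hu' hO
    obtain ⟨φ, hφ⟩ := hG a x x' (R1_W w u) (R1_W w' u') (fun p hp => by
      refine hRR p hp _ _ (fun k => ?_) (fun k => ?_) (R1_OT D w w' u u' hOT hO)
      · unfold R1_W
        split_ifs
        · exact hw _
        · exact hu _
      · unfold R1_W
        split_ifs
        · exact hw' _
        · exact hu' _)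
    refine ⟨φ, fun f hf i s => ?_, fun f hf s => ?_⟩
    · have h1 := hφ f hf ⟨i.val, by omega⟩ s
      have e : ∀ (z : Fin 2 × κ → ℕ) (y : κ → ℕ),
          (fun k => R1_W z y ((⟨i.val, by omega⟩ : Fin 3), k)) = fun k => z (i, k) := by
        intro z y
        funext k
        unfold R1_W
        rw [dif_pos i.isLt]
      rw [e, e] at h1
      exact h1
    · have h1 := hφ f hf 2 s
      have e : ∀ (z : Fin 2 × κ → ℕ) (y : κ → ℕ), (fun k => R1_W z y ((2 : Fin 3), k)) = y := by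
        intro z y
        funext k
        unfold R1_W
        rw [dif_neg (by simp)]
      rw [e, e] at h1
      exact h1
  obtain ⟨φ₀, h₀, -⟩ := hF _ _ (fun k => hw (0, k)) (fun k => hw' (0, k)) (R1_self D w w' hOT 0)
  refine ⟨φ₀ t, fun f hf u u' hu hu' hO => ?_⟩
  obtain ⟨φ, h₁, h₂⟩ := hF u u' hu hu' hO
  -- the two isomorphisms agree at the picked roots
  have hag : ∀ (i : Fin 2), ∀ f₁ ∈ Ψ, ∀ r₁ : ℝ, R1_q a x v f₁ (fun k => w (i, k)) r₁ = 0 →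
      (¬ ∀ s, R1_q a x v f₁ (fun k => w (i, k)) s = 0) → φ₀ r₁ = φ r₁ := by
    intro i f₁ hf₁ r₁ hz hn
    exact R1_Z φ₀ φ _ _ (fun s => h₀ f₁ hf₁ i s) (fun s => h₁ f₁ hf₁ i s) (R1_fin _ _ _ _ _ hn) r₁ hz
  change SignType.sign (R1_q a x v f u t) = SignType.sign (R1_q a x' v f u' (φ₀ t))
  rw [h₂ f hf t]
  by_cases hid : ∀ s, R1_q a x v f u s = 0
  · have hz : ∀ s, R1_q a x' v f u' s = 0 := by
      intro s
      have := h₂ f hf (φ.symm s)
      rw [hid, sign_zero, φ.apply_symm_apply] at this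
      exact sign_eq_zero_iff.1 this.symm
    rw [hz, hz]
  -- zeros of the new function lie outside of the segment, or the two points are equal
  by_cases heq : φ t = φ₀ t
  · rw [heq]
  refine R1_ivt _ (R1_cont a x' v f u') _ _ fun s hs hs0 => ?_
  have hr0 : R1_q a x v f u (φ.symm s) = 0 := by
    have := h₂ f hf (φ.symm s)
    rw [φ.apply_symm_apply, hs0, sign_zero] at this
    exact sign_eq_zero_iff.1 this
  obtain ⟨i, f₁, r₁, hf₁, hz, hn, hlo, hup⟩ := hpick f u (φ.symm s) hf hu hr0 hid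
  have hr₁ := hag i f₁ hf₁ r₁ hz hn
  have hsφ : φ (φ.symm s) = s := φ.apply_symm_apply s
  rcases le_or_gt (φ.symm s) t with hle | hlt
  · obtain ⟨h3, h4⟩ := hlo hle
    rcases eq_or_lt_of_le h4 with h5 | h5
    · exact heq (by rw [← h5, hr₁])
    · have h6 : s ≤ φ r₁ := by
        rw [← hsφ]
        exact φ.monotone h3
      have h7 : φ r₁ < φ t := φ.strictMono h5
      have h8 : φ r₁ < φ₀ t := by
        rw [← hr₁]
        exact φ₀.strictMono h5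
      rcases Set.mem_uIcc.1 hs with h9 | h9
      · linarith [h9.1]
      · linarith [h9.1]
  · obtain ⟨h3, h4⟩ := hup hlt
    have h6 : φ r₁ ≤ s := by
      rw [← hsφ]
      exact φ.monotone h4
    have h7 : φ t < φ r₁ := φ.strictMono h3
    have h8 : φ₀ t < φ r₁ := by
      rw [← hr₁]
      exact φ₀.strictMono h3
    rcases Set.mem_uIcc.1 hs with h9 | h9
    · linarith [h9.2]
    · linarith [h9.2]

end Pool.Agent.RHT
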