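import Pool.Agent.RHT.St2
import Pool.Agent.RHT.R1

/-!
# RHT, module P1 : one real variable, with pinned elements (helper72, after R1 by helper9)
-/

set_option autoImplicit false

open MvPolynomial
open Pool.Agent.RH

namespace Pool.Agent.RHT

/-- the renaming -/
def P1_rho {π κ : Type} (v : Vr) (l : Fin 3) :
    Vr ⊕ (π ⊕ κ) → Option (Vr ⊕ ((π ⊕ (Fin 2 × κ)) ⊕ κ)) :=
  Sum.elim (fun v' => if v' = v then none else some (Sum.inl v'))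
    (Sum.elim (fun k => some (Sum.inr (Sum.inl (Sum.inl k))))
      (fun k => if h : l.val < 2 then some (Sum.inr (Sum.inl (Sum.inr (⟨l.val, h⟩, k))))
        else some (Sum.inr (Sum.inr k))))

/-- the tuple number `l` of a joint tuple -/
def P1_sel {π κ : Type} (l : Fin 3) (Z : (π ⊕ (Fin 2 × κ)) ⊕ κ → ℕ) : π ⊕ κ → ℕ :=
  Sum.elim (fun k => Z (Sum.inl (Sum.inl k)))
    (fun k => if h : l.val < 2 then Z (Sum.inl (Sum.inr (⟨l.val, h⟩, k))) else Z (Sum.inr k))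

theorem P1_sel_lt {π κ : Type} (z : π → ℕ) (w : Fin 2 × κ → ℕ) (u : κ → ℕ) (i : Fin 2)
    (h : i.val < 3) :
    P1_sel ⟨i.val, h⟩ (Sum.elim (Sum.elim z w) u) = Sum.elim z (fun k => w (i, k)) := by
  funext j
  cases j with
  | inl k => rfl
  | inr k =>
    have hi : ((⟨i.val, h⟩ : Fin 3).val < 2) := i.isLt
    show (if h : ((⟨i.val, h⟩ : Fin 3).val < 2) then
      Sum.elim (Sum.elim z w) u (Sum.inl (Sum.inr (⟨(⟨i.val, _⟩ : Fin 3).val, h⟩, k))) else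
      Sum.elim (Sum.elim z w) u (Sum.inr k)) = w (i, k)
    rw [dif_pos hi]
    rfl

theorem P1_sel_two {π κ : Type} (z : π → ℕ) (w : Fin 2 × κ → ℕ) (u : κ → ℕ) :
    P1_sel 2 (Sum.elim (Sum.elim z w) u) = Sum.elim z u := by
  funext j
  cases j with
  | inl k => rfl
  | inr k =>
    have hi : ¬ ((2 : Fin 3).val < 2) := by decide
    show (if h : ((2 : Fin 3).val < 2) then
      Sum.elim (Sum.elim z w) u (Sum.inl (Sum.inr (⟨(2 : Fin 3).val, h⟩, k))) else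
      Sum.elim (Sum.elim z w) u (Sum.inr k)) = u k
    rw [dif_neg hi]
    rfl

theorem P1_F {π κ : Type} [Fintype κ] (Ψ : Finset (MvPolynomial (Vr ⊕ (π ⊕ κ)) ℚ)) (v : Vr) :
    ∃ G : Finset (MvPolynomial (Vr ⊕ ((π ⊕ (Fin 2 × κ)) ⊕ κ)) ℚ), ∀ (a : ℕ → ℕ) (x x' : Vr → ℝ)
      (W W' : (π ⊕ (Fin 2 × κ)) ⊕ κ → ℕ),
      (∀ p ∈ G, SignType.sign (aeval (Sum.elim x (fun k => (a (W k) : ℝ))) p) =
        SignType.sign (aeval (Sum.elim x' (fun k => (a (W' k) : ℝ))) p)) →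
      ∃ φ : ℝ ≃o ℝ, ∀ f ∈ Ψ, ∀ (l : Fin 3) (t : ℝ),
        SignType.sign (R1_q a x v f (P1_sel l W) t) =
          SignType.sign (R1_q a x' v f (P1_sel l W') (φ t)) := by
  classical
  obtain ⟨G, hG⟩ := Pool.Agent.PWQ.exists_fibre
    ((Ψ ×ˢ (Finset.univ : Finset (Fin 3))).image fun c => rename (P1_rho v c.2) c.1)
  refine ⟨G, fun a x x' W W' h => ?_⟩
  obtain ⟨φ, hφ⟩ := hG _ _ h
  refine ⟨φ, fun f hf l t => ?_⟩
  have h1 := hφ (rename (P1_rho v l) f)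
    (Finset.mem_image.2 ⟨(f, l), Finset.mem_product.2 ⟨hf, Finset.mem_univ _⟩, rfl⟩) t
  have h2 : ∀ (y : Vr → ℝ) (Z : (π ⊕ (Fin 2 × κ)) ⊕ κ → ℕ) (s : ℝ),
      aeval (Pool.Agent.PWD.pt s (Sum.elim y fun k => (a (Z k) : ℝ))) (rename (P1_rho v l) f) =
        R1_q a y v f (P1_sel l Z) s := by
    intro y Z s
    rw [aeval_rename]
    unfold R1_q
    congr 2
    funext i
    cases i with
    | inl v' =>
      by_cases hv : v' = v
      · subst hv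
        simp [P1_rho, Pool.Agent.PWD.pt]
      · simp [P1_rho, Pool.Agent.PWD.pt, hv]
    | inr j =>
      cases j with
      | inl k => simp [P1_rho, P1_sel, Pool.Agent.PWD.pt]
      | inr k =>
        by_cases hl : l.val < 2
        · simp [P1_rho, P1_sel, Pool.Agent.PWD.pt, hl]
        · simp [P1_rho, P1_sel, Pool.Agent.PWD.pt, hl]
  rw [h2, h2] at h1
  exact h1

/-- the picks: two tuples which carry the neighbouring roots -/
theorem P1_pick {π κ : Type} [Fintype κ] (Ψ : Finset (MvPolynomial (Vr ⊕ (π ⊕ κ)) ℚ)) (a : ℕ → ℕ)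
    (N : ℕ) (z : π → ℕ) (x : Vr → ℝ) (v : Vr) (t : ℝ) (hN : 0 < N) :
    ∃ w : Fin 2 × κ → ℕ, (∀ k, w k < N) ∧
      ∀ (f : MvPolynomial (Vr ⊕ (π ⊕ κ)) ℚ) (u : κ → ℕ) (r : ℝ), f ∈ Ψ → (∀ k, u k < N) →
        R1_q a x v f (Sum.elim z u) r = 0 → (¬ ∀ s, R1_q a x v f (Sum.elim z u) s = 0) →
        ∃ (i : Fin 2) (f₁ : MvPolynomial (Vr ⊕ (π ⊕ κ)) ℚ) (r₁ : ℝ), f₁ ∈ Ψ ∧
          R1_q a x v f₁ (Sum.elim z (fun k => w (i, k))) r₁ = 0 ∧
          (¬ ∀ s, R1_q a x v f₁ (Sum.elim z (fun k => w (i, k))) s = 0) ∧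
          ((r ≤ t → r ≤ r₁ ∧ r₁ ≤ t) ∧ (t < r → t < r₁ ∧ r₁ ≤ r)) := by
  classical
  -- the roots
  let Rt : Set ℝ := {r | ∃ f ∈ Ψ, ∃ u : κ → ℕ, (∀ k, u k < N) ∧
    R1_q a x v f (Sum.elim z u) r = 0 ∧ ¬ ∀ s, R1_q a x v f (Sum.elim z u) s = 0}
  have hfin : Rt.Finite := by
    have hU : {u : κ → ℕ | ∀ k, u k < N}.Finite :=
      Set.Finite.pi' (ι := κ) (t := fun _ => {n : ℕ | n < N}) fun _ => Set.finite_lt_nat N
    have : Rt ⊆ ⋃ f ∈ Ψ, ⋃ u ∈ {u : κ → ℕ | ∀ k, u k < N},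
        {r | R1_q a x v f (Sum.elim z u) r = 0 ∧
          ¬ ∀ s, R1_q a x v f (Sum.elim z u) s = 0} := by
      rintro r ⟨f, hf, u, hu, h1, h2⟩
      simp only [Set.mem_iUnion]
      exact ⟨f, hf, u, hu, h1, h2⟩
    refine Set.Finite.subset ?_ this
    refine Set.Finite.biUnion Ψ.finite_toSet fun f _ => Set.Finite.biUnion hU fun u _ => ?_
    by_cases h : ∀ s, R1_q a x v f (Sum.elim z u) s = 0
    · have he : {r | R1_q a x v f (Sum.elim z u) r = 0 ∧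
          ¬ ∀ s, R1_q a x v f (Sum.elim z u) s = 0} = ∅ := by
        ext r
        simp [h]
      rw [he]
      exact Set.finite_empty
    · exact (R1_fin a x v f (Sum.elim z u) h).subset fun r hr => hr.1
  -- below
  have hlow : ∃ w : κ → ℕ, (∀ k, w k < N) ∧ ∀ r ∈ Rt, r ≤ t → ∃ f₁ ∈ Ψ, ∃ r₁,
      R1_q a x v f₁ (Sum.elim z w) r₁ = 0 ∧ (¬ ∀ s, R1_q a x v f₁ (Sum.elim z w) s = 0) ∧
        r ≤ r₁ ∧ r₁ ≤ t := by
    by_cases hne : ({r | r ∈ Rt ∧ r ≤ t} : Set ℝ).Nonempty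
    · obtain ⟨r₁, hr₁, hmax⟩ := Set.exists_max_image _ id (hfin.subset fun r hr => hr.1) hne
      obtain ⟨⟨f₁, hf₁, w, hw, h1, h2⟩, h3⟩ := hr₁
      exact ⟨w, hw, fun r hr hrt => ⟨f₁, hf₁, r₁, h1, h2, hmax r ⟨hr, hrt⟩, h3⟩⟩
    · exact ⟨fun _ => 0, fun _ => hN, fun r hr hrt => absurd ⟨r, hr, hrt⟩ hne⟩
  -- above
  have hupp : ∃ w : κ → ℕ, (∀ k, w k < N) ∧ ∀ r ∈ Rt, t < r → ∃ f₁ ∈ Ψ, ∃ r₁,
      R1_q a x v f₁ (Sum.elim z w) r₁ = 0 ∧ (¬ ∀ s, R1_q a x v f₁ (Sum.elim z w) s = 0) ∧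
        t < r₁ ∧ r₁ ≤ r := by
    by_cases hne : ({r | r ∈ Rt ∧ t < r} : Set ℝ).Nonempty
    · obtain ⟨r₁, hr₁, hmin⟩ := Set.exists_min_image _ id (hfin.subset fun r hr => hr.1) hne
      obtain ⟨⟨f₁, hf₁, w, hw, h1, h2⟩, h3⟩ := hr₁
      exact ⟨w, hw, fun r hr hrt => ⟨f₁, hf₁, r₁, h1, h2, h3, hmin r ⟨hr, hrt⟩⟩⟩
    · exact ⟨fun _ => 0, fun _ => hN, fun r hr hrt => absurd ⟨r, hr, hrt⟩ hne⟩
  obtain ⟨w₁, hw₁, hl⟩ := hlow
  obtain ⟨w₂, hw₂, hu⟩ := hupp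
  refine ⟨fun p => if p.1 = 0 then w₁ p.2 else w₂ p.2, fun p => ?_, ?_⟩
  · by_cases h : p.1 = 0
    · simp only [h, if_true]
      exact hw₁ _
    · simp only [h, if_false]
      exact hw₂ _
  · intro f u r hf hub h0 hn0
    have hr : r ∈ Rt := ⟨f, hf, u, hub, h0, hn0⟩
    rcases le_or_gt r t with hrt | hrt
    · obtain ⟨f₁, hf₁, r₁, h1, h2, h3, h4⟩ := hl r hr hrt
      exact ⟨0, f₁, r₁, hf₁, h1, h2, fun _ => ⟨h3, h4⟩, fun h => absurd hrt (not_le.2 h)⟩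
    · obtain ⟨f₁, hf₁, r₁, h1, h2, h3, h4⟩ := hu r hr hrt
      exact ⟨1, f₁, r₁, hf₁, h1, h2, fun h => absurd h (not_le.2 hrt), fun _ => ⟨h3, h4⟩⟩

/-- the halves of the picks are test pairs -/
theorem P1_self {κ : Type} (D : Set (ℕ × ℕ)) (hD : Od D) (w w' : Fin 2 × κ → ℕ)
    (h1 : grf w w' ⊆ D) (i : Fin 2) : OT D (fun k => w (i, k)) (fun k => w' (i, k)) := by
  have hm : ∀ k, (w (i, k), w' (i, k)) ∈ D := fun k => h1 ⟨(i, k), rfl⟩
  exact ⟨fun k d hd => ⟨hD _ (hm k) d hd, hD d hd _ (hm k)⟩, fun k l => hD _ (hm k) _ (hm l)⟩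

theorem P1 : St_P1 := by
  intro π κ _ Ψ v
  obtain ⟨G, hG⟩ := P1_F Ψ v
  refine ⟨G, fun a N z x t hN => ?_⟩
  obtain ⟨w, hw, hpick⟩ := P1_pick Ψ a N z x v t hN
  refine ⟨w, hw, fun N' D x' z' w' hw' hOd hgrf hRP => ?_⟩
  -- order isomorphisms for test pairs
  have hF : ∀ u u' : κ → ℕ, (∀ k, u k < N) → (∀ k, u' k < N') → OT D u u' →
      ∃ φ : ℝ ≃o ℝ, (∀ f ∈ Ψ, ∀ (i : Fin 2) (s : ℝ),
        SignType.sign (R1_q a x v f (Sum.elim z (fun k => w (i, k))) s) =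
          SignType.sign (R1_q a x' v f (Sum.elim z' (fun k => w' (i, k))) (φ s))) ∧
        ∀ f ∈ Ψ, ∀ s : ℝ, SignType.sign (R1_q a x v f (Sum.elim z u) s) =
          SignType.sign (R1_q a x' v f (Sum.elim z' u') (φ s)) := by
    intro u u' hu hu' hO
    obtain ⟨φ, hφ⟩ := hG a x x' (Sum.elim (Sum.elim z w) u) (Sum.elim (Sum.elim z' w') u')
      (fun p hp => hRP p hp u u' hu hu' hO)
    refine ⟨φ, fun f hf i s => ?_, fun f hf s => ?_⟩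
    · have h1 := hφ f hf ⟨i.val, by omega⟩ s
      rw [P1_sel_lt, P1_sel_lt] at h1
      exact h1
    · have h1 := hφ f hf 2 s
      rw [P1_sel_two, P1_sel_two] at h1
      exact h1
  obtain ⟨φ₀, h₀, -⟩ := hF _ _ (fun k => hw (0, k)) (fun k => hw' (0, k))
    (P1_self D hOd w w' hgrf 0)
  refine ⟨φ₀ t, fun f hf u u' hu hu' hO => ?_⟩
  obtain ⟨φ, h₁, h₂⟩ := hF u u' hu hu' hO
  -- the two isomorphisms agree at the picked roots
  have hag : ∀ (i : Fin 2), ∀ f₁ ∈ Ψ, ∀ r₁ : ℝ,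
      R1_q a x v f₁ (Sum.elim z (fun k => w (i, k))) r₁ = 0 →
      (¬ ∀ s, R1_q a x v f₁ (Sum.elim z (fun k => w (i, k))) s = 0) → φ₀ r₁ = φ r₁ := by
    intro i f₁ hf₁ r₁ hz hn
    exact R1_Z φ₀ φ _ _ (fun s => h₀ f₁ hf₁ i s) (fun s => h₁ f₁ hf₁ i s) (R1_fin _ _ _ _ _ hn) r₁ hz
  change SignType.sign (R1_q a x v f (Sum.elim z u) t) =
    SignType.sign (R1_q a x' v f (Sum.elim z' u') (φ₀ t))
  rw [h₂ f hf t]
  by_cases hid : ∀ s, R1_q a x v f (Sum.elim z u) s = 0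
  · have hz : ∀ s, R1_q a x' v f (Sum.elim z' u') s = 0 := by
      intro s
      have := h₂ f hf (φ.symm s)
      rw [hid, sign_zero, φ.apply_symm_apply] at this
      exact sign_eq_zero_iff.1 this.symm
    rw [hz, hz]
  -- zeros of the new function lie outside of the segment, or the two points are equal
  by_cases heq : φ t = φ₀ t
  · rw [heq]
  refine R1_ivt _ (R1_cont a x' v f (Sum.elim z' u')) _ _ fun s hs hs0 => ?_
  have hr0 : R1_q a x v f (Sum.elim z u) (φ.symm s) = 0 := by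
    have := h₂ f hf (φ.symm s)
    rw [φ.apply_symm_apply, hs0, sign_zero] at this
    exact sign_eq_zero_iff.1 this
  obtain ⟨i, f₁, r₁, hf₁, hz, hn, hlo, hup⟩ := hpick f u (φ.symm s) hf hu hr0 hid
  have hr₁ := hag i f₁ hf₁ r₁ hz hn
  have hsφ : φ (φ.symm s) = s := φ.apply_symm_apply s
  rcases le_or_gt (φ.symm s) t with hle | hlt
  · obtain ⟨h3, h4⟩ := hlo hle
    rcases eq_or_lt_of_le h4 with h5 | h5
    · exact heq (by rw [← h5, hr₁])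
    · have h6 : s ≤ φ r₁ := by
        rw [← hsφ]
        exact φ.monotone h3
      have h7 : φ r₁ < φ t := φ.strictMono h5
      have h8 : φ r₁ < φ₀ t := by
        rw [← hr₁]
        exact φ₀.strictMono h5
      rcases Set.mem_uIcc.1 hs with h9 | h9
      · linarith [h9.1]
      · linarith [h9.1]
  · obtain ⟨h3, h4⟩ := hup hlt
    have h6 : φ r₁ ≤ s := by
      rw [← hsφ]
      exact φ.monotone h4
    have h7 : φ t < φ r₁ := φ.strictMono h3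
    have h8 : φ₀ t < φ r₁ := by
      rw [← hr₁]
      exact φ₀.strictMono h3
    rcases Set.mem_uIcc.1 hs with h9 | h9
    · linarith [h9.2]
    · linarith [h9.2]

end Pool.Agent.RHT
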