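import Pool.Agent.RHT.St2

/-! MP_f917a3_lc, module P3 (helper12, after R2 of helper82): one block of real variables, with extra
picks, quantitative form. -/

set_option autoImplicit false

open MvPolynomial
open Pool.Agent.RH

namespace Pool.Agent.RHT

open scoped Classical in
/-- the pinned form gives the form without pins -/
private theorem P3_to_RR {κ : Type} (Ψ : Finset (MvPolynomial (Vr ⊕ κ) ℚ)) (a : ℕ → ℕ) (N N' : ℕ)
    (D : Set (ℕ × ℕ)) (z z' : Empty → ℕ) (x x' : Vr → ℝ)
    (h : RP (κ := κ) (Ψ.image (rename (Sum.map id Sum.inr))) a N N' D z z' x x') :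
    RR Ψ a N N' D x x' := by
  classical
  intro f hf w w' hw hw' hO
  have h1 := h _ (Finset.mem_image_of_mem _ hf) w w' hw hw' hO
  rw [aeval_rename, aeval_rename] at h1
  have h2 : ∀ (x : Vr → ℝ) (z : Empty → ℕ) (w : κ → ℕ),
      (Sum.elim x (fun k => (a (Sum.elim z w k) : ℝ))) ∘ Sum.map id Sum.inr =
        Sum.elim x (fun k => (a (w k) : ℝ)) := by
    intro x z w
    funext k
    rcases k with k | k
    · rfl
    · rfl
  rw [h2, h2] at h1
  exact h1

theorem P3 (h2 : St_P2) : St_P3 := by
  classical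
  intro κ _ Ψ s i
  obtain ⟨G₀, hG₀⟩ := h2 s i Empty κ (Ψ.image (rename (Sum.map id Sum.inr)))
  let g : Vr ⊕ ((Empty ⊕ Fin (s * (2 * Fintype.card κ))) ⊕ κ) →
      Vr ⊕ (Fin (s * (2 * Fintype.card κ)) ⊕ κ) :=
    Sum.map id (Sum.elim (Sum.elim (fun e => e.elim) Sum.inl) Sum.inr)
  refine ⟨Fin (s * (2 * Fintype.card κ)) ⊕ κ, inferInstance, G₀.image (rename g), ?_, ?_⟩
  · rw [Fintype.card_sum, Fintype.card_fin]
    ring
  intro a N x y L hL ha hN
  obtain ⟨w₁, hw₁, h⟩ := hG₀ a N (fun e => e.elim) x y hN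
  let w₂ : Fin s → ℕ := fun j =>
    if h : ∃ (hj : (j : ℕ) < L.length) (p : ℕ), p < N ∧
      aeval (upd s i x y) (tp (L[(j : ℕ)]'hj)) = (a p : ℝ) then h.choose_spec.choose else 0
  have hw₂ : ∀ j, w₂ j < N := by
    intro j
    show (if h : ∃ (hj : (j : ℕ) < L.length) (p : ℕ), p < N ∧
      aeval (upd s i x y) (tp (L[(j : ℕ)]'hj)) = (a p : ℝ) then h.choose_spec.choose else 0) < N
    split
    · rename_i h
      exact h.choose_spec.choose_spec.1
    · exact hN
  refine ⟨Fin.append w₁ w₂, ?_, ?_, ?_⟩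
  · intro k
    refine Fin.addCases (fun k => ?_) (fun k => ?_) k
    · rw [Fin.append_left]
      exact hw₁ k
    · rw [Fin.append_right]
      exact hw₂ k
  · intro t ht p hp hv
    obtain ⟨j, hj, rfl⟩ := List.getElem_of_mem ht
    refine ⟨Fin.natAdd _ ⟨j, by omega⟩, ?_⟩
    rw [Fin.append_right]
    have hex : ∃ (hj : j < L.length) (p : ℕ), p < N ∧
        aeval (upd s i x y) (tp (L[j]'hj)) = (a p : ℝ) := ⟨hj, p, hp, hv⟩
    show (if h : ∃ (hj : j < L.length) (p : ℕ), p < N ∧
      aeval (upd s i x y) (tp (L[j]'hj)) = (a p : ℝ) then h.choose_spec.choose else 0) = p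
    rw [dif_pos hex]
    apply ha.injective
    have h3 := hex.choose_spec.choose_spec.2
    have h4 : (a hex.choose_spec.choose : ℝ) = (a p : ℝ) := h3.symm.trans hv
    exact_mod_cast h4
  · intro N' D x' w' hw' hOd hR hO
    set D' : Set (ℕ × ℕ) := D ∪ grf (Fin.append w₁ w₂) w' with hD'
    have hOd' : Od D' := by
      rintro d (hd | ⟨k, rfl⟩) e (he | ⟨l, rfl⟩)
      · exact hOd d hd e he
      · exact (hO.1 l d hd).2
      · exact (hO.1 k e he).1
      · exact hO.2 k l
    let w₁' : Fin (s * (2 * Fintype.card κ)) → ℕ := fun k => w' (Fin.castAdd s k)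
    have hap : ∀ k, Fin.append w₁ w₂ (Fin.castAdd s k) = w₁ k := fun k => Fin.append_left _ _ k
    have hin : ∀ k, (w₁ k, w₁' k) ∈ D' := fun k =>
      Or.inr ⟨Fin.castAdd s k, by
        show (Fin.append w₁ w₂ (Fin.castAdd s k), w' (Fin.castAdd s k)) = (w₁ k, w₁' k)
        rw [hap]⟩
    have hRP : RP G₀ a N N' D' (Sum.elim (fun e : Empty => e.elim) w₁)
        (Sum.elim (fun e : Empty => e.elim) w₁') x x' := by
      intro f hf u u' hu hu' hOu
      have hOT : OT D (Sum.elim w₁ u) (Sum.elim w₁' u') := by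
        refine ⟨?_, ?_⟩
        · rintro (k | k) d hd
          · have h5 := hO.1 (Fin.castAdd s k) d hd
            rw [hap] at h5
            exact h5
          · exact hOu.1 k d (Or.inl hd)
        · rintro (k | k) (l | l)
          · have h5 := hO.2 (Fin.castAdd s k) (Fin.castAdd s l)
            rw [hap, hap] at h5
            exact h5
          · exact (hOu.1 l _ (hin k)).2
          · exact (hOu.1 k _ (hin l)).1
          · exact hOu.2 k l
      have h6 := hR _ (Finset.mem_image_of_mem _ hf) (Sum.elim w₁ u) (Sum.elim w₁' u')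
        (by
          rintro (k | k)
          · exact hw₁ k
          · exact hu k)
        (by
          rintro (k | k)
          · exact hw' _
          · exact hu' k) hOT
      rw [aeval_rename, aeval_rename] at h6
      have h7 : ∀ (x : Vr → ℝ) (w : Fin (s * (2 * Fintype.card κ)) → ℕ) (u : κ → ℕ),
          (Sum.elim x (fun k => (a (Sum.elim w u k) : ℝ))) ∘ g =
            Sum.elim x (fun k => (a (Sum.elim (Sum.elim (fun e : Empty => e.elim) w) u k) : ℝ)) := by
        intro x w u
        funext k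
        rcases k with k | ((k | k) | k)
        · rfl
        · exact k.elim
        · rfl
        · rfl
      rw [h7, h7] at h6
      exact h6
    obtain ⟨y', hy'⟩ := h N' D' x' (fun e => e.elim) w₁' (fun k => hw' _) hOd'
      (by
        rintro d ⟨k, rfl⟩
        exact hin k) hRP
    exact ⟨y', P3_to_RR Ψ a N N' D' _ _ _ _ hy'⟩

end Pool.Agent.RHT
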