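import Pool.Agent.RHT.St2

/-!
# RHT, module T2: transfer of the truth of prenex sentences, with explicit numbers of picks
-/

set_option autoImplicit false

open MvPolynomial
open Pool.Agent.RH

namespace Pool.Agent.RHT

private theorem T2_tr (s i : ℕ) (b : ℕ → ℕ → ℝ) (y : ℕ → ℝ) :
    tr s (Function.update b i y) = upd s i (tr s b) y := by
  funext v
  unfold tr upd
  by_cases h1 : v.1 = i
  · by_cases h2 : v.2 < s
    · rw [if_pos h2, if_pos ⟨h1, h2⟩, h1, Function.update_self]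
    · rw [if_neg h2, if_neg (fun h => h2 h.2)]
      exact (if_neg h2).symm
  · rw [if_neg (fun h : v.1 = i ∧ v.2 < s => h1 h.1), Function.update_of_ne h1]

private theorem T2_OT {κ : Type} {D : Set (ℕ × ℕ)} {w w' : κ → ℕ}
    (h : OT (Prod.swap '' D) w' w) : OT D w w' := by
  refine ⟨fun k d hd => ?_, fun k l => (h.2 k l).symm⟩
  have := h.1 k d.swap (Set.mem_image_of_mem _ hd)
  exact ⟨this.1.symm, this.2.symm⟩

private theorem T2_RR {κ : Type} {Ψ : Finset (MvPolynomial (Vr ⊕ κ) ℚ)} {a : ℕ → ℕ} {N N' : ℕ}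
    {D : Set (ℕ × ℕ)} {x x' : Vr → ℝ} (h : RR Ψ a N N' D x x') :
    RR Ψ a N' N (Prod.swap '' D) x' x :=
  fun f hf w w' hw hw' ho => (h f hf w' w hw' hw (T2_OT ho)).symm

private theorem T2_Cv {L : List Tm} {a : ℕ → ℕ} {N n : ℕ} {x : Vr → ℝ} {D : Set (ℕ × ℕ)}
    {w w' : Fin n → ℕ} (h : Cv L a N x (Set.range w)) :
    Cv L a N x (Prod.snd '' (Prod.swap '' (D ∪ grf w w'))) := by
  intro t ht p hp e
  obtain ⟨k, hk⟩ := h t ht p hp e
  exact ⟨(w' k, w k), ⟨(w k, w' k), Or.inr ⟨k, rfl⟩, rfl⟩, hk⟩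

private theorem T2_lencode (l : List Tm) :
    l.length ≤ (l.flatMap (fun t => true :: t.code)).length := by
  induction l with
  | nil => simp
  | cons a l ih =>
    rw [List.flatMap_cons, List.length_append, List.length_cons, List.length_cons]
    omega

private theorem T2_ots : ∀ ψ : Qf, (ots ψ).length ≤ ψ.code.length := by
  intro ψ
  induction ψ with
  | eq s t => exact Nat.zero_le _
  | lt s t => exact Nat.zero_le _
  | le s t => exact Nat.zero_le _
  | orc l =>
    have h := T2_lencode l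
    simp only [Qf.code, ots, List.length_append, List.length_cons, List.length_nil]
    omega
  | neg φ ih =>
    simp only [Qf.code, ots, List.length_append, List.length_cons, List.length_nil]
    omega
  | and φ ψ ih1 ih2 =>
    simp only [Qf.code, ots, List.length_append, List.length_cons, List.length_nil]
    omega
  | or φ ψ ih1 ih2 =>
    simp only [Qf.code, ots, List.length_append, List.length_cons, List.length_nil]
    omega

theorem T2 : St_L5 → St_P3 → St_F2 → St_T2 := by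
  intro hL5 hP3 hF2 s K h1 h2 k
  obtain ⟨_, _, hL⟩ := hL5
  induction k with
  | zero =>
    intro i
    obtain ⟨Ψ, hΨ⟩ := hF2 s K h1 h2
    refine ⟨Unit, inferInstance, Ψ, by simp, ?_⟩
    intro C _ a n U V D B b b' ha hU hV hB hK hR ψ hψ hC
    have e := hΨ C a n U V D B b b' ha hU hV hB hK hR ψ hψ (hC rfl)
    unfold truth
    exact ⟨e.1, e.2⟩
  | succ k ih =>
    intro i
    obtain ⟨κ₁, _, G₁, hc₁, hG₁⟩ := ih (i + 1)
    obtain ⟨κ', hκ', G, hc', hG⟩ := hP3 κ₁ G₁ s i
    refine ⟨κ', hκ', G, ?_, ?_⟩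
    · rw [hc', hc₁, pow_succ, mul_comm]
    intro C hC a n U V D B b b' ha hU hV hB hK hR ψ hψ _
    have hnum : s * (2 * Fintype.card κ₁) + s ≤ C := by
      rw [hc₁]
      rw [pow_succ] at hC
      have h3 : (2 * s + 1) ^ k * (2 * s + 1) =
          s * (2 * (2 * s + 1) ^ k) + (2 * s + 1) ^ k := by ring
      omega
    have hC1 : (2 * s + 1) ^ k + s ≤ C := by
      refine le_trans ?_ hC
      have h3 : (2 * s + 1) ^ k ≤ (2 * s + 1) ^ (k + 1) :=
        Nat.pow_le_pow_right (by omega) (Nat.le_succ k)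
      omega
    have hL' : (ots ψ).length ≤ s := le_trans (T2_ots ψ) hψ
    have core : ∀ y : ℕ → ℝ, ∃ (y' : ℕ → ℝ) (D₁ : Set (ℕ × ℕ)), KK (Rl C k) V U D₁ ∧
        RR G₁ a (V.length + 2) (U.length + 2) D₁ (tr s (Function.update b' i y'))
          (tr s (Function.update b i y)) ∧
        Cv (ots ψ) a (U.length + 2) (tr s (Function.update b i y)) (Prod.snd '' D₁) := by
      intro y
      obtain ⟨w, hw, hcd, hw2⟩ := hG a (U.length + 2) (tr s b) y (ots ψ) hL' ha (Nat.succ_pos _)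
      obtain ⟨w', hw', hot, hkk⟩ := hL (Fin (s * (2 * Fintype.card κ₁) + s)) C k U V D hK
        (by rw [Fintype.card_fin]; exact hnum) w hw
      obtain ⟨y', hy'⟩ := hw2 (V.length + 2) D (tr s b') w' hw' hK.ord hR hot
      refine ⟨y', Prod.swap '' (D ∪ grf w w'), hkk, ?_, ?_⟩
      · rw [T2_tr, T2_tr]
        exact T2_RR hy'
      · rw [T2_tr]
        exact T2_Cv hcd
    constructor
    · intro h
      obtain ⟨y, hy⟩ := h
      obtain ⟨y', D₁, c1, c2, c3⟩ := core y
      exact ⟨y', (hG₁ C hC1 a n V U D₁ B _ _ ha hV hU hB c1 c2 ψ hψ (fun _ => Or.inr c3)).2 hy⟩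
    · intro h y
      obtain ⟨y', D₁, c1, c2, c3⟩ := core y
      exact (hG₁ C hC1 a n V U D₁ B _ _ ha hV hU hB c1 c2 ψ hψ (fun _ => Or.inr c3)).1 (h y')

end Pool.Agent.RHT
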