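import Pool.Agent.RHT.St

/-! RHT, module V1 (helper30): the meaning of the sentence `Mt n i`. -/

set_option autoImplicit false

namespace Pool.Agent.RHT

open Pool.Agent.RH Function

/-! ### words -/

private theorem V1_split {U : List ℕ} {p r q m : ℕ} (h1 : p < r) (h2 : r < q)
    (h3 : lab U r = some m) : seg U p q = seg U p r ++ m :: seg U r q := by
  obtain ⟨r', rfl⟩ : ∃ r', r = r' + 1 := ⟨r - 1, by omega⟩
  have h3' : U[r']? = some m := h3
  unfold seg
  have e1 : q - 1 - p = (r' + 1 - 1 - p) + ((q - 1 - (r' + 1)) + 1) := by omega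
  rw [e1, List.take_add]
  congr 1
  rw [List.drop_drop]
  have e2 : p + (r' + 1 - 1 - p) = r' := by omega
  rw [e2]
  obtain ⟨hlt, hget⟩ := List.getElem?_eq_some_iff.1 h3'
  rw [List.drop_eq_getElem_cons hlt, hget, List.take_succ_cons]

private theorem V1_dec {U : List ℕ} {p q m : ℕ} {p' s : List ℕ} (h : seg U p q = p' ++ m :: s) :
    ∃ r, p < r ∧ r < q ∧ lab U r = some m ∧ p' = seg U p r ∧ s = seg U r q := by
  have hl : (seg U p q).length = p'.length + (s.length + 1) := by
    rw [h, List.length_append, List.length_cons]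
  have hl2 : (seg U p q).length = min (q - 1 - p) (U.length - p) := by
    unfold seg
    rw [List.length_take, List.length_drop]
  have hlt1 : p'.length < q - 1 - p := by omega
  have hlt2 : p'.length < U.length - p := by omega
  have hlab : lab U (p + p'.length + 1) = some m := by
    show U[p + p'.length]? = some m
    have e1 : (seg U p q)[p'.length]? = some m := by
      rw [h]; simp
    unfold seg at e1
    rw [List.getElem?_take_of_lt hlt1, List.getElem?_drop] at e1
    exact e1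
  have hsp := V1_split (U := U) (p := p) (r := p + p'.length + 1) (q := q) (by omega) (by omega)
    hlab
  rw [h] at hsp
  have hlen : p'.length = (seg U p (p + p'.length + 1)).length := by
    unfold seg
    rw [List.length_take, List.length_drop]
    omega
  obtain ⟨a1, a2⟩ := List.append_inj hsp hlen
  exact ⟨p + p'.length + 1, by omega, by omega, hlab, a1, (List.cons.inj a2).2⟩

private theorem V1_mem {U : List ℕ} {p q m : ℕ} :
    m ∈ seg U p q ↔ ∃ r, p < r ∧ r < q ∧ lab U r = some m := by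
  constructor
  · intro h
    obtain ⟨s, t, hst⟩ := List.append_of_mem h
    obtain ⟨r, h1, h2, h3, -, -⟩ := V1_dec hst
    exact ⟨r, h1, h2, h3⟩
  · rintro ⟨r, h1, h2, h3⟩
    rw [V1_split h1 h2 h3]
    simp

/-! ### truth -/

private theorem V1_and {O : Set (List ℝ)} {A ψ : Qf} {P : Prop} : ∀ (k : ℕ) (e : Bool) (s : ℕ)
    (b : ℕ → ℕ → ℝ), (∀ b' : ℕ → ℕ → ℝ, (∀ j < s, b' j = b j) → (A.holds O b' ↔ P)) →
    (truth O e k s (Qf.and A ψ) b ↔ P ∧ truth O e k s ψ b) := by
  intro k
  induction k with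
  | zero =>
    intro e s b hA
    have h1 := hA b (fun _ _ => rfl)
    cases e <;>
    · show (A.holds O b ∧ ψ.holds O b) ↔ (P ∧ ψ.holds O b)
      rw [h1]
  | succ k ih =>
    intro e s b hA
    have hA' : ∀ v : ℕ → ℝ, ∀ b' : ℕ → ℕ → ℝ, (∀ j < s + 1, b' j = update b s v j) →
        (A.holds O b' ↔ P) := by
      intro v b' hb'
      refine hA b' (fun j hj => ?_)
      rw [hb' j (by omega), update_of_ne (by omega)]
    cases e with
    | true =>
      show (∃ v : ℕ → ℝ, truth O false k (s + 1) (Qf.and A ψ) (update b s v)) ↔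
        (P ∧ ∃ v : ℕ → ℝ, truth O false k (s + 1) ψ (update b s v))
      rw [← exists_and_left]
      exact exists_congr fun v => ih false (s + 1) (update b s v) (hA' v)
    | false =>
      show (∀ v : ℕ → ℝ, truth O true k (s + 1) (Qf.and A ψ) (update b s v)) ↔
        (P ∧ ∀ v : ℕ → ℝ, truth O true k (s + 1) ψ (update b s v))
      rw [← forall_and_left]
      exact forall_congr' fun v => ih true (s + 1) (update b s v) (hA' v)

private theorem V1_neg {O : Set (List ℝ)} {ψ : Qf} : ∀ (k : ℕ) (e : Bool) (s : ℕ)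
    (b : ℕ → ℕ → ℝ), truth O e k s (Qf.neg ψ) b ↔ ¬ truth O (!e) k s ψ b := by
  intro k
  induction k with
  | zero =>
    intro e s b
    cases e <;> exact Iff.rfl
  | succ k ih =>
    intro e s b
    cases e with
    | true =>
      show (∃ v : ℕ → ℝ, truth O false k (s + 1) (Qf.neg ψ) (update b s v)) ↔
        ¬ ∀ v : ℕ → ℝ, truth O true k (s + 1) ψ (update b s v)
      rw [not_forall]
      exact exists_congr fun v => ih false (s + 1) (update b s v)
    | false =>
      show (∀ v : ℕ → ℝ, truth O true k (s + 1) (Qf.neg ψ) (update b s v)) ↔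
        ¬ ∃ v : ℕ → ℝ, truth O false k (s + 1) ψ (update b s v)
      rw [not_exists]
      exact forall_congr' fun v => ih true (s + 1) (update b s v)

private theorem V1_atm {T : Set Qf} {E : ℕ → Set (ℕ × ℕ)} {n : ℕ} {a : ℕ → ℕ} {U : List ℕ}
    (hE : E n = lbl a U) (c : ℕ) (u : Tm) (b : ℕ → ℕ → ℝ) :
    (atm n c u).holds (ore T E) b ↔ ∃ r, lab U r = some c ∧ u.val b = (a r : ℝ) := by
  have e1 : (List.replicate n Tm.one ++ [numTm 2, numTm c, u]).map (Tm.val b) =
      List.replicate n (1 : ℝ) ++ [2, (c : ℝ), u.val b] := by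
    simp [numTm_val, Tm.val]
  show (List.replicate n Tm.one ++ [numTm 2, numTm c, u]).map (Tm.val b) ∈ ore T E ↔ _
  rw [e1]
  constructor
  · rintro (⟨ψ, -, h⟩ | ⟨n', t, ht, h⟩)
    · cases n with
      | zero => simp at h
      | succ n => simp [List.replicate_succ] at h
    · have hlen := congrArg List.length h
      simp only [List.length_append, List.length_replicate, List.length_cons,
        List.length_nil] at hlen
      obtain rfl : n = n' := by omega
      rw [List.append_cancel_left_eq] at h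
      simp only [List.cons.injEq, Nat.cast_inj, and_true, true_and] at h
      obtain ⟨h1, h2⟩ := h
      rw [hE] at ht
      obtain ⟨r, hr1, hr2⟩ := ht
      exact ⟨r, by rw [hr1, h1], by rw [h2, hr2]⟩
  · rintro ⟨r, h1, h2⟩
    refine Or.inr ⟨n, (c, a r), ?_, ?_⟩
    · rw [hE]
      exact ⟨r, h1, rfl⟩
    · rw [h2]

private theorem V1_main {T : Set Qf} {E : ℕ → Set (ℕ × ℕ)} {n : ℕ} {a : ℕ → ℕ} {U : List ℕ}
    (ha : StrictMono a) (hE : E n = lbl a U) : ∀ (i t : ℕ) (Bd : Tm → Qf) (Pr : ℝ → Prop)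
    (b : ℕ → ℕ → ℝ) (p q : ℕ),
    (∀ (u : Tm) (b' : ℕ → ℕ → ℝ), (∀ j < t, b' j = b j) →
      ((Bd u).holds (ore T E) b' ↔ Pr (u.val b'))) →
    (∀ r c, lab U r = some c → (Pr (a r : ℝ) ↔ p < r ∧ r < q)) →
    (truth (ore T E) true (i + 1) t (Mat n i t Bd) b ↔ val i (seg U p q)) := by
  intro i
  induction i with
  | zero =>
    intro t Bd Pr b p q hBd hPr
    have hval : val 0 (seg U p q) ↔ ∃ r, p < r ∧ r < q ∧ lab U r = some 1 := V1_mem
    rw [hval]
    show (∃ v : ℕ → ℝ, (Bd (Tm.var t 2)).holds (ore T E) (update b t v) ∧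
      (atm n 1 (Tm.var t 2)).holds (ore T E) (update b t v)) ↔ _
    have hv : ∀ v : ℕ → ℝ, (Tm.var t 2).val (update b t v) = v 2 := by
      intro v
      simp [Tm.val]
    have hag : ∀ v : ℕ → ℝ, ∀ j < t, update b t v j = b j := fun v j hj =>
      update_of_ne (by omega) _ _
    constructor
    · rintro ⟨v, h1, h2⟩
      rw [hBd _ _ (hag v), hv] at h1
      rw [V1_atm hE, hv] at h2
      obtain ⟨r, hr1, hr2⟩ := h2
      rw [hr2, hPr r 1 hr1] at h1
      exact ⟨r, h1.1, h1.2, hr1⟩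
    · rintro ⟨r, h1, h2, h3⟩
      refine ⟨fun _ => (a r : ℝ), ?_, ?_⟩
      · rw [hBd _ _ (hag _), hv]
        exact (hPr r 1 h3).2 ⟨h1, h2⟩
      · rw [V1_atm hE, hv]
        exact ⟨r, h3, rfl⟩
  | succ i ih =>
    intro t Bd Pr b p q hBd hPr
    -- the formula for a fixed choice of the block `t`
    have hag : ∀ v : ℕ → ℝ, ∀ j < t, update b t v j = b j := fun v j hj =>
      update_of_ne (by omega) _ _
    have key : ∀ v : ℕ → ℝ, truth (ore T E) false (i + 1) (t + 1) (Mat n (i + 1) t Bd)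
        (update b t v) ↔
        ((((Pr (v 0) ∧ Pr (v 1)) ∧ (v 0 < v 1 ∧ ((∃ r, lab U r = some (i + 2) ∧ v 0 = a r) ∧
          (∃ r, lab U r = some (i + 2) ∧ v 1 = a r))))) ∧
        (∀ y : ℝ, ¬ ((v 0 < y ∧ y < v 1) ∧ ∃ r, lab U r = some (i + 2) ∧ y = a r)) ∧
        ¬ truth (ore T E) true (i + 1) (t + 1)
          (Mat n i (t + 1) (fun u => Qf.and (Qf.lt (Tm.var t 0) u) (Qf.lt u (Tm.var t 1))))
          (update b t v)) := by
      intro v
      have hA : ∀ b' : ℕ → ℕ → ℝ, (∀ j < t + 1, b' j = update b t v j) →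
          ((Qf.and (Qf.and (Bd (Tm.var t 0)) (Bd (Tm.var t 1)))
            (Qf.and (Qf.lt (Tm.var t 0) (Tm.var t 1))
              (Qf.and (atm n (i + 2) (Tm.var t 0)) (atm n (i + 2) (Tm.var t 1))))).holds
                (ore T E) b' ↔
          ((Pr (v 0) ∧ Pr (v 1)) ∧ (v 0 < v 1 ∧ ((∃ r, lab U r = some (i + 2) ∧ v 0 = a r) ∧
            (∃ r, lab U r = some (i + 2) ∧ v 1 = a r))))) := by
        intro b' hb'
        have hb'' : ∀ j < t, b' j = b j := fun j hj => by
          rw [hb' j (by omega)]; exact hag v j hj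
        have h0 : ∀ m, (Tm.var t m).val b' = v m := by
          intro m
          show b' t m = v m
          rw [hb' t (by omega), update_self]
        show (((Bd (Tm.var t 0)).holds (ore T E) b' ∧ (Bd (Tm.var t 1)).holds (ore T E) b') ∧
          ((Tm.var t 0).val b' < (Tm.var t 1).val b' ∧
          ((atm n (i + 2) (Tm.var t 0)).holds (ore T E) b' ∧
          (atm n (i + 2) (Tm.var t 1)).holds (ore T E) b'))) ↔ _
        rw [hBd _ _ hb'', hBd _ _ hb'', V1_atm hE, V1_atm hE, h0, h0]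
      show (∀ v' : ℕ → ℝ, truth (ore T E) true i (t + 2) (Qf.and _ (Qf.and (Qf.neg _)
        (Qf.neg _))) (update (update b t v) (t + 1) v')) ↔ _
      have hstep : ∀ v' : ℕ → ℝ, truth (ore T E) true i (t + 2) (Mat n (i + 1) t Bd)
          (update (update b t v) (t + 1) v') ↔
          ((((Pr (v 0) ∧ Pr (v 1)) ∧ (v 0 < v 1 ∧ ((∃ r, lab U r = some (i + 2) ∧ v 0 = a r) ∧
            (∃ r, lab U r = some (i + 2) ∧ v 1 = a r))))) ∧
          ¬ ((v 0 < v' 3 ∧ v' 3 < v 1) ∧ ∃ r, lab U r = some (i + 2) ∧ v' 3 = a r) ∧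
          ¬ truth (ore T E) false i (t + 2)
            (Mat n i (t + 1) (fun u => Qf.and (Qf.lt (Tm.var t 0) u) (Qf.lt u (Tm.var t 1))))
            (update (update b t v) (t + 1) v')) := by
        intro v'
        show truth (ore T E) true i (t + 2) (Qf.and
          (Qf.and (Qf.and (Bd (Tm.var t 0)) (Bd (Tm.var t 1)))
            (Qf.and (Qf.lt (Tm.var t 0) (Tm.var t 1))
              (Qf.and (atm n (i + 2) (Tm.var t 0)) (atm n (i + 2) (Tm.var t 1)))))
          (Qf.and
            (Qf.neg (Qf.and (Qf.and (Qf.lt (Tm.var t 0) (Tm.var (t + 1) 3))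
              (Qf.lt (Tm.var (t + 1) 3) (Tm.var t 1))) (atm n (i + 2) (Tm.var (t + 1) 3))))
            (Qf.neg (Mat n i (t + 1)
              (fun u => Qf.and (Qf.lt (Tm.var t 0) u) (Qf.lt u (Tm.var t 1)))))))
          (update (update b t v) (t + 1) v') ↔ _
        rw [V1_and i true (t + 2) _ (P := ((Pr (v 0) ∧ Pr (v 1)) ∧ (v 0 < v 1 ∧
            ((∃ r, lab U r = some (i + 2) ∧ v 0 = a r) ∧
            (∃ r, lab U r = some (i + 2) ∧ v 1 = a r))))),
          V1_and i true (t + 2) _ (P := ¬ ((v 0 < v' 3 ∧ v' 3 < v 1) ∧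
            ∃ r, lab U r = some (i + 2) ∧ v' 3 = a r)), V1_neg]
        · rfl
        · intro b' hb'
          have h0 : ∀ m, (Tm.var t m).val b' = v m := by
            intro m
            show b' t m = v m
            rw [hb' t (by omega), update_of_ne (by omega), update_self]
          have h1 : (Tm.var (t + 1) 3).val b' = v' 3 := by
            show b' (t + 1) 3 = v' 3
            rw [hb' (t + 1) (by omega), update_self]
          show ¬ (((Tm.var t 0).val b' < (Tm.var (t + 1) 3).val b' ∧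
            (Tm.var (t + 1) 3).val b' < (Tm.var t 1).val b') ∧
            (atm n (i + 2) (Tm.var (t + 1) 3)).holds (ore T E) b') ↔ _
          rw [V1_atm hE, h0, h0, h1]
        · intro b' hb'
          refine hA b' (fun j hj => ?_)
          rw [hb' j (by omega), update_of_ne (by omega)]
      have hall : (∀ v' : ℕ → ℝ, truth (ore T E) true i (t + 2) (Mat n (i + 1) t Bd)
          (update (update b t v) (t + 1) v')) ↔ _ := forall_congr' hstep
      refine hall.trans ?_
      constructor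
      · intro h
        refine ⟨(h (fun _ => 0)).1, fun y => ?_, ?_⟩
        · exact (h (fun _ => y)).2.1
        · rintro ⟨v', hv'⟩
          exact (h v').2.2 hv'
      · rintro ⟨h1, h2, h3⟩ v'
        exact ⟨h1, h2 (v' 3), fun h4 => h3 ⟨v', h4⟩⟩
    show (∃ v : ℕ → ℝ, truth (ore T E) false (i + 1) (t + 1) (Mat n (i + 1) t Bd)
      (update b t v)) ↔ _
    -- the induction hypothesis
    have hIH : ∀ (v : ℕ → ℝ) (r₁ r₂ : ℕ), v 0 = a r₁ → v 1 = a r₂ →
        (truth (ore T E) true (i + 1) (t + 1)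
          (Mat n i (t + 1) (fun u => Qf.and (Qf.lt (Tm.var t 0) u) (Qf.lt u (Tm.var t 1))))
          (update b t v) ↔ val i (seg U r₁ r₂)) := by
      intro v r₁ r₂ h0 h1
      refine ih (t + 1) _ (fun y => v 0 < y ∧ y < v 1) (update b t v) r₁ r₂ ?_ ?_
      · intro u b' hb'
        have h2 : ∀ m, (Tm.var t m).val b' = v m := by
          intro m
          show b' t m = v m
          rw [hb' t (by omega), update_self]
        show ((Tm.var t 0).val b' < u.val b' ∧ u.val b' < (Tm.var t 1).val b') ↔ _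
        rw [h2, h2]
      · intro r c _
        show (v 0 < (a r : ℝ) ∧ (a r : ℝ) < v 1) ↔ _
        rw [h0, h1, Nat.cast_lt, Nat.cast_lt, ha.lt_iff_lt, ha.lt_iff_lt]
    constructor
    · rintro ⟨v, hv⟩
      rw [key v] at hv
      obtain ⟨⟨⟨hp0, hp1⟩, hlt, ⟨r₁, hl1, he1⟩, ⟨r₂, hl2, he2⟩⟩, hno, hneg⟩ := hv
      rw [hIH v r₁ r₂ he1 he2] at hneg
      have hr : r₁ < r₂ := by
        rw [he1, he2, Nat.cast_lt, ha.lt_iff_lt] at hlt
        exact hlt
      rw [he1, hPr r₁ _ hl1] at hp0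
      rw [he2, hPr r₂ _ hl2] at hp1
      refine ⟨seg U p r₁, seg U r₁ r₂, seg U r₂ q, ?_, ?_, hneg⟩
      · rw [V1_split hp0.1 hp0.2 hl1, V1_split hr hp1.2 hl2]
      · intro hm
        obtain ⟨r, h1, h2, h3⟩ := V1_mem.1 hm
        refine hno (a r : ℝ) ⟨⟨?_, ?_⟩, r, h3, rfl⟩
        · rw [he1, Nat.cast_lt]; exact ha h1
        · rw [he2, Nat.cast_lt]; exact ha h2
    · rintro ⟨p', z, q', hw, hz, hneg⟩
      obtain ⟨r₁, h1, h2, hl1, -, hs⟩ := V1_dec hw
      obtain ⟨r₂, h3, h4, hl2, hz', -⟩ := V1_dec hs.symm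
      obtain ⟨v, hv0, hv1⟩ : ∃ v : ℕ → ℝ, v 0 = a r₁ ∧ v 1 = a r₂ :=
        ⟨fun m => if m = 0 then (a r₁ : ℝ) else a r₂, by simp, by simp⟩
      refine ⟨v, (key v).2 ⟨⟨⟨?_, ?_⟩, ?_, ⟨r₁, hl1, hv0⟩, ⟨r₂, hl2, hv1⟩⟩, ?_, ?_⟩⟩
      · rw [hv0]; exact (hPr r₁ _ hl1).2 ⟨h1, h2⟩
      · rw [hv1]; exact (hPr r₂ _ hl2).2 ⟨by omega, h4⟩
      · rw [hv0, hv1, Nat.cast_lt]; exact ha h3
      · rintro y ⟨⟨hy1, hy2⟩, r, hlr, rfl⟩
        rw [hv0, Nat.cast_lt, ha.lt_iff_lt] at hy1
        rw [hv1, Nat.cast_lt, ha.lt_iff_lt] at hy2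
        apply hz
        rw [hz']
        exact V1_mem.2 ⟨r, hy1, hy2, hlr⟩
      · rw [hIH v r₁ r₂ hv0 hv1, ← hz']
        exact hneg

theorem V1 : St_V1 := by
  intro T E n i a U ha hE
  have h := V1_main (T := T) (E := E) (n := n) (a := a) (U := U) ha hE i 0 (fun _ => tru)
    (fun _ => True) (fun _ _ => 0) 0 (U.length + 1) ?_ ?_
  · have hU : seg U 0 (U.length + 1) = U := by
      unfold seg
      simp
    rw [hU] at h
    exact h
  · intro u b' _
    show ((0 : ℝ) = 0) ↔ True
    simp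
  · intro r c hr
    cases r with
    | zero => simp [lab] at hr
    | succ r =>
      have h2 : U[r]? = some c := hr
      obtain ⟨hlt, -⟩ := List.getElem?_eq_some_iff.1 h2
      constructor
      · intro _
        omega
      · intro _
        trivial

end Pool.Agent.RHT
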