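import Pool.Agent.RHT.St

/-!
# RHT [V2] : the test language is in `Σ_{i+1}ℝ` (helper89)
-/

set_option autoImplicit false

open Pool.Agent.RH
open Pool.Agent.RelPoly

namespace Pool.Agent.RHT

private theorem V2_atm_closed (n c k : ℕ) (t : Tm) (ht : t.Closed k) : (atm n c t).Closed k := by
  intro u hu
  rw [List.mem_append] at hu
  rcases hu with hu | hu
  · rw [List.mem_replicate] at hu
    rw [hu.2]
    trivial
  · simp only [List.mem_cons, List.not_mem_nil, or_false] at hu
    rcases hu with rfl | rfl | rfl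
    · exact numTm_closed k 2
    · exact numTm_closed k c
    · exact ht

private theorem V2_mat_closed (n : ℕ) : ∀ (i t : ℕ) (Bd : Tm → Qf) (k : ℕ), t + i + 1 ≤ k →
    (∀ u : Tm, u.Closed k → (Bd u).Closed k) → (Mat n i t Bd).Closed k := by
  intro i
  induction i with
  | zero =>
    intro t Bd k hk hB
    have h0 : (Tm.var t 2).Closed k := by
      change t < k
      omega
    exact ⟨hB _ h0, V2_atm_closed n 1 k _ h0⟩
  | succ i ih =>
    intro t Bd k hk hB
    have h0 : ∀ j : ℕ, (Tm.var t j).Closed k := by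
      intro j
      change t < k
      omega
    have h1 : ∀ j : ℕ, (Tm.var (t + 1) j).Closed k := by
      intro j
      change t + 1 < k
      omega
    refine ⟨⟨⟨hB _ (h0 0), hB _ (h0 1)⟩, ⟨⟨h0 0, h0 1⟩, ⟨V2_atm_closed n (i + 2) k _ (h0 0),
      V2_atm_closed n (i + 2) k _ (h0 1)⟩⟩⟩, ⟨⟨⟨⟨h0 0, h1 3⟩, ⟨h1 3, h0 1⟩⟩,
      V2_atm_closed n (i + 2) k _ (h1 3)⟩, ?_⟩⟩
    exact ih (t + 1) _ k (by omega) (fun u hu => ⟨⟨h0 0, hu⟩, ⟨hu, h0 1⟩⟩)

private theorem V2_pt_atm (c : ℕ) (t : Tm) :
    PT poly (fun x : List Bool => (atm x.length c t).code) := by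
  have h : PT poly (fun x : List Bool => x.flatMap (fun _ => true :: Tm.one.code)) :=
    PT.flatMap (g := fun _ _ => true :: Tm.one.code) PT.id (PT.const _)
  have h2 : PT poly (fun x : List Bool => [false, true] ++
      (x.flatMap (fun _ => true :: Tm.one.code) ++
        ([numTm 2, numTm c, t].flatMap (fun t => true :: t.code) ++ [false]))) :=
    PT.append (PT.const _) (PT.append h (PT.const _))
  refine h2.congr (fun x => ?_)
  have h3 : ∀ y : List Bool, (List.replicate y.length Tm.one).flatMap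
      (fun t : Tm => true :: t.code) = y.flatMap (fun _ => true :: Tm.one.code) := by
    intro y
    induction y with
    | nil => rfl
    | cons a y ih =>
      rw [List.length_cons, List.replicate_succ, List.flatMap_cons, List.flatMap_cons, ih]
  change _ = [false, true] ++ ((List.replicate x.length Tm.one ++
    [numTm 2, numTm c, t]).flatMap (fun t => true :: t.code) ++ [false])
  rw [List.flatMap_append, h3, List.append_assoc]

private theorem V2_pt_and {φ ψ : List Bool → Qf} (h1 : PT poly (fun x => (φ x).code))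
    (h2 : PT poly (fun x => (ψ x).code)) : PT poly (fun x => (Qf.and (φ x) (ψ x)).code) :=
  PT.append (PT.const [true, true, false]) (PT.append h1 h2)

private theorem V2_pt_neg {φ : List Bool → Qf} (h1 : PT poly (fun x => (φ x).code)) :
    PT poly (fun x => (Qf.neg (φ x)).code) :=
  PT.append (PT.const [true, false]) h1

private theorem V2_pt_mat : ∀ (i t : ℕ) (Bd : Tm → Qf),
    PT poly (fun x : List Bool => (Mat x.length i t Bd).code) := by
  intro i
  induction i with
  | zero =>
    intro t Bd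
    exact V2_pt_and (φ := fun _ => Bd (Tm.var t 2)) (ψ := fun x => atm x.length 1 (Tm.var t 2))
      (PT.const _) (V2_pt_atm 1 _)
  | succ i ih =>
    intro t Bd
    exact V2_pt_and
      (φ := fun x => Qf.and (Qf.and (Bd (Tm.var t 0)) (Bd (Tm.var t 1)))
        (Qf.and (Qf.lt (Tm.var t 0) (Tm.var t 1))
          (Qf.and (atm x.length (i + 2) (Tm.var t 0)) (atm x.length (i + 2) (Tm.var t 1)))))
      (ψ := fun x => Qf.and
        (Qf.neg (Qf.and (Qf.and (Qf.lt (Tm.var t 0) (Tm.var (t + 1) 3))
          (Qf.lt (Tm.var (t + 1) 3) (Tm.var t 1))) (atm x.length (i + 2) (Tm.var (t + 1) 3))))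
        (Qf.neg (Mat x.length i (t + 1)
          (fun u => Qf.and (Qf.lt (Tm.var t 0) u) (Qf.lt u (Tm.var t 1))))))
      (V2_pt_and (φ := fun _ => Qf.and (Bd (Tm.var t 0)) (Bd (Tm.var t 1)))
        (ψ := fun x => Qf.and (Qf.lt (Tm.var t 0) (Tm.var t 1))
          (Qf.and (atm x.length (i + 2) (Tm.var t 0)) (atm x.length (i + 2) (Tm.var t 1))))
        (PT.const _)
        (V2_pt_and (φ := fun _ => Qf.lt (Tm.var t 0) (Tm.var t 1))
          (ψ := fun x => Qf.and (atm x.length (i + 2) (Tm.var t 0))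
            (atm x.length (i + 2) (Tm.var t 1))) (PT.const _)
          (V2_pt_and (V2_pt_atm (i + 2) _) (V2_pt_atm (i + 2) _))))
      (V2_pt_and
        (φ := fun x => Qf.neg (Qf.and (Qf.and (Qf.lt (Tm.var t 0) (Tm.var (t + 1) 3))
          (Qf.lt (Tm.var (t + 1) 3) (Tm.var t 1))) (atm x.length (i + 2) (Tm.var (t + 1) 3))))
        (ψ := fun x => Qf.neg (Mat x.length i (t + 1)
          (fun u => Qf.and (Qf.lt (Tm.var t 0) u) (Qf.lt u (Tm.var t 1)))))
        (V2_pt_neg
          (φ := fun x => Qf.and (Qf.and (Qf.lt (Tm.var t 0) (Tm.var (t + 1) 3))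
            (Qf.lt (Tm.var (t + 1) 3) (Tm.var t 1))) (atm x.length (i + 2) (Tm.var (t + 1) 3)))
          (V2_pt_and
            (φ := fun _ => Qf.and (Qf.lt (Tm.var t 0) (Tm.var (t + 1) 3))
              (Qf.lt (Tm.var (t + 1) 3) (Tm.var t 1)))
            (ψ := fun x => atm x.length (i + 2) (Tm.var (t + 1) 3))
            (PT.const _) (V2_pt_atm (i + 2) _)))
        (V2_pt_neg
          (φ := fun x => Mat x.length i (t + 1)
            (fun u => Qf.and (Qf.lt (Tm.var t 0) u) (Qf.lt u (Tm.var t 1))))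
          (ih (t + 1) _)))

/-- [V2] The test language is in `Σ_{i+1}ℝ`. -/
theorem V2 : St_V2 := by
  intro O i
  refine ⟨fun x => (Mt x.length i).code, PT_poly_iff.1 (V2_pt_mat i 0 _), fun x =>
    ⟨Mt x.length i, V2_mat_closed x.length i 0 _ (i + 1) (by omega) ?_, rfl, Iff.rfl⟩⟩
  intro u _
  exact ⟨trivial, trivial⟩

end Pool.Agent.RHT
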