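import Pool.Agent.RHT.St2

set_option autoImplicit false

/-! [X2] Finite extensions. -/

namespace Pool.Agent.RHT

theorem X2 : St_X2 := by
  intro α ι _ P Req hx h
  obtain ⟨E₀, hE₀⟩ := hx
  rcases isEmpty_or_nonempty ι with hι | hι
  · exact ⟨E₀, hE₀, fun r => (hι.false r).elim⟩
  obtain ⟨e, he⟩ := exists_surjective_nat ι
  have h' : ∀ (r : ℕ) (s : {p : (ℕ → α) × ℕ // ∀ n, P n (p.1 n)}),
      ∃ s' : {p : (ℕ → α) × ℕ // ∀ n, P n (p.1 n)}, s.1.2 < s'.1.2 ∧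
        (∀ n, n < s.1.2 → s'.1.1 n = s.1.1 n) ∧ ∀ E'' : ℕ → α, (∀ n, P n (E'' n)) →
          (∀ n, n < s'.1.2 → E'' n = s'.1.1 n) → Req (e r) E'' := by
    intro r s
    obtain ⟨E', m', hm, hE, hP, hR⟩ := h (e r) s.1.1 (s.1.2 + 1) s.2
    exact ⟨⟨(E', m'), hP⟩, hm, fun n hn => hE n (Nat.lt_succ_of_lt hn), hR⟩
  choose F hF1 hF2 hF3 using h'
  let S : ℕ → {p : (ℕ → α) × ℕ // ∀ n, P n (p.1 n)} :=
    fun r => Nat.rec ⟨(E₀, 0), hE₀⟩ (fun r s => F r s) r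
  have hS : ∀ r, S (r + 1) = F r (S r) := fun r => rfl
  have hm : ∀ r, r ≤ (S r).1.2 := by
    intro r
    induction r with
    | zero => exact Nat.zero_le _
    | succ r ih =>
      rw [hS]
      exact lt_of_le_of_lt ih (hF1 r (S r))
  have hmono : ∀ r, (S r).1.2 ≤ (S (r + 1)).1.2 := fun r => by
    rw [hS]
    exact (hF1 r (S r)).le
  have hmm : Monotone fun r => (S r).1.2 := monotone_nat_of_le_succ hmono
  have hag : ∀ r d n, n < (S r).1.2 → (S (r + d)).1.1 n = (S r).1.1 n := by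
    intro r d n hn
    induction d with
    | zero => rfl
    | succ d ih =>
      rw [← ih, ← Nat.add_assoc, hS]
      exact hF2 _ _ _ (lt_of_lt_of_le hn (hmm (Nat.le_add_right r d)))
  have hag' : ∀ r r' n, n < (S r).1.2 → n < (S r').1.2 → (S r).1.1 n = (S r').1.1 n := by
    intro r r' n h1 h2
    rw [← hag r r' n h1, ← hag r' r n h2, Nat.add_comm]
  refine ⟨fun n => (S (n + 1)).1.1 n, fun n => (S (n + 1)).2 n, fun i => ?_⟩
  obtain ⟨r, rfl⟩ := he i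
  refine hF3 r (S r) _ (fun n => (S (n + 1)).2 n) ?_
  intro n hn
  exact hag' (n + 1) (r + 1) n (lt_of_lt_of_le (Nat.lt_succ_self n) (hm (n + 1))) hn

end Pool.Agent.RHT
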