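import Pool.Agent.RHT.St2

set_option autoImplicit false

/-! [Y1] Polynomial time gives polynomial length, and the bound `Bd` is eventually below `2^n`. -/

namespace Pool.Agent.RHT

open Filter Topology

private theorem Y1_lim (Q : Polynomial ℕ) :
    Tendsto (fun n : ℕ => ((Q.eval n : ℕ) : ℝ) / 2 ^ n) atTop (𝓝 0) := by
  induction Q using Polynomial.induction_on' with
  | add p q hp hq =>
    have h := hp.add hq
    rw [add_zero] at h
    refine h.congr fun n => ?_
    rw [Polynomial.eval_add, Nat.cast_add, add_div]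
  | monomial k a =>
    have h := (tendsto_pow_const_div_const_pow_of_one_lt k (by norm_num : (1 : ℝ) < 2)).const_mul
      (a : ℝ)
    rw [mul_zero] at h
    refine h.congr fun n => ?_
    rw [Polynomial.eval_monomial, Nat.cast_mul, Nat.cast_pow, mul_div_assoc]

private theorem Y1_poly (Q : Polynomial ℕ) : ∀ᶠ n : ℕ in atTop, Q.eval n ≤ 2 ^ n := by
  filter_upwards [(Y1_lim Q).eventually (gt_mem_nhds (zero_lt_one : (0 : ℝ) < 1))] with n hn
  have h2 : (0 : ℝ) < 2 ^ n := by positivity
  rw [div_lt_one h2] at hn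
  exact_mod_cast hn.le

private theorem Y1_mono (j : ℕ) {s t : ℕ} (h : s ≤ t) : Bd s j ≤ Bd t j := by
  unfold Bd
  gcongr

theorem Y1 : St_Y1 := by
  intro f hf j m
  obtain ⟨p, hp⟩ := (Pool.Agent.PolyTime.polyTime_string_iff.mp hf).length_le
  obtain ⟨Q, hQ⟩ : ∃ Q : Polynomial ℕ, ∀ n, Q.eval n = Bd (p.eval n) j := by
    refine ⟨(4 * ((2 * p + 1) ^ (j + 1) + p + 1)) ^ ((j + 2) ^ 2), fun n => ?_⟩
    unfold Bd
    simp
  obtain ⟨n, hn, hm⟩ := ((Y1_poly Q).and (eventually_ge_atTop m)).exists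
  refine ⟨n, hm, ?_⟩
  have h1 := hp (List.replicate n true)
  rw [List.length_replicate] at h1
  exact (Y1_mono j h1).trans ((hQ n).symm.le.trans hn)

end Pool.Agent.RHT
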