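import Pool.Agent.RHT.D2
import Pool.Agent.RHT.END2
import Pool.Agent.RHT.F2
import Pool.Agent.RHT.H1
import Pool.Agent.RHT.H2
import Pool.Agent.RHT.H3
import Pool.Agent.RHT.I2
import Pool.Agent.RHT.K1
import Pool.Agent.RHT.K2
import Pool.Agent.RHT.L1
import Pool.Agent.RHT.L2
import Pool.Agent.RHT.L3
import Pool.Agent.RHT.L4
import Pool.Agent.RHT.L5
import Pool.Agent.RHT.O1
import Pool.Agent.RHT.O2
import Pool.Agent.RHT.O4
import Pool.Agent.RHT.P1
import Pool.Agent.RHT.P2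
import Pool.Agent.RHT.P3
import Pool.Agent.RHT.T2
import Pool.Agent.RHT.V1
import Pool.Agent.RHT.V2
import Pool.Agent.RHT.X2
import Pool.Agent.RHT.Y1

/-!
# Quantitatively tame oracles for the real hierarchy : assembly
-/

set_option autoImplicit false

namespace Pool.Agent.RHT

theorem main : St_END2 :=
  END2 (D2 (I2 (T2 L5 (P3 (P2 P1)) F2) (H3 H1 H2) L1 (L4 L1 (L3 L1 (L2 L1))) (K2 K1)) V1 O1 Y1)
    X2 O1 O2 O4 V2

end Pool.Agent.RHT
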