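import Pool.Agent.RHT.St

/-!
# Tame oracles for the real hierarchy : the theorem
-/

set_option autoImplicit false

open Pool.Agent.RH

namespace Pool.Agent.RHT

theorem END (hD1 : St_D1) (hX1 : St_X1) (hO1 : St_O1) (hO2 : St_O2) (hO3 : St_O3) (hV2 : St_V2) :
    St_END := by
  intro k hk
  obtain ⟨-, hex, -⟩ := hO1
  obtain ⟨E, hE, hreq⟩ := hX1 (Set (ℕ × ℕ)) (ℕ × ℕ × List Bool) (fun e => e.Finite)
    (fun r E => Rq k r.1 (k + r.2.1) (en r.2.2) E) ⟨∅, Set.finite_empty⟩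
    (fun r E m h => hD1 k r.1 (k + r.2.1) hk (Nat.le_add_right _ _) (en r.2.2) E m h)
  obtain ⟨T, hT⟩ := hex k E
  obtain ⟨h1, h2⟩ := hO3 T E hE
  refine ⟨ore T E, h1, h2, hO2 k T E hT, ?_⟩
  intro j hj
  obtain ⟨d, rfl⟩ := Nat.exists_eq_add_of_le hj
  have key : ∀ (c : ℕ) (f : List Bool → List Bool), Pool.Agent.PolyTime.PolyTime f →
      ¬ ∀ x, ∃ ψ : Qf, f x = ψ.code ∧ (x ∈ Lg (ore T E) (k + d) ↔ Fu c (ore T E) (k + d) ψ) := by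
    intro c f hf
    obtain ⟨w, hw⟩ := en_spec hf
    have := hreq (c, d, w) T hT
    simp only at this
    rw [hw] at this
    exact this
  refine ⟨Lg (ore T E) (k + d), hV2 _ _, ?_, ?_, ?_⟩
  · rintro ⟨f, hf, h⟩
    refine key 0 f hf fun x => ?_
    obtain ⟨ψ, -, e1, e2⟩ := h x
    exact ⟨ψ, e1, e2⟩
  · rintro ⟨f, hf, h⟩
    refine key 1 f hf fun x => ?_
    obtain ⟨ψ, -, e1, e2⟩ := h x
    exact ⟨ψ, e1, e2⟩
  · rintro ⟨f, hf, h⟩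
    refine key 2 f hf fun x => ?_
    obtain ⟨ψ, -, e1, e2⟩ := h x
    exact ⟨ψ, e1, e2⟩

end Pool.Agent.RHT
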