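import Pool.Agent.RHT.St

/-!
# RHT I1 : the two candidates for a part of the oracle
-/

set_option autoImplicit false

open MvPolynomial
open Pool.Agent.RH

namespace Pool.Agent.RHT

private theorem I1_desc (hW1 : St_W1) (C : ℕ) (u v : List ℕ) (k : ℕ) :
    ∀ d, Rr C (k + d) u v → Rr C k u v := by
  intro d
  induction d with
  | zero => intro h; exact h
  | succ d ih => intro h; exact ih ((hW1 C (k + d)).2.2.1 u v h).1

private theorem I1_tr (s : ℕ) : tr s (fun _ _ => 0) = fun _ => 0 := by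
  funext v
  simp [tr]

private theorem I1_aeval {κ : Type} (b : κ → ℝ) (f : MvPolynomial (Vr ⊕ κ) ℚ) :
    aeval b (aeval (Sum.elim (fun _ => 0) X : Vr ⊕ κ → MvPolynomial κ ℚ) f) =
      aeval (Sum.elim (fun _ => 0) b) f := by
  have h : (aeval b).comp (aeval (Sum.elim (fun _ => 0) X : Vr ⊕ κ → MvPolynomial κ ℚ)) =
      (aeval (Sum.elim (fun _ => 0) b) : MvPolynomial (Vr ⊕ κ) ℚ →ₐ[ℚ] ℝ) := by
    apply MvPolynomial.algHom_ext
    rintro (v | k)
    · simp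
    · simp
  exact DFunLike.congr_fun h f

open Classical in
theorem I1 (hT1 : St_T1) (hH3 : St_H3) (hW1 : St_W1) (hW4 : St_W4) (hK2 : St_K2) : St_I1 := by
  intro s j K
  have h1 : 1 ∈ K ∪ Finset.range (j + 3) := by simp
  have h2 : 2 ∈ K ∪ Finset.range (j + 3) := by simp
  choose κ fin G C0 hT using fun k : ℕ => hT1 s (K ∪ Finset.range (j + 3)) h1 h2 k 0
  set C := (Finset.range (j + 2)).sup C0 with hC
  have hC' : ∀ k, k ≤ j + 1 → C0 k ≤ C := by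
    intro k hk
    exact Finset.le_sup (f := C0) (Finset.mem_range.2 (by omega))
  obtain ⟨Lo, Wi, hR, hv, hnv, hlo, hwi⟩ := hW4 C j
  obtain ⟨a, ha, hH⟩ := hH3 (j + 2) (fun i => κ i) (fun i => (G i).image
    (fun f => aeval (Sum.elim (fun _ => 0) X : Vr ⊕ κ i → MvPolynomial (κ i) ℚ) f))
  have hlet : ∀ U : List ℕ, (∀ c ∈ U, c < j + 2) → ∀ c ∈ U, c ∈ K ∪ Finset.range (j + 3) := by
    intro U hU c hc
    have := hU c hc
    simp only [Finset.mem_union, Finset.mem_range]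
    right
    omega
  have hRR : ∀ k, k ≤ j + 1 → ∀ (N N' : ℕ) (D : Set (ℕ × ℕ)),
      RR (G k) a N N' D (tr s (fun _ _ => 0)) (tr s (fun _ _ => 0)) := by
    intro k hk N N' D f hf w w' _ _ hOT
    rw [I1_tr]
    have h3 := hH ⟨k, by omega⟩ _ (Finset.mem_image_of_mem _ hf) w w' hOT.2
    rw [I1_aeval, I1_aeval] at h3
    exact h3
  have key : ∀ k, 1 ≤ k → k ≤ j + 1 → ∀ U V : List ℕ, (∀ c ∈ U, c < j + 2) →
      (∀ c ∈ V, c < j + 2) → Rr C k U V → ∀ (n : ℕ) (B : Set (List ℝ)), Bas s K B → ∀ ψ : Qf,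
      ψ.code.length ≤ s →
        (SigmaTrue (B ∪ LL n (lbl a U)) k ψ → SigmaTrue (B ∪ LL n (lbl a V)) k ψ) ∧
        (PiTrue (B ∪ LL n (lbl a V)) k ψ → PiTrue (B ∪ LL n (lbl a U)) k ψ) := by
    intro k hk1 hk U V hU hV hUV n B hB ψ hψ
    have hB' : Bas s (K ∪ Finset.range (j + 3)) B := by
      intro l hl hls z hz
      obtain ⟨c, hc, hz⟩ := hB l hl hls z hz
      exact ⟨c, Finset.mem_union_left _ hc, hz⟩
    exact hT k C (hC' k hk) a n U V _ B (fun _ _ => 0) (fun _ _ => 0) ha (hlet U hU) (hlet V hV)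
      hB' (hK2.2.1 _ U V hUV) (hRR k hk _ _ _) (fun h => by omega) ψ hψ
  refine ⟨a, Lo, Wi, ha, hv, hnv, ?_⟩
  intro n B hB ψ hψ
  refine ⟨(key (j + 1) (by omega) le_rfl Lo Wi hlo hwi hR n B hB ψ hψ).2, ?_⟩
  intro k hk1 hk
  have hk' : Rr C (k + 1) Lo Wi := by
    apply I1_desc hW1 C Lo Wi (k + 1) (j - k)
    have e : k + 1 + (j - k) = j + 1 := by omega
    rw [e]
    exact hR
  obtain ⟨hA, hA'⟩ := (hW1 C k).2.2.1 Lo Wi hk'
  have p := key k hk1 (by omega) Lo Wi hlo hwi hA n B hB ψ hψ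
  have q := key k hk1 (by omega) Wi Lo hwi hlo hA' n B hB ψ hψ
  exact ⟨⟨p.1, q.1⟩, ⟨q.2, p.2⟩⟩

end Pool.Agent.RHT
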