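import Pool.Agent.RHT.St

/-!
# RHT, module O3: the oracle is tame
-/

set_option autoImplicit false

open Pool.Agent.RH

namespace Pool.Agent.RHT

private lemma O3_LL_finite (n : ℕ) (e : Set (ℕ × ℕ)) (he : e.Finite) : (LL n e).Finite := by
  refine (he.image (fun t : ℕ × ℕ => List.replicate n (1 : ℝ) ++ [2, (t.1 : ℝ), (t.2 : ℝ)])).subset ?_
  rintro l ⟨t, ht, rfl⟩
  exact ⟨t, ht, rfl⟩

theorem O3 : St_O3 := by
  intro T E hE
  refine ⟨?_, ?_⟩
  · intro m
    have h1 : (⋃ n ∈ Finset.range (m + 1), LL n (E n)).Finite :=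
      Set.Finite.biUnion (Finset.finite_toSet _) (fun n _ => O3_LL_finite n (E n) (hE n))
    have h2 : ((fun c : List Bool => (0 : ℝ) :: bits c) '' {c : List Bool | c.length ≤ m}).Finite :=
      (List.finite_length_le Bool m).image _
    refine (h2.union h1).subset ?_
    rintro l ⟨hl, hm⟩
    rcases hl with ⟨ψ, hψ, rfl⟩ | ⟨n, hn⟩
    · left
      refine ⟨ψ.code, ?_, rfl⟩
      simp only [bits, List.length_cons, List.length_map] at hm
      simp only [Set.mem_setOf_eq]
      omega
    · right
      have hn2 := hn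
      obtain ⟨t, ht, rfl⟩ := hn
      simp only [List.length_append, List.length_replicate, List.length_cons,
        List.length_nil] at hm
      simp only [Set.mem_iUnion]
      exact ⟨n, Finset.mem_range.mpr (by omega), hn2⟩
  · intro l hl z hz
    rcases hl with ⟨ψ, hψ, rfl⟩ | ⟨n, t, ht, rfl⟩
    · rcases List.mem_cons.mp hz with rfl | hz
      · exact ⟨0, by simp⟩
      · obtain ⟨b, hb, rfl⟩ := List.mem_map.mp hz
        cases b
        · exact ⟨0, by simp⟩
        · exact ⟨1, by simp⟩
    · rcases List.mem_append.mp hz with hz | hz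
      · rw [List.mem_replicate] at hz
        exact ⟨1, by rw [hz.2]; simp⟩
      · simp only [List.mem_cons, List.not_mem_nil, or_false] at hz
        rcases hz with rfl | rfl | rfl
        · exact ⟨2, by norm_num⟩
        · exact ⟨t.1, rfl⟩
        · exact ⟨t.2, rfl⟩

end Pool.Agent.RHT
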