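import Pool.Agent.RHT.St

/-! MP_f917a3_lc, module R2 (helper82): one block of real variables, with extra picks. -/

set_option autoImplicit false

open MvPolynomial
open Pool.Agent.RH

namespace Pool.Agent.RHT

private theorem R2_OT_mono {κ : Type} {D D' : Set (ℕ × ℕ)} (h : D ⊆ D') {w w' : κ → ℕ}
    (hO : OT D' w w') : OT D w w' :=
  ⟨fun k d hd => hO.1 k d (h hd), hO.2⟩

private theorem R2_RR_mono {κ : Type} {Ψ : Finset (MvPolynomial (Vr ⊕ κ) ℚ)} {a : ℕ → ℕ}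
    {N N' : ℕ} {D D' : Set (ℕ × ℕ)} {x x' : Vr → ℝ} (h : D ⊆ D') (hR : RR Ψ a N N' D x x') :
    RR Ψ a N N' D' x x' :=
  fun f hf w w' hw hw' hO => hR f hf w w' hw hw' (R2_OT_mono h hO)

private theorem R2_upd_zero (i : ℕ) (x : Vr → ℝ) (y : ℕ → ℝ) : upd 0 i x y = x := by
  funext v
  unfold upd
  rw [if_neg]
  omega

private theorem R2_upd_succ (s i : ℕ) (x : Vr → ℝ) (y : ℕ → ℝ) :
    upd (s + 1) i x y = Function.update (upd s i x y) (i, s) (y s) := by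
  funext v
  obtain ⟨v1, v2⟩ := v
  by_cases h : (v1, v2) = (i, s)
  · rw [h, Function.update_self]
    unfold upd
    rw [if_pos ⟨rfl, Nat.lt_succ_self s⟩]
  · rw [Function.update_of_ne h]
    unfold upd
    have hne : ¬ (v1 = i ∧ v2 = s) := fun h' => h (by rw [h'.1, h'.2])
    by_cases h2 : v1 = i ∧ v2 < s
    · rw [if_pos h2, if_pos ⟨h2.1, Nat.lt_succ_of_lt h2.2⟩]
    · rw [if_neg h2, if_neg]
      rintro ⟨h3, h4⟩
      simp only at h3 h4
      by_cases h5 : v2 = s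
      · exact hne ⟨h3, h5⟩
      · exact h2 ⟨h3, by omega⟩

private theorem R2_upd_upd (s i : ℕ) (x : Vr → ℝ) (y : ℕ → ℝ) (t : ℝ) :
    upd (s + 1) i x (Function.update y s t) = Function.update (upd s i x y) (i, s) t := by
  rw [R2_upd_succ, Function.update_self]
  congr 1
  funext v
  unfold upd
  by_cases h : v.1 = i ∧ v.2 < s
  · rw [if_pos h, if_pos h, Function.update_of_ne (by omega)]
  · rw [if_neg h, if_neg h]

private theorem R2_aux (h1 : St_R1) (i : ℕ) : ∀ (s : ℕ) (κ : Type) [Fintype κ]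
    (Ψ : Finset (MvPolynomial (Vr ⊕ κ) ℚ)),
    ∃ (κ' ι : Type) (_ : Fintype κ') (_ : Fintype ι) (G : Finset (MvPolynomial (Vr ⊕ κ') ℚ)),
    ∀ (a : ℕ → ℕ) (N : ℕ) (x : Vr → ℝ) (y : ℕ → ℝ), 0 < N →
      ∃ w : ι → ℕ, (∀ k, w k < N) ∧
        ∀ (N' : ℕ) (D : Set (ℕ × ℕ)) (x' : Vr → ℝ) (w' : ι → ℕ), (∀ k, w' k < N') →
          RR G a N N' D x x' → OT D w w' → ∃ y' : ℕ → ℝ,
            RR Ψ a N N' (D ∪ grf w w') (upd s i x y) (upd s i x' y') := by
  intro s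
  induction s with
  | zero =>
    intro κ _ Ψ
    refine ⟨κ, Empty, inferInstance, inferInstance, Ψ, ?_⟩
    intro a N x y _
    refine ⟨fun k => k.elim, fun k => k.elim, ?_⟩
    intro N' D x' w' _ hR _
    refine ⟨y, ?_⟩
    rw [R2_upd_zero, R2_upd_zero]
    exact R2_RR_mono Set.subset_union_left hR
  | succ s ih =>
    intro κ _ Ψ
    obtain ⟨G₁, hG₁⟩ := h1 κ Ψ (i, s)
    obtain ⟨κ', ι, _, _, G, hG⟩ := ih (Fin 3 × κ) G₁
    refine ⟨κ', ι ⊕ (Fin 2 × κ), inferInstance, inferInstance, G, ?_⟩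
    intro a N x y hN
    obtain ⟨w₁, hw₁, h⟩ := hG a N x y hN
    obtain ⟨w₂, hw₂, h'⟩ := hG₁ a N (upd s i x y) (y s) hN
    refine ⟨Sum.elim w₁ w₂, ?_, ?_⟩
    · rintro (k | k)
      · exact hw₁ k
      · exact hw₂ k
    intro N' D x' w' hw' hR hO
    have hO1 : OT D w₁ (w' ∘ Sum.inl) :=
      ⟨fun k d hd => hO.1 (Sum.inl k) d hd, fun k l => hO.2 (Sum.inl k) (Sum.inl l)⟩
    obtain ⟨y₁, hy₁⟩ := h N' D x' (w' ∘ Sum.inl) (fun k => hw' _) hR hO1
    have hO2 : OT (D ∪ grf w₁ (w' ∘ Sum.inl)) w₂ (w' ∘ Sum.inr) := by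
      refine ⟨?_, fun k l => hO.2 (Sum.inr k) (Sum.inr l)⟩
      rintro k d (hd | ⟨l, rfl⟩)
      · exact hO.1 (Sum.inr k) d hd
      · exact ⟨hO.2 (Sum.inr k) (Sum.inl l), hO.2 (Sum.inl l) (Sum.inr k)⟩
    obtain ⟨t, ht⟩ := h' N' (D ∪ grf w₁ (w' ∘ Sum.inl)) (upd s i x' y₁) (w' ∘ Sum.inr)
      (fun k => hw' _) hy₁ hO2
    refine ⟨Function.update y₁ s t, ?_⟩
    rw [R2_upd_upd, R2_upd_succ]
    refine R2_RR_mono ?_ ht
    rintro d ((hd | ⟨k, rfl⟩) | ⟨k, rfl⟩)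
    · exact Or.inl hd
    · exact Or.inr ⟨Sum.inl k, rfl⟩
    · exact Or.inr ⟨Sum.inr k, rfl⟩

private theorem R2_fin (s : ℕ) : {t : Tm | t.code.length ≤ s}.Finite := by
  have hinj : Function.Injective Tm.code := by
    intro t t' h
    exact (Tm.code_inj (r := []) (r' := []) (by rw [h])).1
  exact (List.finite_length_le Bool s).preimage hinj.injOn

theorem R2 (h1 : St_R1) : St_R2 := by
  classical
  intro κ _ Ψ s i
  obtain ⟨κ', ι, _, _, G, hG⟩ := R2_aux h1 i s κ Ψ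
  haveI : Fintype {t : Tm | t.code.length ≤ s} := (R2_fin s).fintype
  let e : (ι ⊕ {t : Tm | t.code.length ≤ s}) ≃ Fin (Fintype.card (ι ⊕ {t : Tm | t.code.length ≤ s})) :=
    Fintype.equivFin _
  refine ⟨κ', inferInstance, G, Fintype.card (ι ⊕ {t : Tm | t.code.length ≤ s}), ?_⟩
  intro a N x y ha hN
  obtain ⟨w₁, hw₁, h⟩ := hG a N x y hN
  let w₂ : {t : Tm | t.code.length ≤ s} → ℕ := fun t =>
    if h : ∃ p < N, aeval (upd s i x y) (tp t.1) = (a p : ℝ) then h.choose else 0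
  have hw₂ : ∀ t, w₂ t < N := by
    intro t
    show (if h : ∃ p < N, aeval (upd s i x y) (tp t.1) = (a p : ℝ) then h.choose else 0) < N
    split
    · rename_i h
      exact h.choose_spec.1
    · exact hN
  refine ⟨fun k => Sum.elim w₁ w₂ (e.symm k), ?_, ?_, ?_⟩
  · intro k
    show Sum.elim w₁ w₂ (e.symm k) < N
    rcases e.symm k with k' | k'
    · exact hw₁ k'
    · exact hw₂ k'
  · intro t ht p hp hv
    refine ⟨e (Sum.inr ⟨t, ht⟩), ?_⟩
    show Sum.elim w₁ w₂ (e.symm (e (Sum.inr ⟨t, ht⟩))) = p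
    rw [Equiv.symm_apply_apply]
    show (if h : ∃ p < N, aeval (upd s i x y) (tp t) = (a p : ℝ) then h.choose else 0) = p
    have hex : ∃ p < N, aeval (upd s i x y) (tp t) = (a p : ℝ) := ⟨p, hp, hv⟩
    rw [dif_pos hex]
    apply ha.injective
    have h2 : (a hex.choose : ℝ) = (a p : ℝ) := hex.choose_spec.2.symm.trans hv
    exact_mod_cast h2
  · intro N' D x' w' hw' hR hO
    have hO1 : OT D w₁ (fun k => w' (e (Sum.inl k))) := by
      refine ⟨fun k d hd => ?_, fun k l => ?_⟩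
      · have := hO.1 (e (Sum.inl k)) d hd
        simpa using this
      · have := hO.2 (e (Sum.inl k)) (e (Sum.inl l))
        simpa using this
    obtain ⟨y', hy'⟩ := h N' D x' (fun k => w' (e (Sum.inl k))) (fun k => hw' _) hR hO1
    refine ⟨y', R2_RR_mono ?_ hy'⟩
    rintro d (hd | ⟨k, rfl⟩)
    · exact Or.inl hd
    · refine Or.inr ⟨e (Sum.inl k), ?_⟩
      simp

end Pool.Agent.RHT
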