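import Pool.Agent.RHT.St

/-!
# RHT, module T1: transfer of the truth of prenex sentences
-/

set_option autoImplicit false

open MvPolynomial
open Pool.Agent.RH

namespace Pool.Agent.RHT

private theorem T1_tr (s i : ℕ) (b : ℕ → ℕ → ℝ) (y : ℕ → ℝ) :
    tr s (Function.update b i y) = upd s i (tr s b) y := by
  funext v
  unfold tr upd
  by_cases h1 : v.1 = i
  · by_cases h2 : v.2 < s
    · rw [if_pos h2, if_pos ⟨h1, h2⟩, h1, Function.update_self]
    · rw [if_neg h2, if_neg (fun h => h2 h.2)]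
      exact (if_neg h2).symm
  · rw [if_neg (fun h : v.1 = i ∧ v.2 < s => h1 h.1), Function.update_of_ne h1]

private theorem T1_OT {κ : Type} {D : Set (ℕ × ℕ)} {w w' : κ → ℕ}
    (h : OT (Prod.swap '' D) w' w) : OT D w w' := by
  refine ⟨fun k d hd => ?_, fun k l => (h.2 k l).symm⟩
  have := h.1 k d.swap (Set.mem_image_of_mem _ hd)
  exact ⟨this.1.symm, this.2.symm⟩

private theorem T1_RR {κ : Type} {Ψ : Finset (MvPolynomial (Vr ⊕ κ) ℚ)} {a : ℕ → ℕ} {N N' : ℕ}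
    {D : Set (ℕ × ℕ)} {x x' : Vr → ℝ} (h : RR Ψ a N N' D x x') :
    RR Ψ a N' N (Prod.swap '' D) x' x :=
  fun f hf w w' hw hw' ho => (h f hf w' w hw' hw (T1_OT ho)).symm

private theorem T1_Cd {s : ℕ} {a : ℕ → ℕ} {N n : ℕ} {x : Vr → ℝ} {D : Set (ℕ × ℕ)}
    {w w' : Fin n → ℕ} (h : Cd s a N x (Set.range w)) :
    Cd s a N x (Prod.snd '' (Prod.swap '' (D ∪ grf w w'))) := by
  intro t ht p hp e
  obtain ⟨k, hk⟩ := h t ht p hp e
  exact ⟨(w' k, w k), ⟨(w k, w' k), Or.inr ⟨k, rfl⟩, rfl⟩, hk⟩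

theorem T1 : St_K2 → St_R2 → St_F1 → St_T1 := by
  intro hK2 hR2 hF1 s K h1 h2 k
  obtain ⟨_, _, _, _, hK5⟩ := hK2
  induction k with
  | zero =>
    intro i
    obtain ⟨Ψ, hΨ⟩ := hF1 s K h1 h2
    refine ⟨Unit, inferInstance, Ψ, 0, ?_⟩
    intro C _ a n U V D B b b' ha hU hV hB hK hR hC ψ hψ
    have e := hΨ C a n U V D B b b' ha hU hV hB hK hR (hC rfl) ψ hψ
    unfold truth
    exact ⟨e.1, e.2⟩
  | succ k ih =>
    intro i
    obtain ⟨κ₁, _, G₁, C₁, hG₁⟩ := ih (i + 1)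
    obtain ⟨κ', hκ', G, m, hG⟩ := hR2 κ₁ G₁ s i
    refine ⟨κ', hκ', G, max C₁ m, ?_⟩
    intro C hC a n U V D B b b' ha hU hV hB hK hR _ ψ hψ
    have core : ∀ y : ℕ → ℝ, ∃ (y' : ℕ → ℝ) (D₁ : Set (ℕ × ℕ)), KK (Rr C k) V U D₁ ∧
        RR G₁ a (V.length + 2) (U.length + 2) D₁ (tr s (Function.update b' i y'))
          (tr s (Function.update b i y)) ∧
        Cd s a (U.length + 2) (tr s (Function.update b i y)) (Prod.snd '' D₁) := by
      intro y
      obtain ⟨w, hw, hcd, hw2⟩ := hG a (U.length + 2) (tr s b) y ha (Nat.succ_pos _)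
      obtain ⟨w', hw', hot, hkk⟩ := hK5 (Fin m) C k U V D hK
        (by rw [Fintype.card_fin]; exact le_trans (le_max_right _ _) hC) w hw
      obtain ⟨y', hy'⟩ := hw2 (V.length + 2) D (tr s b') w' hw' hR hot
      refine ⟨y', Prod.swap '' (D ∪ grf w w'), hkk, ?_, ?_⟩
      · rw [T1_tr, T1_tr]
        exact T1_RR hy'
      · rw [T1_tr]
        exact T1_Cd hcd
    have hC1 : C₁ ≤ C := le_trans (le_max_left _ _) hC
    constructor
    · intro h
      obtain ⟨y, hy⟩ := h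
      obtain ⟨y', D₁, c1, c2, c3⟩ := core y
      exact ⟨y', (hG₁ C hC1 a n V U D₁ B _ _ ha hV hU hB c1 c2 (fun _ => Or.inr c3) ψ hψ).2 hy⟩
    · intro h y
      obtain ⟨y', D₁, c1, c2, c3⟩ := core y
      exact (hG₁ C hC1 a n V U D₁ B _ _ ha hV hU hB c1 c2 (fun _ => Or.inr c3) ψ hψ).1 (h y')

end Pool.Agent.RHT
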