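import Pool.Agent.RHT.St

/-!
# MP_f917a3_lc : elementary properties of the word game
-/

set_option autoImplicit false

namespace Pool.Agent.RHT

private lemma W1_refl (R : List ℕ → List ℕ → Prop) (h : ∀ u, R u u) :
    ∀ c u, Ss R c u u := by
  intro c
  induction c with
  | zero => intro u; exact h u
  | succ c ih =>
    intro u
    refine ⟨ih u, ?_⟩
    intro p a q hu
    exact ⟨p, q, hu, ih p, ih q⟩

private lemma W1_trans (R : List ℕ → List ℕ → Prop) (h : ∀ u v z, R u v → R v z → R u z) :
    ∀ c u v z, Ss R c u v → Ss R c v z → Ss R c u z := by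
  intro c
  induction c with
  | zero => intro u v z h1 h2; exact h z v u h2 h1
  | succ c ih =>
    intro u v z h1 h2
    refine ⟨ih u v z h1.1 h2.1, ?_⟩
    intro p a q hu
    obtain ⟨p', q', hv, hp, hq⟩ := h1.2 p a q hu
    obtain ⟨p'', q'', hz, hp', hq'⟩ := h2.2 p' a q' hv
    exact ⟨p'', q'', hz, ih _ _ _ hp hp', ih _ _ _ hq hq'⟩

private lemma W1_mono (R R' : List ℕ → List ℕ → Prop) (h : ∀ u v, R u v → R' u v) :
    ∀ c u v, Ss R c u v → Ss R' c u v := by
  intro c
  induction c with
  | zero => intro u v h1; exact h v u h1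
  | succ c ih =>
    intro u v h1
    refine ⟨ih u v h1.1, ?_⟩
    intro p a q hu
    obtain ⟨p', q', hv, hp, hq⟩ := h1.2 p a q hu
    exact ⟨p', q', hv, ih _ _ hp, ih _ _ hq⟩

private lemma W1_le (R : List ℕ → List ℕ → Prop) (c c' : ℕ) (h : c ≤ c') :
    ∀ u v, Ss R c' u v → Ss R c u v := by
  induction h with
  | refl => intro u v h1; exact h1
  | step _ ih => intro u v h1; exact ih u v h1.1

private lemma W1_app (R : List ℕ → List ℕ → Prop)
    (h : ∀ u v u' v', R u v → R u' v' → R (u ++ u') (v ++ v')) :
    ∀ c u v u' v', Ss R c u v → Ss R c u' v' → Ss R c (u ++ u') (v ++ v') := by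
  intro c
  induction c with
  | zero => intro u v u' v' h1 h2; exact h v u v' u' h1 h2
  | succ c ih =>
    intro u v u' v' h1 h2
    refine ⟨ih u v u' v' h1.1 h2.1, ?_⟩
    intro p a q hu
    rw [List.append_eq_append_iff] at hu
    rcases hu with ⟨s, hs1, hs2⟩ | ⟨s, hs1, hs2⟩
    · -- `p = u ++ s`, `u' = s ++ a :: q`
      obtain ⟨p', q', hv, hp, hq⟩ := h2.2 s a q hs2
      refine ⟨v ++ p', q', ?_, ?_, hq⟩
      · rw [hv, List.append_assoc]
      · rw [hs1]
        exact ih _ _ _ _ h1.1 hp
    · -- `u = p ++ s`, `a :: q = s ++ u'`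
      cases s with
      | nil =>
        rw [List.append_nil] at hs1
        rw [List.nil_append] at hs2
        obtain ⟨p', q', hv, hp, hq⟩ := h2.2 [] a q (by rw [List.nil_append]; exact hs2.symm)
        refine ⟨v ++ p', q', ?_, ?_, hq⟩
        · rw [hv, List.append_assoc]
        · have h3 := ih _ _ _ _ h1.1 hp
          rw [List.append_nil, hs1] at h3
          exact h3
      | cons b s =>
        rw [List.cons_append, List.cons.injEq] at hs2
        obtain ⟨p', q', hv, hp, hq⟩ := h1.2 p a s (by rw [hs1, hs2.1])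
        refine ⟨p', q' ++ v', ?_, hp, ?_⟩
        · rw [hv, List.append_assoc, List.cons_append]
        · rw [hs2.2]
          exact ih _ _ _ _ hq h2.1

theorem W1 : St_W1 := by
  intro C i
  have h1 : ∀ i u, Rr C i u u := by
    intro i
    induction i with
    | zero => intro u; exact Iff.rfl
    | succ i ih => exact W1_refl _ ih C
  have h2 : ∀ i u v z, Rr C i u v → Rr C i v z → Rr C i u z := by
    intro i
    induction i with
    | zero =>
      intro u v z h h'
      exact Iff.trans h h'
    | succ i ih => exact W1_trans _ ih C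
  have h3 : ∀ i u v, Rr C (i + 1) u v → Rr C i v u := by
    intro i u v h
    exact W1_le (Rr C i) 0 C (Nat.zero_le C) u v h
  have h3' : ∀ i u v, Rr C (i + 1) u v → Rr C i u v := by
    intro i
    induction i with
    | zero =>
      intro u v h
      exact Iff.symm (h3 0 u v h)
    | succ i ih =>
      intro u v h
      exact W1_mono (Rr C (i + 1)) (Rr C i) ih C u v h
  have h4 : ∀ i u v u' v', Rr C i u v → Rr C i u' v' → Rr C i (u ++ u') (v ++ v') := by
    intro i
    induction i with
    | zero =>
      intro u v u' v' h h'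
      show u ++ u' = [] ↔ v ++ v' = []
      rw [List.append_eq_nil_iff, List.append_eq_nil_iff]
      exact and_congr h h'
    | succ i ih => exact W1_app _ ih C
  have h5 : ∀ i C' u v, C ≤ C' → Rr C' i u v → Rr C i u v := by
    intro i
    induction i with
    | zero => intro C' u v _ h; exact h
    | succ i ih =>
      intro C' u v hC h
      exact W1_le (Rr C i) C C' hC u v
        (W1_mono (Rr C' i) (Rr C i) (fun u v h' => ih C' u v hC h') C' u v h)
  exact ⟨h1 i, h2 i, fun u v h => ⟨h3' i u v h, h3 i u v h⟩, h4 i, h5 i,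
    W1_app (Rr C i) (h4 i), W1_refl (Rr C i) (h1 i)⟩

end Pool.Agent.RHT
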