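import Pool.Agent.RHT.St

/-! RHT W4: words which differ for `val i` but cannot be distinguished. -/

set_option autoImplicit false

namespace Pool.Agent.RHT

private theorem W4_rep_succ (u : List ℕ) (n : ℕ) : rep u (n + 1) = u ++ rep u n := by
  simp [rep, List.replicate_succ]

private theorem W4_mem_rep {u : List ℕ} {n c : ℕ} (h : c ∈ rep u n) : c ∈ u := by
  induction n with
  | zero => simp [rep] at h
  | succ n ih =>
    rw [W4_rep_succ, List.mem_append] at h
    rcases h with h | h
    · exact h
    · exact ih h

/-- two lists without `m` in front of a letter `m` -/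
private theorem W4_split {m : ℕ} {x y : List ℕ} (hx : m ∉ x) (hy : m ∉ y) {s t : List ℕ}
    (h : x ++ m :: s = y ++ m :: t) : x = y := by
  induction x generalizing y with
  | nil =>
    cases y with
    | nil => rfl
    | cons b y =>
      simp only [List.nil_append, List.cons_append, List.cons.injEq] at h
      exact absurd (by rw [h.1]; exact List.mem_cons_self) hy
  | cons a x ih =>
    cases y with
    | nil =>
      simp only [List.nil_append, List.cons_append, List.cons.injEq] at h
      exact absurd (by rw [← h.1]; exact List.mem_cons_self) hx
    | cons b y =>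
      simp only [List.cons_append, List.cons.injEq] at h
      rw [h.1, ih (fun h' => hx (List.mem_cons_of_mem _ h'))
        (fun h' => hy (List.mem_cons_of_mem _ h')) h.2]

private theorem W4_factor {m : ℕ} {w : List ℕ} (hw : m ∉ w) (n : ℕ) :
    ∀ p z q : List ℕ, rep (m :: w) n = p ++ m :: (z ++ m :: q) → m ∉ z → z = w := by
  induction n with
  | zero =>
    intro p z q h
    simp [rep] at h
  | succ n ih =>
    intro p z q h hz
    rw [W4_rep_succ] at h
    cases p with
    | nil =>
      simp only [List.nil_append, List.cons_append, List.cons.injEq, true_and] at h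
      cases n with
      | zero =>
        have h2 : rep (m :: w) 0 = [] := by simp [rep]
        rw [h2, List.append_nil] at h
        exact absurd (by rw [h]; simp) hw
      | succ k =>
        rw [W4_rep_succ, List.cons_append] at h
        exact (W4_split hw hz h).symm
    | cons a p =>
      simp only [List.cons_append, List.cons.injEq] at h
      obtain ⟨-, h⟩ := h
      rcases List.append_eq_append_iff.1 h with ⟨s, hs1, hs2⟩ | ⟨s, hs1, hs2⟩
      · -- p = w ++ s
        exact ih s z q hs2 hz
      · -- w = p ++ s
        cases s with
        | nil =>
          refine ih [] z q ?_ hz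
          simpa using hs2.symm
        | cons b s =>
          simp only [List.cons_append, List.cons.injEq] at hs2
          exact absurd (by rw [hs1, ← hs2.1]; simp) hw

theorem W4 (h1 : St_W1) (h3 : St_W3) : St_W4 := by
  intro C i
  induction i with
  | zero =>
    obtain ⟨θ, hθ⟩ := h3 C 0 [0] [1] (by simp [Rr])
    refine ⟨_, _, hθ θ θ θ le_rfl le_rfl le_rfl, ?_, ?_, ?_, ?_⟩
    · simp [val]
    · intro h
      have := W4_mem_rep h
      simp at this
    · intro c hc
      have := W4_mem_rep hc
      simp only [List.mem_singleton] at this
      omega
    · intro c hc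
      simp only [List.append_assoc, List.cons_append, List.nil_append, List.mem_append,
        List.mem_cons] at hc
      rcases hc with hc | hc | hc
      · have := W4_mem_rep hc
        simp only [List.mem_singleton] at this
        omega
      · omega
      · have := W4_mem_rep hc
        simp only [List.mem_singleton] at this
        omega
  | succ i ih =>
    obtain ⟨lo, wi, hR, hwi, hlo, hlol, hwil⟩ := ih
    have hmlo : i + 2 ∉ lo := fun h => lt_irrefl _ (hlol _ h)
    have hmwi : i + 2 ∉ wi := fun h => lt_irrefl _ (hwil _ h)
    obtain ⟨hrefl, -, -, happ, -⟩ := h1 C (i + 1)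
    have hvu : Rr C (i + 1) ((i + 2) :: lo) ((i + 2) :: wi) :=
      happ [i + 2] [i + 2] lo wi (hrefl _) hR
    obtain ⟨θ, hθ⟩ := h3 C (i + 1) ((i + 2) :: wi) ((i + 2) :: lo) hvu
    have hle : θ ≤ θ + 1 := Nat.le_succ θ
    refine ⟨_, _, hθ (θ + 1) (θ + 1) (θ + 1) hle hle hle, ?_, ?_, ?_, ?_⟩
    · refine ⟨rep ((i + 2) :: wi) (θ + 1), lo, wi ++ rep ((i + 2) :: wi) θ, ?_, hmlo, hlo⟩
      conv_lhs => rw [W4_rep_succ ((i + 2) :: wi) θ]
      rw [W4_rep_succ ((i + 2) :: wi) θ]
      simp only [List.append_assoc, List.cons_append]
    · rintro ⟨p, z, q, h, hz, hval⟩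
      rw [W4_factor hmwi _ p z q h hz] at hval
      exact hval hwi
    · intro c hc
      rcases List.mem_cons.1 (W4_mem_rep hc) with h | h
      · omega
      · have := hwil c h
        omega
    · intro c hc
      simp only [List.append_assoc, List.cons_append, List.mem_append, List.mem_cons] at hc
      rcases hc with hc | hc | hc | hc
      · rcases List.mem_cons.1 (W4_mem_rep hc) with h | h
        · omega
        · have := hwil c h
          omega
      · omega
      · have := hlol c hc
        omega
      · rcases List.mem_cons.1 (W4_mem_rep hc) with h | h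
        · omega
        · have := hwil c h
          omega

end Pool.Agent.RHT
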