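import Pool.Agent.RHT.D1
import Pool.Agent.RHT.END
import Pool.Agent.RHT.F1
import Pool.Agent.RHT.H1
import Pool.Agent.RHT.H2
import Pool.Agent.RHT.H3
import Pool.Agent.RHT.I1
import Pool.Agent.RHT.K1
import Pool.Agent.RHT.K2
import Pool.Agent.RHT.O1
import Pool.Agent.RHT.O2
import Pool.Agent.RHT.O3
import Pool.Agent.RHT.R1
import Pool.Agent.RHT.R2
import Pool.Agent.RHT.T1
import Pool.Agent.RHT.V1
import Pool.Agent.RHT.V2
import Pool.Agent.RHT.W1
import Pool.Agent.RHT.W2
import Pool.Agent.RHT.W3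
import Pool.Agent.RHT.W4
import Pool.Agent.RHT.X1

/-!
# Tame oracles for the real hierarchy : assembly, first version
-/

set_option autoImplicit false

namespace Pool.Agent.RHT

theorem main1 : St_END :=
  END (D1 (I1 (T1 (K2 K1) (R2 R1) F1) (H3 H1 H2) W1 (W4 W1 (W3 W1 (W2 W1))) (K2 K1)) V1 O1) X1 O1
    O2 O3 V2

end Pool.Agent.RHT
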