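import Pool.Agent.RHT.St2

/-!
# D2: one requirement of the diagonalisation, with a bound for the number of labelled points
-/

set_option autoImplicit false

open Pool.Agent.RH

namespace Pool.Agent.RHT

/-- the oracle parts below `n`, the part `n` replaced by `e` -/
private def D2_E (E : ℕ → Set (ℕ × ℕ)) (n : ℕ) (e : Set (ℕ × ℕ)) : ℕ → Set (ℕ × ℕ) :=
  fun n' => if n' < n then E n' else if n' = n then e else ∅

private theorem D2_mem_LL_length {n : ℕ} {e : Set (ℕ × ℕ)} {l : List ℝ} (h : l ∈ LL n e) :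
    l.length = n + 3 := by
  obtain ⟨t, _, rfl⟩ := h
  simp

private theorem D2_ore_E (T : Set Qf) (E : ℕ → Set (ℕ × ℕ)) (n : ℕ) (e : Set (ℕ × ℕ)) :
    ore T (D2_E E n e) = ore T (D2_E E n ∅) ∪ LL n e := by
  ext l
  constructor
  · rintro (h | ⟨n', h⟩)
    · exact Or.inl (Or.inl h)
    · unfold D2_E at h
      rcases lt_trichotomy n' n with h1 | h1 | h1
      · rw [if_pos h1] at h
        refine Or.inl (Or.inr ⟨n', ?_⟩)
        unfold D2_E
        rw [if_pos h1]
        exact h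
      · subst h1
        rw [if_neg (lt_irrefl _), if_pos rfl] at h
        exact Or.inr h
      · rw [if_neg (by omega), if_neg (by omega)] at h
        obtain ⟨t, ht, _⟩ := h
        exact ht.elim
  · rintro ((h | ⟨n', h⟩) | h)
    · exact Or.inl h
    · unfold D2_E at h
      rcases lt_trichotomy n' n with h1 | h1 | h1
      · rw [if_pos h1] at h
        refine Or.inr ⟨n', ?_⟩
        unfold D2_E
        rw [if_pos h1]
        exact h
      · subst h1
        rw [if_neg (lt_irrefl _), if_pos rfl] at h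
        obtain ⟨t, ht, _⟩ := h
        exact ht.elim
      · rw [if_neg (by omega), if_neg (by omega)] at h
        obtain ⟨t, ht, _⟩ := h
        exact ht.elim
    · refine Or.inr ⟨n, ?_⟩
      unfold D2_E
      rw [if_neg (lt_irrefl _), if_pos rfl]
      exact h

private theorem D2_ore_congr (T T' : Set Qf) (E E' : ℕ → Set (ℕ × ℕ)) (s : ℕ)
    (hT : ∀ χ : Qf, χ.code.length < s → (χ ∈ T ↔ χ ∈ T')) (hE : ∀ n, n < s → E n = E' n)
    (l : List ℝ) (hl : l.length < s) : l ∈ ore T E ↔ l ∈ ore T' E' := by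
  have key : ∀ (T T' : Set Qf) (E E' : ℕ → Set (ℕ × ℕ)),
      (∀ χ : Qf, χ.code.length < s → (χ ∈ T ↔ χ ∈ T')) → (∀ n, n < s → E n = E' n) →
      l ∈ ore T E → l ∈ ore T' E' := by
    intro T T' E E' hT hE h
    rcases h with ⟨χ, hχ, rfl⟩ | ⟨n, h⟩
    · refine Or.inl ⟨χ, (hT χ ?_).mp hχ, rfl⟩
      have h1 : (0 :: bits χ.code).length = χ.code.length + 1 := by simp [bits]
      omega
    · have h1 := D2_mem_LL_length h
      refine Or.inr ⟨n, ?_⟩
      rw [← hE n (by omega)]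
      exact h
  exact ⟨key T T' E E' hT hE, key T' T E' E (fun χ h => (hT χ h).symm) fun n h => (hE n h).symm⟩

private theorem D2_lbl_sub (a : ℕ → ℕ) (U : List ℕ) : lbl a U ⊆
    (fun q => ((U[q]?).getD 0, a (q + 1))) '' ((Finset.range U.length : Finset ℕ) : Set ℕ) := by
  rintro ⟨c, d⟩ ⟨p, hp, hd⟩
  cases p with
  | zero => simp [lab] at hp
  | succ q =>
    have h1 : U[q]? = some c := hp
    refine ⟨q, ?_, ?_⟩
    · rw [Finset.mem_coe, Finset.mem_range]
      exact (List.getElem?_eq_some_iff.mp h1).1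
    · simp only [h1, Option.getD_some]
      rw [Prod.mk.injEq]
      exact ⟨rfl, hd.symm⟩

private theorem D2_lbl_finite (a : ℕ → ℕ) (U : List ℕ) : (lbl a U).Finite :=
  Set.Finite.subset ((Finset.range U.length).finite_toSet.image _) (D2_lbl_sub a U)

private theorem D2_lbl_ncard (a : ℕ → ℕ) (U : List ℕ) : (lbl a U).ncard ≤ U.length := by
  refine (Set.ncard_le_ncard (D2_lbl_sub a U)
    ((Finset.range U.length).finite_toSet.image _)).trans ?_
  refine (Set.ncard_image_le (Finset.range U.length).finite_toSet).trans ?_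
  rw [Set.ncard_coe_finset, Finset.card_range]

private theorem D2_bas (T : Set Qf) (E : ℕ → Set (ℕ × ℕ)) (n s : ℕ) (K : Finset ℕ)
    (h0 : 0 ∈ K) (h1 : 1 ∈ K) (h2 : 2 ∈ K)
    (hK : ∀ n', n' < n → ∀ t ∈ E n', t.1 ∈ K ∧ t.2 ∈ K) : Bas s K (ore T (D2_E E n ∅)) := by
  rintro l (⟨χ, _, rfl⟩ | ⟨n', h⟩) _ z hz
  · rw [List.mem_cons] at hz
    rcases hz with rfl | hz
    · exact ⟨0, h0, by simp⟩
    · unfold bits at hz
      rw [List.mem_map] at hz
      obtain ⟨b, _, rfl⟩ := hz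
      cases b
      · exact ⟨0, h0, by simp⟩
      · exact ⟨1, h1, by simp⟩
  · obtain ⟨t, ht, rfl⟩ := h
    unfold D2_E at ht
    by_cases hn : n' < n
    · rw [if_pos hn] at ht
      obtain ⟨ha, hb⟩ := hK n' hn t ht
      rw [List.mem_append] at hz
      rcases hz with hz | hz
      · rw [List.mem_replicate] at hz
        exact ⟨1, h1, by rw [hz.2]; simp⟩
      · simp only [List.mem_cons, List.not_mem_nil, or_false] at hz
        rcases hz with rfl | rfl | rfl
        · exact ⟨2, h2, by simp⟩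
        · exact ⟨t.1, ha, rfl⟩
        · exact ⟨t.2, hb, rfl⟩
    · rw [if_neg hn] at ht
      by_cases hn' : n' = n
      · rw [if_pos hn'] at ht
        exact ht.elim
      · rw [if_neg hn'] at ht
        exact ht.elim

private theorem D2_Fu_congr (hO1 : St_O1) (O O' : Set (List ℝ)) (c j : ℕ) (ψ : Qf)
    (h : ∀ l : List ℝ, l.length < ψ.code.length → (l ∈ O ↔ l ∈ O')) :
    Fu c O j ψ ↔ Fu c O' j ψ := by
  match c with
  | 0 => exact hO1.1 O O' _ h ψ le_rfl _ _ _ _
  | 1 => exact hO1.1 O O' _ h ψ le_rfl _ _ _ _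
  | _ + 2 => exact hO1.1 O O' _ h ψ le_rfl _ _ _ _

/-- **D2**. -/
theorem D2 (hI2 : St_I2) (hV1 : St_V1) (hO1 : St_O1) (hY1 : St_Y1) : St_D2 := by
  classical
  intro k c j hk hkj f hf E m₀ hE
  obtain ⟨m, hm₀, hm⟩ := hY1 f hf j m₀
  by_cases hcode : ∃ ψ : Qf, f (List.replicate m true) = ψ.code
  swap
  · refine ⟨E, m₀, le_rfl, fun _ _ => rfl, hE, fun E'' _ _ T _ hall => ?_⟩
    obtain ⟨ψ, h, _⟩ := hall (List.replicate m true)
    exact hcode ⟨ψ, h⟩
  obtain ⟨ψ, hψ⟩ := hcode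
  rw [hψ] at hm
  -- the entries of the lower parts
  have hKE : ∃ K : Finset ℕ, 0 ∈ K ∧ 1 ∈ K ∧ 2 ∈ K ∧
      ∀ n', n' < m → ∀ t ∈ E n', t.1 ∈ K ∧ t.2 ∈ K := by
    refine ⟨{0, 1, 2} ∪ (Finset.range m).biUnion (fun n' =>
      ((hE n').1.toFinset.image Prod.fst) ∪ ((hE n').1.toFinset.image Prod.snd)), by simp, by simp,
      by simp, ?_⟩
    intro n' hn' t ht
    constructor
    · refine Finset.mem_union_right _ (Finset.mem_biUnion.mpr ⟨n', Finset.mem_range.mpr hn', ?_⟩)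
      exact Finset.mem_union_left _ (Finset.mem_image_of_mem _ ((hE n').1.mem_toFinset.mpr ht))
    · refine Finset.mem_union_right _ (Finset.mem_biUnion.mpr ⟨n', Finset.mem_range.mpr hn', ?_⟩)
      exact Finset.mem_union_right _ (Finset.mem_image_of_mem _ ((hE n').1.mem_toFinset.mpr ht))
  obtain ⟨K, h0, h1, h2, hK⟩ := hKE
  obtain ⟨a, Lo, Wi, ha, hWi, hLo, hlLo, hlWi, hI⟩ := hI2 ψ.code.length j K
  obtain ⟨TL, hTL⟩ := hO1.2.1 k (D2_E E m (lbl a Lo))
  obtain ⟨TW, hTW⟩ := hO1.2.1 k (D2_E E m (lbl a Wi))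
  have hBas : Bas ψ.code.length K (ore TL (D2_E E m ∅)) := D2_bas TL E m _ K h0 h1 h2 hK
  -- the two fixed points agree on short codes
  have hTT : ∀ (N : ℕ) (χ : Qf), χ.code.length = N → χ.code.length ≤ ψ.code.length →
      (χ ∈ TL ↔ χ ∈ TW) := by
    intro N
    induction N using Nat.strong_induction_on with
    | _ N ih =>
      intro χ hχN hχs
      have hloc : ∀ l : List ℝ, l.length < χ.code.length →
          (l ∈ ore TW (D2_E E m (lbl a Wi)) ↔ l ∈ ore TL (D2_E E m (lbl a Wi))) := by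
        intro l hl
        refine D2_ore_congr _ _ _ _ χ.code.length (fun χ' hχ' => ?_) (fun _ _ => rfl) l hl
        exact (ih χ'.code.length (by omega) χ' rfl (by omega)).symm
      have e1 : SigmaTrue (ore TW (D2_E E m (lbl a Wi))) k χ ↔
          SigmaTrue (ore TL (D2_E E m (lbl a Wi))) k χ :=
        hO1.1 _ _ χ.code.length hloc χ le_rfl _ _ _ _
      have e2 := ((hI m (ore TL (D2_E E m ∅)) hBas χ hχs).2 k hk hkj).1
      rw [← D2_ore_E, ← D2_ore_E] at e2
      rw [hTL χ, hTW χ, e1, e2]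
  have hTT' : ∀ χ : Qf, χ.code.length < ψ.code.length → (χ ∈ TW ↔ χ ∈ TL) :=
    fun χ hχ => (hTT _ χ rfl hχ.le).symm
  -- the transfer
  have htr : Fu c (ore TW (D2_E E m (lbl a Wi))) j ψ → Fu c (ore TL (D2_E E m (lbl a Lo))) j ψ := by
    intro h
    have hloc : ∀ l : List ℝ, l.length < ψ.code.length →
        (l ∈ ore TW (D2_E E m (lbl a Wi)) ↔ l ∈ ore TL (D2_E E m (lbl a Wi))) := fun l hl =>
      D2_ore_congr _ _ _ _ ψ.code.length hTT' (fun _ _ => rfl) l hl
    have h3 := (D2_Fu_congr hO1 _ _ c j ψ hloc).mp h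
    have h4 := hI m (ore TL (D2_E E m ∅)) hBas ψ le_rfl
    rw [← D2_ore_E, ← D2_ore_E] at h4
    have hj : 1 ≤ j := hk.trans hkj
    match c, h3 with
    | 0, h3 => exact h4.1 h3
    | 1, h3 => exact (h4.2 j hj le_rfl).1.mpr h3
    | _ + 2, h3 => exact (h4.2 j hj le_rfl).2.mpr h3
  -- the choice
  have hchoice : ∃ (X : List ℕ) (T : Set Qf), X.length ≤ 2 ^ m ∧ Fix k T (D2_E E m (lbl a X)) ∧
      ¬ (val j X ↔ Fu c (ore T (D2_E E m (lbl a X))) j ψ) := by
    by_cases hF : Fu c (ore TW (D2_E E m (lbl a Wi))) j ψ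
    · exact ⟨Lo, TL, hlLo.trans hm, hTL, fun h => hLo (h.mpr (htr hF))⟩
    · exact ⟨Wi, TW, hlWi.trans hm, hTW, fun h => hF (h.mp hWi)⟩
  obtain ⟨X, T, hXl, hT, hX⟩ := hchoice
  refine ⟨D2_E E m (lbl a X), max (m + 1) (ψ.code.length + 1), by omega, ?_, ?_, ?_⟩
  · intro n hn
    unfold D2_E
    rw [if_pos (lt_of_lt_of_le hn hm₀)]
  · intro n
    unfold D2_E
    split_ifs with hn1 hn2
    · exact hE n
    · refine ⟨D2_lbl_finite a X, ?_⟩
      rw [hn2]
      exact (D2_lbl_ncard a X).trans hXl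
    · exact ⟨Set.finite_empty, by simp⟩
  · intro E'' _ hE'' T'' hT'' hall
    obtain ⟨ψ', hψ', hiff⟩ := hall (List.replicate m true)
    have hψψ : ψ' = ψ := Qf.code_injective (hψ'.symm.trans hψ)
    subst hψψ
    apply hX
    have hsame : ∀ χ : Qf, χ.code.length ≤ ψ'.code.length → (χ ∈ T'' ↔ χ ∈ T) :=
      hO1.2.2 k ψ'.code.length E'' _ T'' T hT'' hT fun n hn => hE'' n (by omega)
    have hFu : Fu c (ore T'' E'') j ψ' ↔ Fu c (ore T (D2_E E m (lbl a X))) j ψ' := by
      refine D2_Fu_congr hO1 _ _ c j ψ' fun l hl => ?_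
      exact D2_ore_congr _ _ _ _ ψ'.code.length (fun χ hχ => hsame χ hχ.le)
        (fun n hn => hE'' n (by omega)) l hl
    have hE''m : E'' m = lbl a X := by
      rw [hE'' m (by omega)]
      unfold D2_E
      rw [if_neg (lt_irrefl _), if_pos rfl]
    have hv := hV1 T'' E'' m j a X ha hE''m
    rw [← hFu, ← hiff, ← hv]
    show _ ↔ SigmaTrue (ore T'' E'') (j + 1) (Mt (List.replicate m true).length j)
    rw [List.length_replicate]

end Pool.Agent.RHT
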