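import Pool.Agent.Helper49.RH.Oracle
import Pool.Agent.PWQ.PRJ

/-!
# The real hierarchy relative to tame oracles : definitions (captain: helper47)

Syntax, truth, `InSigma`, `InPi`, `bits`, `numTm` are those of `Pool.Agent.Helper49.RH`; the fibre
lemma for polynomials (quantifier elimination) is `Pool.Agent.PWQ.exists_fibre`.
-/

set_option autoImplicit false

open MvPolynomial
open Pool.Agent.RH

namespace Pool.Agent.RHT

/-! ## Words, a game on words -/

/-- One block of the game: `c` picks are left, they are made in the word `u`; every pick is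
answered at once by a pick of the same letter in `v`, and the game goes on in both parts. After
the block the roles are exchanged (`R v u`). -/
def Ss (R : List ℕ → List ℕ → Prop) : ℕ → List ℕ → List ℕ → Prop
  | 0, u, v => R v u
  | c + 1, u, v => Ss R c u v ∧ ∀ p a q, u = p ++ a :: q →
      ∃ p' q', v = p' ++ a :: q' ∧ Ss R c p p' ∧ Ss R c q q'

/-- The game with `i` blocks of `C` picks; the first block is played in `u`. It says that what is
true in `u` with `i` blocks, the first one existential, is true in `v`. -/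
def Rr (C : ℕ) : ℕ → List ℕ → List ℕ → Prop
  | 0, u, v => u = [] ↔ v = []
  | i + 1, u, v => Ss (Rr C i) C u v

/-- The power of a word. -/
def rep (u : List ℕ) (n : ℕ) : List ℕ := (List.replicate n u).flatten

/-- The value of a word; a property with `i + 1` blocks of quantifiers, the first existential. -/
def val : ℕ → List ℕ → Prop
  | 0, w => 1 ∈ w
  | i + 1, w => ∃ p z q, w = p ++ (i + 2) :: (z ++ (i + 2) :: q) ∧ (i + 2) ∉ z ∧ ¬ val i z

/-- The label of a position: the letters of `U` are at the positions `1, …, U.length`; the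
positions `0` and `U.length + 1` have no label. -/
def lab (U : List ℕ) : ℕ → Option ℕ
  | 0 => none
  | p + 1 => U[p]?

/-- The word strictly between the positions `p` and `q`. -/
def seg (U : List ℕ) (p q : ℕ) : List ℕ := (U.drop p).take (q - 1 - p)

/-- A state of the game: `D` is a set of pairs of corresponding positions of `U` and `V`. -/
structure KK (R : List ℕ → List ℕ → Prop) (U V : List ℕ) (D : Set (ℕ × ℕ)) : Prop where
  zero : (0, 0) ∈ D
  last : (U.length + 1, V.length + 1) ∈ D
  le : ∀ d ∈ D, d.1 ≤ U.length + 1 ∧ d.2 ≤ V.length + 1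
  lb : ∀ d ∈ D, lab U d.1 = lab V d.2
  ord : ∀ d ∈ D, ∀ e ∈ D, d.1 < e.1 ↔ d.2 < e.2
  gap : ∀ d ∈ D, ∀ e ∈ D, d.1 < e.1 → (∀ f ∈ D, ¬ (d.1 < f.1 ∧ f.1 < e.1)) →
    R (seg U d.1 e.1) (seg V d.2 e.2)

/-- The graph of a correspondence. -/
def grf {κ : Type} (w w' : κ → ℕ) : Set (ℕ × ℕ) := Set.range (fun k => (w k, w' k))

/-- The tuples `w` and `w'` have the same order type over `D`. -/
def OT {κ : Type} (D : Set (ℕ × ℕ)) (w w' : κ → ℕ) : Prop :=
  (∀ k, ∀ d ∈ D, (w k < d.1 ↔ w' k < d.2) ∧ (d.1 < w k ↔ d.2 < w' k)) ∧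
    ∀ k l, w k < w l ↔ w' k < w' l

/-! ## Real assignments -/

/-- The variables: (block, number). -/
abbrev Vr : Type := ℕ × ℕ

/-- The assignments `x` and `x'` cannot be distinguished by the polynomials of `Ψ`, the variables
`κ` of which are replaced by elements of the sequence `a`, with the indices below `N` and `N'`
and of the same order type over `D`. -/
def RR {κ : Type} (Ψ : Finset (MvPolynomial (Vr ⊕ κ) ℚ)) (a : ℕ → ℕ) (N N' : ℕ)
    (D : Set (ℕ × ℕ)) (x x' : Vr → ℝ) : Prop :=
  ∀ f ∈ Ψ, ∀ w w' : κ → ℕ, (∀ k, w k < N) → (∀ k, w' k < N') → OT D w w' →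
    SignType.sign (aeval (Sum.elim x (fun k => (a (w k) : ℝ))) f) =
      SignType.sign (aeval (Sum.elim x' (fun k => (a (w' k) : ℝ))) f)

/-- The first `s` variables of the block `i` get the values `y`. -/
def upd (s i : ℕ) (x : Vr → ℝ) (y : ℕ → ℝ) : Vr → ℝ :=
  fun v => if v.1 = i ∧ v.2 < s then y v.2 else x v

/-- The first `s` variables of every block. -/
def tr (s : ℕ) (b : ℕ → ℕ → ℝ) : Vr → ℝ := fun v => if v.2 < s then b v.1 v.2 else 0

/-- The polynomial of a term. -/
noncomputable def tp : Tm → MvPolynomial Vr ℚ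
  | .var i j => X (i, j)
  | .zero => 0
  | .one => 1
  | .add s t => tp s + tp t
  | .sub s t => tp s - tp t
  | .mul s t => tp s * tp t

/-- The indices of the elements of the sequence `a` which are values of short terms are in `S`. -/
def Cd (s : ℕ) (a : ℕ → ℕ) (N : ℕ) (x : Vr → ℝ) (S : Set ℕ) : Prop :=
  ∀ t : Tm, t.code.length ≤ s → ∀ p < N, aeval x (tp t) = (a p : ℝ) → p ∈ S

/-- `P` holds for all sufficiently large `t₀`, for all `t₁` sufficiently large in terms of `t₀`,
and so on. -/
def Nv : (e : ℕ) → ((Fin e → ℝ) → Prop) → Prop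
  | 0, P => P (fun i => i.elim0)
  | e + 1, P => Nv e (fun b => ∀ᶠ t : ℕ in Filter.atTop, P (Fin.snoc b (t : ℝ)))

/-! ## Oracles -/

/-- The part number `n` of an oracle. -/
def LL (n : ℕ) (e : Set (ℕ × ℕ)) : Set (List ℝ) :=
  {l | ∃ t ∈ e, l = List.replicate n 1 ++ [2, (t.1 : ℝ), (t.2 : ℝ)]}

/-- The labelled points: the letter at the position `p` of the word is attached to `a p`. -/
def lbl (a : ℕ → ℕ) (U : List ℕ) : Set (ℕ × ℕ) := {t | ∃ p, lab U p = some t.1 ∧ t.2 = a p}

/-- The oracle of a set of formulas and of a sequence of sets of labelled points. -/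
def ore (T : Set Qf) (E : ℕ → Set (ℕ × ℕ)) : Set (List ℝ) :=
  {l | (∃ ψ ∈ T, l = 0 :: bits ψ.code) ∨ ∃ n, l ∈ LL n (E n)}

/-- `T` is the set of the true sentences with `k` blocks, relative to `ore T E`. -/
def Fix (k : ℕ) (T : Set Qf) (E : ℕ → Set (ℕ × ℕ)) : Prop :=
  ∀ ψ, ψ ∈ T ↔ SigmaTrue (ore T E) k ψ

/-- The entries of the lists of `B` of length at most `s` are in `K`. -/
def Bas (s : ℕ) (K : Finset ℕ) (B : Set (List ℝ)) : Prop :=
  ∀ l ∈ B, l.length ≤ s → ∀ z ∈ l, ∃ c ∈ K, z = (c : ℝ)

/-- The atom: the point `t` has the label `c` in the part `n`. -/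
def atm (n c : ℕ) (t : Tm) : Qf := Qf.orc (List.replicate n Tm.one ++ [numTm 2, numTm c, t])

/-- A true formula. -/
def tru : Qf := Qf.eq Tm.zero Tm.zero

/-- The matrix of the property `val i` of the word in the part `n`, for the blocks
`t, …, t + i`; `Bd` restricts the points. -/
def Mat (n : ℕ) : ℕ → ℕ → (Tm → Qf) → Qf
  | 0, t, Bd => Qf.and (Bd (Tm.var t 2)) (atm n 1 (Tm.var t 2))
  | i + 1, t, Bd =>
    Qf.and (Qf.and (Qf.and (Bd (Tm.var t 0)) (Bd (Tm.var t 1)))
        (Qf.and (Qf.lt (Tm.var t 0) (Tm.var t 1))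
          (Qf.and (atm n (i + 2) (Tm.var t 0)) (atm n (i + 2) (Tm.var t 1)))))
      (Qf.and
        (Qf.neg (Qf.and (Qf.and (Qf.lt (Tm.var t 0) (Tm.var (t + 1) 3))
          (Qf.lt (Tm.var (t + 1) 3) (Tm.var t 1))) (atm n (i + 2) (Tm.var (t + 1) 3))))
        (Qf.neg (Mat n i (t + 1) (fun u => Qf.and (Qf.lt (Tm.var t 0) u) (Qf.lt u (Tm.var t 1))))))

/-- The sentence `val i` for the part `n`. -/
def Mt (n i : ℕ) : Qf := Mat n i 0 (fun _ => tru)

/-- The test language: `x` belongs to it iff the word in the part `x.length` has the property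
`val i`. -/
def Lg (O : Set (List ℝ)) (i : ℕ) : Set (List Bool) := {x | SigmaTrue O (i + 1) (Mt x.length i)}

end Pool.Agent.RHT
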