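import Pool.Agent.RHT.St2

/-! MP_f917a3_lc, module P2 (helper28): one block of real variables, last variable first. -/

set_option autoImplicit false

open MvPolynomial
open Pool.Agent.RH

namespace Pool.Agent.RHT

private theorem P2_upd_zero (i : ℕ) (x : Vr → ℝ) (y : ℕ → ℝ) : upd 0 i x y = x := by
  funext v
  unfold upd
  rw [if_neg]
  omega

private theorem P2_upd_succ (s i : ℕ) (x : Vr → ℝ) (y : ℕ → ℝ) :
    upd (s + 1) i x y = Function.update (upd s i x y) (i, s) (y s) := by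
  funext v
  obtain ⟨v1, v2⟩ := v
  by_cases h : (v1, v2) = (i, s)
  · rw [h, Function.update_self]
    unfold upd
    rw [if_pos ⟨rfl, Nat.lt_succ_self s⟩]
  · rw [Function.update_of_ne h]
    unfold upd
    have hne : ¬ (v1 = i ∧ v2 = s) := fun h' => h (by rw [h'.1, h'.2])
    by_cases h2 : v1 = i ∧ v2 < s
    · rw [if_pos h2, if_pos ⟨h2.1, Nat.lt_succ_of_lt h2.2⟩]
    · rw [if_neg h2, if_neg]
      rintro ⟨h3, h4⟩
      simp only at h3 h4
      by_cases h5 : v2 = s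
      · exact hne ⟨h3, h5⟩
      · exact h2 ⟨h3, by omega⟩

private theorem P2_upd_upd (s i : ℕ) (x : Vr → ℝ) (y : ℕ → ℝ) (t : ℝ) :
    upd (s + 1) i x (Function.update y s t) = Function.update (upd s i x y) (i, s) t := by
  rw [P2_upd_succ, Function.update_self]
  congr 1
  funext v
  unfold upd
  by_cases h : v.1 = i ∧ v.2 < s
  · rw [if_pos h, if_pos h, Function.update_of_ne (by omega)]
  · rw [if_neg h, if_neg h]

/-- Renaming of the pins. -/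
private noncomputable def P2_ren {π π₂ κ : Type} (τ : π → π₂)
    (Ψ : Finset (MvPolynomial (Vr ⊕ (π ⊕ κ)) ℚ)) : Finset (MvPolynomial (Vr ⊕ (π₂ ⊕ κ)) ℚ) :=
  open Classical in Ψ.image (rename (Sum.map id (Sum.map τ id)))

private theorem P2_rename {π π₂ κ : Type} (τ : π → π₂)
    (Ψ : Finset (MvPolynomial (Vr ⊕ (π ⊕ κ)) ℚ)) {a : ℕ → ℕ} {N N' : ℕ} {D : Set (ℕ × ℕ)}
    {z z' : π₂ → ℕ} {x x' : Vr → ℝ} (h : RP (P2_ren τ Ψ) a N N' D z z' x x') :
    RP Ψ a N N' D (z ∘ τ) (z' ∘ τ) x x' := by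
  classical
  have key : ∀ (x : Vr → ℝ) (z : π₂ → ℕ) (w : κ → ℕ) (f : MvPolynomial (Vr ⊕ (π ⊕ κ)) ℚ),
      aeval (Sum.elim x (fun k => (a (Sum.elim z w k) : ℝ)))
        (rename (Sum.map id (Sum.map τ id)) f) =
      aeval (Sum.elim x (fun k => (a (Sum.elim (z ∘ τ) w k) : ℝ))) f := by
    intro x z w f
    rw [aeval_rename]
    congr 2
    funext k
    rcases k with k | k | k <;> rfl
  intro f hf w w' hw hw' hO
  have h1 := h (rename (Sum.map id (Sum.map τ id)) f)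
    (by unfold P2_ren; exact Finset.mem_image_of_mem _ hf) w w' hw hw' hO
  rw [key, key] at h1
  exact h1

private theorem P2_aux (h1 : St_P1) (i : ℕ) (κ : Type) [Fintype κ] : ∀ (s : ℕ) (π : Type)
    (Ψ : Finset (MvPolynomial (Vr ⊕ (π ⊕ κ)) ℚ)),
    ∃ (ι : Type) (_ : Fintype ι) (G : Finset (MvPolynomial (Vr ⊕ ((π ⊕ ι) ⊕ κ)) ℚ)),
    Fintype.card ι = s * (2 * Fintype.card κ) ∧
    ∀ (a : ℕ → ℕ) (N : ℕ) (z : π → ℕ) (x : Vr → ℝ) (y : ℕ → ℝ), 0 < N →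
      ∃ w : ι → ℕ, (∀ k, w k < N) ∧
        ∀ (N' : ℕ) (D : Set (ℕ × ℕ)) (x' : Vr → ℝ) (z' : π → ℕ) (w' : ι → ℕ),
          (∀ k, w' k < N') → Od D → grf w w' ⊆ D →
          RP G a N N' D (Sum.elim z w) (Sum.elim z' w') x x' → ∃ y' : ℕ → ℝ,
            RP Ψ a N N' D z z' (upd s i x y) (upd s i x' y') := by
  intro s
  induction s with
  | zero =>
    intro π Ψ
    refine ⟨Empty, inferInstance, P2_ren Sum.inl Ψ, by simp, ?_⟩
    intro a N z x y _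
    refine ⟨fun k => k.elim, fun k => k.elim, ?_⟩
    intro N' D x' z' w' _ _ _ hR
    refine ⟨y, ?_⟩
    rw [P2_upd_zero, P2_upd_zero]
    have hR2 := P2_rename (π₂ := π ⊕ Empty) Sum.inl Ψ hR
    rw [Sum.elim_comp_inl, Sum.elim_comp_inl] at hR2
    exact hR2
  | succ s ih =>
    intro π Ψ
    obtain ⟨G₁, hG₁⟩ := h1 π κ Ψ (i, s)
    obtain ⟨ι, _, G₂, hcard, hG₂⟩ := ih (π ⊕ (Fin 2 × κ)) G₁
    refine ⟨(Fin 2 × κ) ⊕ ι, inferInstance,
      P2_ren (Sum.elim (Sum.map id Sum.inl) (Sum.inr ∘ Sum.inr)) G₂, ?_, ?_⟩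
    · rw [Fintype.card_sum, Fintype.card_prod, Fintype.card_fin, hcard]
      ring
    intro a N z x y hN
    obtain ⟨w₁, hw₁, hp1⟩ := hG₁ a N z (upd s i x y) (y s) hN
    obtain ⟨w₂, hw₂, hp2⟩ := hG₂ a N (Sum.elim z w₁) x y hN
    refine ⟨Sum.elim w₁ w₂, ?_, ?_⟩
    · rintro (k | k)
      · exact hw₁ k
      · exact hw₂ k
    intro N' D x' z' w' hw' hOd hgr hR
    have hg1 : grf w₁ (w' ∘ Sum.inl) ⊆ D := by
      rintro d ⟨k, rfl⟩
      exact hgr ⟨Sum.inl k, rfl⟩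
    have hg2 : grf w₂ (w' ∘ Sum.inr) ⊆ D := by
      rintro d ⟨k, rfl⟩
      exact hgr ⟨Sum.inr k, rfl⟩
    have hR2 := P2_rename (Sum.elim (Sum.map id Sum.inl) (Sum.inr ∘ Sum.inr)) G₂ hR
    have e1 : (Sum.elim z (Sum.elim w₁ w₂)) ∘
        (Sum.elim (Sum.map id Sum.inl) (Sum.inr ∘ Sum.inr)) = Sum.elim (Sum.elim z w₁) w₂ := by
      funext k
      rcases k with (k | k) | k <;> rfl
    have e2 : (Sum.elim z' w') ∘
        (Sum.elim (Sum.map id Sum.inl) (Sum.inr ∘ Sum.inr)) =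
        Sum.elim (Sum.elim z' (w' ∘ Sum.inl)) (w' ∘ Sum.inr) := by
      funext k
      rcases k with (k | k) | k <;> rfl
    rw [e1, e2] at hR2
    obtain ⟨y₁, hy₁⟩ := hp2 N' D x' (Sum.elim z' (w' ∘ Sum.inl)) (w' ∘ Sum.inr)
      (fun k => hw' _) hOd hg2 hR2
    obtain ⟨t, ht⟩ := hp1 N' D (upd s i x' y₁) z' (w' ∘ Sum.inl) (fun k => hw' _) hOd hg1 hy₁
    refine ⟨Function.update y₁ s t, ?_⟩
    rw [P2_upd_upd, P2_upd_succ]
    exact ht

theorem P2 (h1 : St_P1) : St_P2 := by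
  intro s i π κ _ Ψ
  obtain ⟨ι, _, G, hcard, hG⟩ := P2_aux h1 i κ s π Ψ
  let e : ι ≃ Fin (s * (2 * Fintype.card κ)) := Fintype.equivFinOfCardEq hcard
  refine ⟨P2_ren (Sum.map id e) G, ?_⟩
  intro a N z x y hN
  obtain ⟨w, hw, h⟩ := hG a N z x y hN
  refine ⟨w ∘ e.symm, fun k => hw _, ?_⟩
  intro N' D x' z' w' hw' hOd hgr hR
  have hR2 := P2_rename (Sum.map id e) G hR
  have e1 : (Sum.elim z (w ∘ e.symm)) ∘ (Sum.map id e) = Sum.elim z w := by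
    funext k
    rcases k with k | k
    · rfl
    · show w (e.symm (e k)) = w k
      rw [Equiv.symm_apply_apply]
  have e2 : (Sum.elim z' w') ∘ (Sum.map id e) = Sum.elim z' (w' ∘ e) := by
    funext k
    rcases k with k | k <;> rfl
  rw [e1, e2] at hR2
  refine h N' D x' z' (w' ∘ e) (fun k => hw' _) hOd ?_ hR2
  rintro d ⟨k, rfl⟩
  refine hgr ⟨e k, ?_⟩
  show (w (e.symm (e k)), w' (e k)) = _
  rw [Equiv.symm_apply_apply]
  rfl

end Pool.Agent.RHT
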