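import Pool.Agent.RHT.Defs

/-!
# MP_f917a3_lc : tame oracles for the real hierarchy : statements with complete proofs
(captain: helper47)

THEOREM (`St_END`). For every `k ≥ 1` there is an oracle `O`, a set of finite vectors of natural
numbers with only finitely many vectors of each length, relative to which all the classes
`Σ_jℝ, Π_jℝ` with `j ≤ k` are equal to `Σ_0ℝ` (problems reducible in polynomial time to
variable-free formulas), while for every `j ≥ k` some problem in `Σ_{j+1}ℝ` is in none of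
`Π_{j+1}ℝ, Σ_jℝ, Π_jℝ`.

Idea. The part `n` of the oracle is a finite word, its positions are attached to an unboundedly
fast growing sequence of natural numbers `a 0 < a 1 < ⋯` that no short formula can name. Real
quantifiers are replaced by quantifiers over positions (quantifier elimination, `R1`), the order
type of the positions is all that polynomials see (`H3`), and words with the required properties
are built by a pumping argument (`W4`). The truth values of all the sentences with `k` blocks are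
put into the oracle, by recursion on the length; this does not help, since the two candidate words
of a part cannot be distinguished by such sentences.
-/

set_option autoImplicit false

open MvPolynomial
open Pool.Agent.RH

namespace Pool.Agent.RHT

/-! ## Words -/

/-- [W1] Elementary properties of the game.
Proof. (1) induction on `i` and on the number of picks: answer every pick by itself. (2) The same
inductions; for one block: `Ss R c u v → Ss R c v z → Ss R c u z` if `R` is transitive. (3) If `R`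
implies `R'` and `c' ≤ c` then `Ss R c u v` implies `Ss R' c' u v` (the first component of `Ss`). So
`Rr C (i+1) u v` implies `Ss (Rr C i) 0 u v = Rr C i v u`; and by induction on `i`: `Rr C (i+1)`
implies `Rr C i` (`i = 0`: `Rr C 0` is symmetric). (4) For one block: a pick `u ++ u' = p ++ a :: q`
is in `u` (`u = p ++ a :: s`, `q = s ++ u'`) or in `u'` (`p = u ++ s`, `u' = s ++ a :: q`)
(`List.append_eq_append_iff`); answer in `v` or in `v'`, and use the induction on the number of
picks for the two parts (for the part that was not touched use the first component of `Ss`). (5)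
as (3). (6) one block of (4), for every `R` which is closed under appending. -/
def St_W1 : Prop := ∀ C i : ℕ,
  (∀ u, Rr C i u u) ∧
  (∀ u v z, Rr C i u v → Rr C i v z → Rr C i u z) ∧
  (∀ u v, Rr C (i + 1) u v → Rr C i u v ∧ Rr C i v u) ∧
  (∀ u v u' v', Rr C i u v → Rr C i u' v' → Rr C i (u ++ u') (v ++ v')) ∧
  (∀ C' u v, C ≤ C' → Rr C' i u v → Rr C i u v) ∧
  (∀ c u v u' v', Ss (Rr C i) c u v → Ss (Rr C i) c u' v' → Ss (Rr C i) c (u ++ u') (v ++ v')) ∧
  (∀ c u, Ss (Rr C i) c u u)

/-- [W2] (uses W1) Pumping.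
Proof. `u = []`: all words are `[]`. Induction on `i`. `i = 0`: `θ = 1`. Let `θ` be given for `i`, put
`t 0 = θ`, `t (c+1) = 2 t c + 1`. Claim: `Ss (Rr C i) c (rep u a) (rep u b)` if `a = b` or `a, b ≥ t c`.
`a = b`: W1 (7). `c = 0`: `Rr C i (rep u b) (rep u a)`. `c + 1`: the first component of `Ss` is the claim for `c`
(`t c ≤ t (c+1)`). Let `rep u a = p ++ x :: q`; the letter `x` is in a copy of `u`: `a = a1 + 1 + a2`, `u = s ++ x :: r`,
`p = rep u a1 ++ s`, `q = r ++ rep u a2`. Choose `b = b1 + 1 + b2` with (`a1 = b1` or `a1, b1 ≥ t c`) and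
(`a2 = b2` or `a2, b2 ≥ t c`): `b1 = a1` if `a1 < t c` (then `a2 ≥ t c` and `b2 ≥ t c`); `b2 = a2` if `a2 < t c`;
`b1 = t c` if `a1, a2 ≥ t c`. Answer `p' = rep u b1 ++ s`, `q' = r ++ rep u b2`; use the claim for `c` and
W1 (6), (7). The threshold for `i + 1` is `t C`. Second statement: the claim itself. -/
def St_W2 : Prop := ∀ (C i : ℕ) (u : List ℕ),
  (∃ θ, ∀ a b, θ ≤ a → θ ≤ b → Rr C i (rep u a) (rep u b)) ∧
  ∀ c, ∃ θ, ∀ a b, θ ≤ a → θ ≤ b → Ss (Rr C i) c (rep u a) (rep u b)

/-- [W3] (uses W1, W2) If `v` can be replaced by `u` then it can be inserted into a power of `u` at the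
next level.
Proof. Let `t c` be increasing in `c`, with `t (c+1) ≥ 2 t c + 1`, `t 0 ≥` the threshold of W2 (1), and
`t c ≥` the threshold of W2 (2) for `c`. Claim: `Ss (Rr C i) c (rep u a) (rep u b ++ v ++ rep u b')` if
`a, b, b' ≥ t c`. `c = 0`: `Rr C i (rep u b ++ v ++ rep u b') (rep u b ++ u ++ rep u b')` by W1 (1), (4), the
right word is `rep u (b + 1 + b')`; then W2 (1) and transitivity. `c + 1`: first component: the claim for `c`.
A pick `rep u a = p ++ x :: q`: `a = a1 + 1 + a2`, `u = s ++ x :: r` as in W2. As `a ≥ 2 t c + 1`, `a1 ≥ t c` or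
`a2 ≥ t c`. Case `a1 ≥ t c`: let `r' = min a2 (t c)`, `b' = b1 + 1 + r'` with `b1 ≥ t c`. Answer:
`(rep u b ++ v ++ rep u b1 ++ s) ++ x :: (r ++ rep u r')`. The left parts: `rep u a1` and
`rep u b ++ v ++ rep u b1` by the claim for `c`, then `s` by W1 (6), (7). The right parts: `a2 = r'` or
`a2, r' ≥ t c` (W2 (2)). The case `a2 ≥ t c` is symmetric (pick in `rep u b`). Take `c = C`. -/
def St_W3 : Prop := ∀ (C i : ℕ) (u v : List ℕ), Rr C i v u →
  ∃ θ, ∀ a b b', θ ≤ a → θ ≤ b → θ ≤ b' →
    Rr C (i + 1) (rep u a) (rep u b ++ v ++ rep u b')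

/-- [W4] (uses W3) Words which differ for `val i` but cannot be distinguished.
Proof. Induction on `i`. `i = 0`: W3 for `u = [0]`, `v = [1]`: `Lo = rep [0] a`, `Wi = rep [0] b ++ [1] ++ rep [0] b'`.
`i + 1`: let `lo`, `wi` be given for `i`, `m = i + 2`, `u = m :: wi`, `v = m :: lo`. `Rr C (i+1) v u` (W1 (1), (4)).
W3 gives `θ`; put `a = b = b' = θ + 1`, `Lo = rep u a`, `Wi = rep u b ++ v ++ rep u b'`. In `Wi` there is the factor
`m lo m`, with `m` not in `lo` and `val i lo` false: `val (i+1) Wi`. If `m z m` is a factor of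
`Lo` with `m` not in `z` then `z = wi` (`m` is not in `wi`: between two letters `m` which follow each other in
`rep (m :: wi) a` there is `wi`), and `val i wi` is true. So `val (i+1) Lo` is false. Letters: at most
`i + 2`. -/
def St_W4 : Prop := ∀ C i : ℕ, ∃ Lo Wi : List ℕ, Rr C (i + 1) Lo Wi ∧ val i Wi ∧ ¬ val i Lo ∧
  (∀ c ∈ Lo, c < i + 2) ∧ ∀ c ∈ Wi, c < i + 2

/-- [K1] One pick.
Proof. If `z = d.1` for some `d ∈ D` take `z' = d.2`; all gaps stay, `Ss R (c+1) u v → Ss R c u v`. Otherwise
let `d ∈ D` have the largest `d.1 < z` and `e ∈ D` the smallest `e.1 > z` (`zero`, `last`; the first components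
are bounded). `seg U d.1 e.1 = seg U d.1 z ++ U[z-1] :: seg U z e.1`. By `gap` and the second component of `Ss`:
`seg V d.2 e.2 = p' ++ U[z-1] :: q'` with `Ss R c (seg U d.1 z) p'`, `Ss R c (seg U z e.1) q'`. `z' = d.2 + 1 + p'.length`;
then `seg V d.2 z' = p'`, `seg V z' e.2 = q'`, `lab V z' = lab U z`. `ord` for the new pair: `f ∈ D` with `f.1 < z`
has `f.1 ≤ d.1`, so `f.2 ≤ d.2 < z'` (`ord`; `f.1 = d.1` implies `f.2 = d.2`). Gaps of the new set: the ones of
`D` not around `z` (weaken), `(d, z)` and `(z, e)`. -/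
def St_K1 : Prop := ∀ (R : List ℕ → List ℕ → Prop) (c : ℕ) (U V : List ℕ) (D : Set (ℕ × ℕ)),
  KK (Ss R (c + 1)) U V D → ∀ z, z ≤ U.length + 1 →
    ∃ z', z' ≤ V.length + 1 ∧ KK (Ss R c) U V (insert (z, z') D)

/-- [K2] (uses K1, W1) One block of picks; start; exchange of the roles; `OT`.
Proof. (1) Induction on `Fintype.card κ` (or on `Fin n`, by `Fintype.equivFin`), K1, and
`Ss R c → Ss R 0` for the picks which are not used. (2) `seg U 0 (U.length + 1) = U`. (3) by `ord` the order
of the first components is that of the second ones, so the gaps are the same;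
`Ss R 0 u v = R v u`. (4) from `ord`. (5) `KK (Rr C (i+1))` is `KK (Ss (Rr C i) C)`, (1), (3). -/
def St_K2 : Prop :=
  (∀ (κ : Type) [Fintype κ] (R : List ℕ → List ℕ → Prop) (c : ℕ) (U V : List ℕ)
    (D : Set (ℕ × ℕ)), KK (Ss R c) U V D → Fintype.card κ ≤ c → ∀ w : κ → ℕ,
      (∀ k, w k < U.length + 2) → ∃ w' : κ → ℕ, (∀ k, w' k < V.length + 2) ∧
        KK (Ss R 0) U V (D ∪ grf w w')) ∧
  (∀ (R : List ℕ → List ℕ → Prop) (U V : List ℕ), R U V →
    KK R U V {(0, 0), (U.length + 1, V.length + 1)}) ∧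
  (∀ (R : List ℕ → List ℕ → Prop) (U V : List ℕ) (D : Set (ℕ × ℕ)), KK (Ss R 0) U V D →
    KK R V U (Prod.swap '' D)) ∧
  (∀ (κ : Type) (R : List ℕ → List ℕ → Prop) (U V : List ℕ) (D : Set (ℕ × ℕ)) (w w' : κ → ℕ),
    KK R U V (D ∪ grf w w') → OT D w w') ∧
  (∀ (κ : Type) [Fintype κ] (C i : ℕ) (U V : List ℕ) (D : Set (ℕ × ℕ)), KK (Rr C (i + 1)) U V D →
    Fintype.card κ ≤ C → ∀ w : κ → ℕ, (∀ k, w k < U.length + 2) → ∃ w' : κ → ℕ,
      (∀ k, w' k < V.length + 2) ∧ OT D w w' ∧ KK (Rr C i) V U (Prod.swap '' (D ∪ grf w w')))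

/-! ## Real quantifiers -/

/-- [R1] (uses `Pool.Agent.PWQ.exists_fibre`) One real variable. (`v` gets the value `t`.)

Proof. For `f ∈ Ψ` and `l : Fin 3` let `f_l : MvPolynomial (Option (Vr ⊕ (Fin 3 × κ))) ℚ` be the renaming of `f`:
`inl v ↦ none`, `inl v' ↦ some (inl v')` (`v' ≠ v`), `inr k ↦ some (inr (l, k))`. `G` from `exists_fibre` for all
these `f_l`. For `w : κ → ℕ` let `q f w` be the function `t ↦ aeval (Sum.elim (update x v t) (a ∘ w)) f`, a
polynomial function; `q' f w'` the same for `x'`. (F) If `OT D (w1, w2, w3) (w1', w2', w3')` (tuples indexed by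
`Fin 3 × κ`) and `RR G` then there is `φ : ℝ ≃o ℝ` with `sign (q f wl t) = sign (q' f wl' (φ t))` for all `t`, all
`f ∈ Ψ`, `l = 1, 2, 3`. There are finitely many `w` with values `< N` (`κ` finite). Call a zero of some
`q f w` which is not identically zero a root; there are finitely many roots.
Case A: `t` is a root, of `q f0 w0`. `w* = (w0, w0)`. Given `w'* = (w0', w0')` (`OT` forces the two halves to be
equal) take any `φ` of (F) for `(w0, w0, w0)`, `t' := φ t`. Let `w, w'` be a test pair for the new `D`; then (F) for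
`(w0, w0, w)` gives `φ₁`, and `φ₁ t = φ t`: both are zeros of `q' f0 w0'` (not identically zero), with the same
number of zeros of `q' f0 w0'` below, namely the number of zeros of `q f0 w0` below `t` (`φ`, `φ₁` are
order isomorphisms which map zeros to zeros bijectively). So `sign (q f w t) = sign (q' f w' t')`.
Case B: `t` is not a root. Let `r₁ < t` be the largest root below `t`, of `q f1 w1`, and `r₂ > t` the
smallest root above, of `q f2 w2` (if there is one; otherwise `w1`, resp. `w2`, is constant `0`).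
`w* = (w1, w2)`. `r₁' := φ r₁`, `r₂' := φ r₂` for any `φ` of (F) for `(w1, w2, w)`; as in case A they do not
depend on `w, φ`. `t'` := midpoint of `r₁', r₂'` (or `r₁' + 1`, `r₂' - 1`, `0`, if there is no `r₂`, no `r₁`, none).
Test pair `w, w'`, `f ∈ Ψ`, `φ` of (F) for `(w1, w2, w)`: `sign (q f w t) = sign (q' f w' (φ t))`, and `φ t` and `t'` are
both in the open interval `(r₁', r₂')`. `q' f w'` is identically zero (then so is `q f w`) or has no zero in
this interval (its preimage under `φ` would be a root of `q f w` in `(r₁, r₂)`, but there is no root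
strictly between `r₁` and `r₂`). By the intermediate value theorem its sign is constant there. -/
def St_R1 : Prop := ∀ (κ : Type) [Fintype κ] (Ψ : Finset (MvPolynomial (Vr ⊕ κ) ℚ)) (v : Vr),
  ∃ G : Finset (MvPolynomial (Vr ⊕ (Fin 3 × κ)) ℚ), ∀ (a : ℕ → ℕ) (N : ℕ) (x : Vr → ℝ) (t : ℝ),
    0 < N → ∃ w : Fin 2 × κ → ℕ, (∀ k, w k < N) ∧
      ∀ (N' : ℕ) (D : Set (ℕ × ℕ)) (x' : Vr → ℝ) (w' : Fin 2 × κ → ℕ), (∀ k, w' k < N') →
        RR G a N N' D x x' → OT D w w' → ∃ t' : ℝ,
          RR Ψ a N N' (D ∪ grf w w') (Function.update x v t) (Function.update x' v t')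

/-- [R2] (uses R1) One block of real variables, with extra picks: the indices of the elements of `a` which
are values of short terms.
Proof. Induction on `s'` for `upd s' i` (`s' ≤ s`), `upd (s'+1) i x y = update (upd s' i x y) (i, s') (y s')`:
R1 for `Ψ` and `(i, s')` gives `G₁` over `Fin 3 × κ`, the induction hypothesis for `G₁` gives `G` over `κ'` and
`n`; the picks are `Fin n` for the induction hypothesis and then `Fin 2 × κ` (reindexed to
`Fin (n + 2 * card κ)`); if the whole tuples satisfy `OT D` then so do the first parts, and the second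
parts satisfy `OT` over `D ∪ grf` of the first parts. `y'` is defined from the values `t'`, `0` beyond.
Extra picks: the terms `t` with `t.code.length ≤ s` form a finite set (`Qf`, `Tm` codes are injective:
`Tm.code_inj`), and `a` is injective, so the indices `p < N` with `aeval (upd s i x y) (tp t) = a p` for such a `t`
are at most as many as these terms; append them to the picks. `RR` is monotone: more pairs in `D`
make it weaker. -/
def St_R2 : Prop := ∀ (κ : Type) [Fintype κ] (Ψ : Finset (MvPolynomial (Vr ⊕ κ) ℚ)) (s i : ℕ),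
  ∃ (κ' : Type) (_ : Fintype κ') (G : Finset (MvPolynomial (Vr ⊕ κ') ℚ)) (n : ℕ),
    ∀ (a : ℕ → ℕ) (N : ℕ) (x : Vr → ℝ) (y : ℕ → ℝ), StrictMono a → 0 < N →
      ∃ w : Fin n → ℕ, (∀ k, w k < N) ∧ Cd s a N (upd s i x y) (Set.range w) ∧
        ∀ (N' : ℕ) (D : Set (ℕ × ℕ)) (x' : Vr → ℝ) (w' : Fin n → ℕ), (∀ k, w' k < N') →
          RR G a N N' D x x' → OT D w w' → ∃ y' : ℕ → ℝ,
            RR Ψ a N N' (D ∪ grf w w') (upd s i x y) (upd s i x' y')

/-- [F1] Formulas without quantifiers.
Proof. `Ψ`: the polynomials `tp t - tp t'`, `tp t - c` (`c ∈ K`), `tp t - X (inr ())`, for all terms `t, t'` with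
codes of length `≤ s` (finitely many). Induction on `ψ`; subformulas and terms have shorter codes, the
number `j` of a variable of `ψ` is less than `s` (unary code), so `t.val b = aeval (tr s b) (tp t)`. Atoms
`eq, lt, le`: the sign of `tp t - tp t'`. Atom `orc l`, `l.length ≤ s`. If the values of `l` under `b` are in `B`: they
are in `K` (`Bas`), the signs of `tp t - c` give the same values under `b'`; and conversely. If they
are in `LL n (lbl a U)`: `l = l₀ ++ [t₁, t₂, t₃]`, the values of `l₀` are `1`, those of `t₁`, `t₂` are `2` and a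
letter `c` of `U` (in `K`), so the same for `b'`; `t₃` has the value `a p`, `lab U p = some c`, `p ≤ U.length`.
(i) Assume the first `Cd`. Then `p = d.1` for some `d ∈ D`; the constant tuples `p`, `d.2` satisfy `OT D`
(`ord`), so `t₃` has the value `a d.2` under `b'`, and `lab V d.2 = some c`. Conversely let `t₃` have the value
`a p'` under `b'`, `lab V p' = some c`. If `p' = d.2` with `d ∈ D`: as before. Otherwise let `d, e ∈ D` be
the neighbours of `p'` (`d.2 < p' < e.2`). `seg V d.2 e.2 ≠ []`, so `seg U d.1 e.1 ≠ []` (`gap` for `Rr C 0`),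
`p := d.1 + 1 < e.1`. `OT D p p'`: so `t₃` has the value `a p` under `b`, and `p` is the first component of an
element of `D` by `Cd`, in contradiction with the choice of `d, e`. (ii) The second `Cd`: the same
with `U` and `V` exchanged. -/
def St_F1 : Prop := ∀ (s : ℕ) (K : Finset ℕ), 1 ∈ K → 2 ∈ K →
  ∃ Ψ : Finset (MvPolynomial (Vr ⊕ Unit) ℚ),
    ∀ (C : ℕ) (a : ℕ → ℕ) (n : ℕ) (U V : List ℕ) (D : Set (ℕ × ℕ)) (B : Set (List ℝ))
      (b b' : ℕ → ℕ → ℝ), StrictMono a → (∀ c ∈ U, c ∈ K) → (∀ c ∈ V, c ∈ K) → Bas s K B →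
      KK (Rr C 0) U V D → RR Ψ a (U.length + 2) (V.length + 2) D (tr s b) (tr s b') →
      (Cd s a (U.length + 2) (tr s b) (Prod.fst '' D) ∨
        Cd s a (V.length + 2) (tr s b') (Prod.snd '' D)) →
      ∀ ψ : Qf, ψ.code.length ≤ s →
        (ψ.holds (B ∪ LL n (lbl a U)) b ↔ ψ.holds (B ∪ LL n (lbl a V)) b')

/-- [T1] (uses K2, R2, F1, W1) Transfer of truth.
Proof. Induction on `k`, for all `i`. `k = 0`: F1. `k + 1`: let `κ₁, G₁, C₁` be given for `k, i + 1`; R2 for `G₁`, `i`
gives `κ', G, n`; `C0 = max C₁ n`. Note `tr s (update b i y) = upd s i (tr s b) y`. First claim: let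
`truth true (k+1) i ψ b` hold in `U`, with `y` for the block `i`. R2: picks `w`. K2 (5): `w'`, `OT D w w'` and
`KK (Rr C k) V U D₁`, `D₁` the exchanged `D ∪ grf w w'`. R2: `y'` and `RR G₁ … (D ∪ grf w w')`, by symmetry
`RR G₁ a N' N D₁ (upd s i (tr s b') y') (upd s i (tr s b) y)`. The induction hypothesis for `V, U` (second
claim) carries `truth false k (i+1) ψ` from `U` to `V`. If `k = 0`: the `Cd` of R2 is the second `Cd` of the
induction hypothesis. Second claim: let `truth false (k+1) i ψ b'` hold in `V`; given `y` in `U` choose `w, w', y'`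
as before; `truth true k (i+1)` holds in `V` for `y'`, so in `U` for `y` by the induction hypothesis (first
claim). -/
def St_T1 : Prop := ∀ (s : ℕ) (K : Finset ℕ), 1 ∈ K → 2 ∈ K → ∀ k i : ℕ,
  ∃ (κ : Type) (_ : Fintype κ) (G : Finset (MvPolynomial (Vr ⊕ κ) ℚ)) (C0 : ℕ), ∀ C, C0 ≤ C →
    ∀ (a : ℕ → ℕ) (n : ℕ) (U V : List ℕ) (D : Set (ℕ × ℕ)) (B : Set (List ℝ))
      (b b' : ℕ → ℕ → ℝ), StrictMono a → (∀ c ∈ U, c ∈ K) → (∀ c ∈ V, c ∈ K) → Bas s K B →
      KK (Rr C k) U V D → RR G a (U.length + 2) (V.length + 2) D (tr s b) (tr s b') →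
      (k = 0 → Cd s a (U.length + 2) (tr s b) (Prod.fst '' D) ∨
        Cd s a (V.length + 2) (tr s b') (Prod.snd '' D)) →
      ∀ ψ : Qf, ψ.code.length ≤ s →
        (truth (B ∪ LL n (lbl a U)) true k i ψ b → truth (B ∪ LL n (lbl a V)) true k i ψ b') ∧
        (truth (B ∪ LL n (lbl a V)) false k i ψ b' → truth (B ∪ LL n (lbl a U)) false k i ψ b)

/-! ## Fast growing sequences -/

/-- [H1] The sign of a polynomial is eventually constant, in the nested sense.
Proof. Induction on `e`. `e = 0`: the sign at the point. `Nv` is monotone and `Nv e (fun _ => True)`. `e + 1`: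
`g` is a polynomial in the last variable over `MvPolynomial (Fin e) ℚ` (`Fin.snoc`; for instance
`MvPolynomial.finSuccEquiv` after `Fin.rev`, or rename `Fin (e+1) ≃ Option (Fin e)` and `optionEquivLeft`). `g = 0`:
sign `0`. `g ≠ 0`: let `l ≠ 0` be the leading coefficient. By induction the sign of `l` is `ε`, `Nv e`. If
`ε = 0`, then `l = 0` as a polynomial, a contradiction: prove the stronger statement that `ε ≠ 0` if
`g ≠ 0`. At a point where the sign of `l` is `ε ≠ 0` the sign of the polynomial in one variable at `t` is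
`ε` for all large `t` (`Polynomial.isEquivalent_atTop_lead` or `tendsto_atTop_of_leadingCoeff_nonneg`). -/
def St_H1 : Prop := ∀ (e : ℕ) (g : MvPolynomial (Fin e) ℚ), ∃ ε : SignType,
  Nv e (fun b => SignType.sign (aeval b g) = ε)

/-- [H2] From nested largeness to a sequence.
Proof. For `l ≤ e` call `(b₀, …, b_{l-1})` good for `P` if `∀ᶠ t_l, ∀ᶠ t_{l+1}, …, P` (`e - l` quantifiers). The empty
tuple is good by hypothesis; if a tuple of length `l < e` is good then it stays good when a
sufficiently large number is appended. Choose `a (m+1) > a m` so large that for all `i` and all good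
tuples of length `< e i` with entries in `{a 0, …, a m}` appending `a (m+1)`, or any larger number, gives a good
tuple (finitely many conditions); and `a 0` in the same way for the empty tuple. Then by induction
on the length all `(a (c 0), …, a (c (l-1)))` with `c` strictly increasing are good. `l = e`: `P`. -/
def St_H2 : Prop := ∀ (m : ℕ) (e : Fin m → ℕ) (P : ∀ i, (Fin (e i) → ℝ) → Prop),
  (∀ i, Nv (e i) (P i)) → ∃ a : ℕ → ℕ, StrictMono a ∧
    ∀ i, ∀ c : Fin (e i) → ℕ, StrictMono c → P i (fun k => (a (c k) : ℝ))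

/-- [H3] (uses H1, H2) A sequence of which polynomials see only order types.
Proof. A tuple `w : κ i → ℕ` is `c ∘ ρ` with `ρ : κ i → Fin e` surjective and `c : Fin e → ℕ` strictly increasing
(`e` the number of values, `Finset.orderEmbOfFin`); if `w'` has the same order type then `w' = c' ∘ ρ`
with the same `e, ρ`. There are finitely many triples `(i, e, ρ)` (`e ≤ card (κ i)`) and for each of them and
`f ∈ G i` H1 for `rename ρ f` gives `ε`; apply H2 to all these finitely many `(e, P)`. -/
def St_H3 : Prop := ∀ (m : ℕ) (κ : Fin m → Type) [∀ i, Fintype (κ i)]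
  (G : ∀ i, Finset (MvPolynomial (κ i) ℚ)), ∃ a : ℕ → ℕ, StrictMono a ∧
    ∀ i, ∀ f ∈ G i, ∀ w w' : κ i → ℕ, (∀ k l, w k < w l ↔ w' k < w' l) →
      SignType.sign (aeval (fun k => (a (w k) : ℝ)) f) =
        SignType.sign (aeval (fun k => (a (w' k) : ℝ)) f)

/-- [I1] (uses T1, H3, W1, W4, K2) The two candidates for a part of the oracle.
Proof. Let `K' ⊇ K` contain `0, …, j + 2`; T1 for `s, K'`, `1 ≤ k ≤ j + 1`, `i = 0`: `κ_k, G_k, C_k`. `C :=` the
maximum. W4 for `C, j`: `Lo`, `Wi`. Substituting `0` for the variables `Vr` in the polynomials of `G_k` gives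
polynomials over `κ_k`; H3 for these `j + 1` finite sets gives `a`. For `U, V` among `Lo, Wi` let
`D = {(0, 0), (U.length + 1, V.length + 1)}`. `RR G_k … D 0 0` holds, since `OT D w w'` implies that `w, w'` have
the same order type; `tr s (fun _ _ => 0) = 0`. `KK (Rr C k) U V D` by K2 (2) if `Rr C k U V`. W4 gives
`Rr C (j+1) Lo Wi`, so `Rr C k Lo Wi` for `k ≤ j + 1` and `Rr C k Wi Lo` for `k ≤ j` (W1 (3)). T1 for `U = Lo`,
`V = Wi`, `k = j + 1`, second claim; for `1 ≤ k ≤ j` both claims for `(Lo, Wi)` and `(Wi, Lo)`. -/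
def St_I1 : Prop := ∀ (s j : ℕ) (K : Finset ℕ), ∃ (a : ℕ → ℕ) (Lo Wi : List ℕ), StrictMono a ∧
  val j Wi ∧ ¬ val j Lo ∧ ∀ (n : ℕ) (B : Set (List ℝ)), Bas s K B → ∀ ψ : Qf,
    ψ.code.length ≤ s →
      (PiTrue (B ∪ LL n (lbl a Wi)) (j + 1) ψ → PiTrue (B ∪ LL n (lbl a Lo)) (j + 1) ψ) ∧
      ∀ k, 1 ≤ k → k ≤ j →
        (SigmaTrue (B ∪ LL n (lbl a Lo)) k ψ ↔ SigmaTrue (B ∪ LL n (lbl a Wi)) k ψ) ∧
        (PiTrue (B ∪ LL n (lbl a Lo)) k ψ ↔ PiTrue (B ∪ LL n (lbl a Wi)) k ψ)

/-! ## The oracle -/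

/-- [V1] The meaning of the sentence `Mt n i`.
Proof. In `ore T E` the list `replicate n 1 ++ [2, c, v]` can only come from the part `n` (the lists of
the first kind begin with `0`; the number of `1`s before the first `2` is `n`), so `atm n c u` holds iff
`lab U r = some c` and the value of `u` is `a r` for some `r`. Claim, by induction on `i`, for all `t, Bd, b, p < q`:
if for all terms `u` and all `b'` which agree with `b` in the blocks `< t` the formula `Bd u` holds at `b'` iff `Pr`
holds for the value of `u`, and `Pr (a r) ↔ p < r < q` for all `1 ≤ r ≤ U.length`, then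
`truth O true (i+1) t (Mat n i t Bd) b ↔ val i (seg U p q)`. `i = 0`: some `r` in `(p, q)` has the label `1`.
`i + 1`: the blocks `t` (values `a r₁ < a r₂`, label `i + 2`, `p < r₁ < r₂ < q`), then the universal block
`t + 1`: the conjunction splits into the condition on its variable number `3` (no `r` in `(r₁, r₂)` has the
label `i + 2`) and `neg (Mat …)`; `truth O false k t (neg ψ) ↔ ¬ truth O true k t ψ`, and `and A ψ` with `A`
independent of the later blocks. The induction hypothesis for `t + 1`, `r₁, r₂`. For words: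
`seg U p q = p' ++ m :: (z ++ m :: q')` iff `z = seg U r₁ r₂` for such `r₁, r₂`. Start: `t = 0`, `p = 0`,
`q = U.length + 1`, `seg U 0 (U.length + 1) = U`. -/
def St_V1 : Prop := ∀ (T : Set Qf) (E : ℕ → Set (ℕ × ℕ)) (n i : ℕ) (a : ℕ → ℕ) (U : List ℕ),
  StrictMono a → E n = lbl a U → (SigmaTrue (ore T E) (i + 1) (Mt n i) ↔ val i U)

/-- [V2] The test language is in `Σ_{i+1}ℝ`.
Proof. `(Mt n i).Closed (i + 1)`: induction on `i`. `x ↦ (Mt x.length i).code` is computable in polynomial
time: induction on `i`; the code of `atm x.length c u` is a constant, then `x.flatMap (fun _ => true :: Tm.one.code)`,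
then a constant (compare `pt_inst`, `pt_bitsCode` in `Helper49.RH.Prenex`). -/
def St_V2 : Prop := ∀ (O : Set (List ℝ)) (i : ℕ), InSigma O (i + 1) (Lg O i)

/-- [O1] Locality, existence and uniqueness of the fixed point.
Proof. (1) `Qf.qs_length`, `Qf.holds_congr`; then through the quantifiers. (2) `exists_fix` for the length of
the code: by (1), `SigmaTrue (ore T E) k ψ` depends only on the `χ ∈ T` with shorter codes (the list
`0 :: bits χ.code` has length `χ.code.length + 1`). (3) By induction on the length of the code; lists of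
the part `n` have length `n + 3`. -/
def St_O1 : Prop :=
  (∀ (O O' : Set (List ℝ)) (s : ℕ), (∀ l : List ℝ, l.length < s → (l ∈ O ↔ l ∈ O')) →
    ∀ ψ : Qf, ψ.code.length ≤ s → ∀ (e : Bool) (k i : ℕ) (b : ℕ → ℕ → ℝ),
      (truth O e k i ψ b ↔ truth O' e k i ψ b)) ∧
  (∀ (k : ℕ) (E : ℕ → Set (ℕ × ℕ)), ∃ T, Fix k T E) ∧
  (∀ (k s : ℕ) (E E' : ℕ → Set (ℕ × ℕ)) (T T' : Set Qf), Fix k T E → Fix k T' E' →
    (∀ n, n < s → E n = E' n) → ∀ ψ : Qf, ψ.code.length ≤ s → (ψ ∈ T ↔ ψ ∈ T'))

/-- [O2] The first `k` levels collapse.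
Proof. (Compare `pi_iff_sigma` in `Helper49.RH.Oracle`.) Blocks of which the formula has no variables can be
added or removed at the inner end: `ψ.Closed j`, `j ≤ k`: `truth O e j 0 ψ b ↔ truth O e k 0 ψ b`. So for
`L ∈ Σ_jℝ`, by `f`: `x ∈ L` iff `SigmaTrue O k ψ` iff `ψ ∈ T` iff `orc (0 :: bits (f x))` holds. `Π_jℝ`: with `neg ψ`
(code `[true, false] ++ f x`) and the negation. Conversely closed formulas without variables. -/
def St_O2 : Prop := ∀ (k : ℕ) (T : Set Qf) (E : ℕ → Set (ℕ × ℕ)), Fix k T E → ∀ j ≤ k, ∀ L,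
  (InSigma (ore T E) j L ↔ InSigma (ore T E) 0 L) ∧ (InPi (ore T E) j L ↔ InSigma (ore T E) 0 L)

/-- [O3] The oracle is tame.
Proof. Lists of length `m`: `0 :: bits c` with `c` of length `m - 1`, finitely many; `n + 3 = m`, `E n`
finite. The entries are `0`, `1`, `2` and natural numbers. -/
def St_O3 : Prop := ∀ (T : Set Qf) (E : ℕ → Set (ℕ × ℕ)), (∀ n, (E n).Finite) →
  (∀ m, {l | l ∈ ore T E ∧ l.length = m}.Finite) ∧ ∀ l ∈ ore T E, ∀ z ∈ l, ∃ c : ℕ, z = (c : ℝ)

/-- The three kinds of sentences which are diagonalised. -/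
def Fu : ℕ → Set (List ℝ) → ℕ → Qf → Prop
  | 0, O, j, ψ => PiTrue O (j + 1) ψ
  | 1, O, j, ψ => SigmaTrue O j ψ
  | _ + 2, O, j, ψ => PiTrue O j ψ

/-- The requirement: `f` does not reduce the test language to sentences of the kind `c`. -/
def Rq (k c j : ℕ) (f : List Bool → List Bool) (E : ℕ → Set (ℕ × ℕ)) : Prop :=
  ∀ T, Fix k T E → ¬ ∀ x, ∃ ψ : Qf, f x = ψ.code ∧ (x ∈ Lg (ore T E) j ↔ Fu c (ore T E) j ψ)

/-- [D1] (uses I1, V1, O1) One requirement.
Proof. `n := m`, `x := replicate n true`. If `f x` is not a code take `E' = E`, `m' = m`. Let `f x = ψ.code`,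
`s = ψ.code.length`, `m' = max (n+1) (s+1)`; `K` contains `0, 1, 2` and all the numbers in `E n'`, `n' < n`. I1:
`a, Lo, Wi`. For `X ∈ {Lo, Wi}`: `E_X n' = E n'` for `n' < n`, `E_X n = lbl a X`, `E_X n' = ∅` for `n' > n`; `T_X` from
O1 (2). (1) `T_Lo` and `T_Wi` agree on codes of length `≤ s`: induction on the length; for `ψ'` the lists
of `ore T_X E_X` shorter than its code are those of `B ∪ LL n (lbl a X)`, with `B = ore T₀ E₀`, `T₀` the elements of
`T_Lo` with shorter codes, `E₀ n' = E n'` for `n' < n`, else `∅`; `Bas s K B`; O1 (1) and I1 (`1 ≤ k ≤ j`). (2) So, by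
O1 (1) and I1, `Fu c (ore T_Wi E_Wi) j ψ → Fu c (ore T_Lo E_Lo) j ψ` (with `B` for `T₀` = the elements of `T_Lo` with
codes shorter than `s`). If `Fu c (ore T_Wi E_Wi) j ψ` take `X = Lo`, otherwise `X = Wi`; `E' = E_X`. (3) Let `E''` agree with `E_X` below
`m'`, `Fix k T'' E''`. By O1 (3), (1): `Fu c (ore T'' E'') j ψ` iff `Fu c (ore T_X E_X) j ψ`; by V1: `x ∈ Lg (ore T'' E'') j` iff `val j X`.
These two differ. The formula with code `f x` is unique. -/
def St_D1 : Prop := ∀ (k c j : ℕ), 1 ≤ k → k ≤ j → ∀ (f : List Bool → List Bool)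
  (E : ℕ → Set (ℕ × ℕ)) (m : ℕ), (∀ n, (E n).Finite) → ∃ (E' : ℕ → Set (ℕ × ℕ)) (m' : ℕ),
    m ≤ m' ∧ (∀ n, n < m → E' n = E n) ∧ (∀ n, (E' n).Finite) ∧
      ∀ E'' : ℕ → Set (ℕ × ℕ), (∀ n, (E'' n).Finite) → (∀ n, n < m' → E'' n = E' n) →
        Rq k c j f E''

/-- [X1] Finite extensions.
Proof. Enumerate `ι` (if it is empty take a constant sequence). `(E₀, 0)`, `(E_{r+1}, m_{r+1})` from the
hypothesis for the `r`-th requirement, with `m_{r+1} > m_r` (replace `m` by `m + 1`). The limit:
`E n := E_r n` for any `r` with `n < m_r`. -/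
def St_X1 : Prop := ∀ (α ι : Type) [Countable ι] (P : α → Prop) (Req : ι → (ℕ → α) → Prop),
  (∃ x₀, P x₀) → (∀ r (E : ℕ → α) (m : ℕ), (∀ n, P (E n)) → ∃ (E' : ℕ → α) (m' : ℕ), m ≤ m' ∧
    (∀ n, n < m → E' n = E n) ∧ (∀ n, P (E' n)) ∧ ∀ E'' : ℕ → α, (∀ n, P (E'' n)) →
      (∀ n, n < m' → E'' n = E' n) → Req r E'') →
  ∃ E : ℕ → α, (∀ n, P (E n)) ∧ ∀ r, Req r E

/-- [END] (uses D1, X1, O1, O2, O3, V2) The theorem.
Proof. Requirements `(c, j, w)`, `c < 3`, `j ≥ k`, `w` a string: `Rq k c j (en w)`, with the enumeration `en` of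
all polynomial-time functions (`en_spec`). X1 and D1 give `E`, O1 (2) gives `T`; `O = ore T E`. -/
def St_END : Prop := ∀ k, 1 ≤ k → ∃ O : Set (List ℝ),
  (∀ m, {l | l ∈ O ∧ l.length = m}.Finite) ∧ (∀ l ∈ O, ∀ z ∈ l, ∃ c : ℕ, z = (c : ℝ)) ∧
  (∀ j ≤ k, ∀ L, (InSigma O j L ↔ InSigma O 0 L) ∧ (InPi O j L ↔ InSigma O 0 L)) ∧
  ∀ j, k ≤ j → ∃ L, InSigma O (j + 1) L ∧ ¬ InPi O (j + 1) L ∧ ¬ InSigma O j L ∧ ¬ InPi O j L

end Pool.Agent.RHT
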