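import Pool.Agent.RHT.St

/-!
# MP_f917a3_lc : quantitatively tame oracles : definitions and statements with complete proofs
(captain: helper47)

THEOREM (`St_END2`). For every `k ≥ 1` there is an oracle `O`, a set of finite vectors of natural
numbers with AT MOST `2^m` vectors of each length `m`, relative to which all the classes
`Σ_jℝ, Π_jℝ` with `j ≤ k` are equal to `Σ_0ℝ`, while for every `j ≥ k` some problem in `Σ_{j+1}ℝ` is in
none of `Π_{j+1}ℝ, Σ_jℝ, Π_jℝ`.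

Changes with respect to `St.lean`: (a) in one block of the game the picks are made from left to
right (`Sl`), so that all thresholds are polynomial in the number `C` of picks; (b) in one block of
real variables the last variable is treated first and its picks are pinned (`RP`), so that the
number of picks is polynomial in `s`; (c) the part `n` is chosen so late that its word has at most
`2^n` letters. `V1, V2, O1, O2, H3, K2 (2), (4)` are used as they are.
-/

set_option autoImplicit false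

open MvPolynomial
open Pool.Agent.RH

namespace Pool.Agent.RHT

/-! ## Definitions -/

/-- One block of the game: `c` picks are left, they are made in the word `u` from left to right;
the part on the left of a pick is closed (`R p' p`: the roles are exchanged). -/
def Sl (R : List ℕ → List ℕ → Prop) : ℕ → List ℕ → List ℕ → Prop
  | 0, u, v => R v u
  | c + 1, u, v => R v u ∧ ∀ p a q, u = p ++ a :: q →
      ∃ p' q', v = p' ++ a :: q' ∧ R p' p ∧ Sl R c q q'

/-- The game with `i` blocks of `C` picks (in every gap), the first block is played in `u`. -/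
def Rl (C : ℕ) : ℕ → List ℕ → List ℕ → Prop
  | 0, u, v => u = [] ↔ v = []
  | i + 1, u, v => Sl (Rl C i) C u v

/-- `RR` with pinned elements `z`, `z'` of the sequence. -/
def RP {π κ : Type} (Ψ : Finset (MvPolynomial (Vr ⊕ (π ⊕ κ)) ℚ)) (a : ℕ → ℕ) (N N' : ℕ)
    (D : Set (ℕ × ℕ)) (z z' : π → ℕ) (x x' : Vr → ℝ) : Prop :=
  ∀ f ∈ Ψ, ∀ w w' : κ → ℕ, (∀ k, w k < N) → (∀ k, w' k < N') → OT D w w' →
    SignType.sign (aeval (Sum.elim x (fun k => (a (Sum.elim z w k) : ℝ))) f) =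
      SignType.sign (aeval (Sum.elim x' (fun k => (a (Sum.elim z' w' k) : ℝ))) f)

/-- The order of the second components is that of the first ones. -/
def Od (D : Set (ℕ × ℕ)) : Prop := ∀ d ∈ D, ∀ e ∈ D, d.1 < e.1 ↔ d.2 < e.2

/-- The terms in the oracle atoms. -/
def ots : Qf → List Tm
  | .eq _ _ => []
  | .lt _ _ => []
  | .le _ _ => []
  | .orc l => l
  | .neg φ => ots φ
  | .and φ ψ => ots φ ++ ots ψ
  | .or φ ψ => ots φ ++ ots ψ

/-- The indices of the elements of the sequence `a` which are values of terms of `L` are in `S`. -/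
def Cv (L : List Tm) (a : ℕ → ℕ) (N : ℕ) (x : Vr → ℝ) (S : Set ℕ) : Prop :=
  ∀ t ∈ L, ∀ p < N, aeval x (tp t) = (a p : ℝ) → p ∈ S

/-! ## Words -/

/-- [L1] Elementary properties (compare W1).
Proof. `Sl R (c+1) u v → Sl R c u v`, and `Sl R c u v → R v u`. If `R` implies `R'` then `Sl R c` implies `Sl R' c`.
(1) reflexive, (2) transitive: induction on `i`, `c`. (3) as in W1. (6) (`R` closed under appending): first
component: append. A pick in `u` (`u = p ++ a :: s`, `q = s ++ u'`): answer in `v`, `R p' p`, `Sl R c (s ++ u') (s₁ ++ v')`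
by induction. A pick in `u'` (`p = u ++ s`, `u' = s ++ a :: q`): answer in `v'`, `R (v ++ s') (u ++ s)` as `R v u` and
`R s' s`, and `Sl R c q q'`. (4) from (6). -/
def St_L1 : Prop := ∀ C i : ℕ,
  (∀ u, Rl C i u u) ∧
  (∀ u v z, Rl C i u v → Rl C i v z → Rl C i u z) ∧
  (∀ u v, Rl C (i + 1) u v → Rl C i u v ∧ Rl C i v u) ∧
  (∀ u v u' v', Rl C i u v → Rl C i u' v' → Rl C i (u ++ u') (v ++ v')) ∧
  (∀ c u v, Sl (Rl C i) (c + 1) u v → Sl (Rl C i) c u v) ∧
  (∀ c u v u' v', Sl (Rl C i) c u v → Sl (Rl C i) c u' v' → Sl (Rl C i) c (u ++ u') (v ++ v')) ∧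
  (∀ c u, Sl (Rl C i) c u u) ∧ ∀ c u v, Sl (Rl C i) c u v → Rl C i v u

/-- [L2] (uses L1) Pumping, with explicit thresholds.
Proof. Induction on `i`: (1) for `i`, then (2) for `i`, and (1) for `i + 1` is (2) for `c = C`. `i = 0`: (1) `a, b ≥ 1`,
so `rep u a = [] ↔ u = [] ↔ rep u b = []`. (2) Let `N = 2 (C+1)^i - 1` and `M c = N (c+1) + c`, that is `M c + 1 =
2 (C+1)^i (c+1)`. Claim: `Sl (Rl C i) c (rep u a) (rep u b)` if `a = b` or `a, b ≥ M c`. `a = b`: L1. `c = 0`: (1). `c + 1`: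
first component (1). Pick in the copy number `q` of `u`: `a = q + 1 + a₂`, `u = s ++ x :: t`, the left part is
`rep u q ++ s`, the right part `t ++ rep u a₂`. Choose `b = q' + 1 + b₂` with (`q = q'` or `q, q' ≥ N`) and (`a₂ = b₂` or
`a₂, b₂ ≥ M c`): if `a₂ ≥ M c` and `q < N`: `q' = q`; if `a₂ ≥ M c`, `q ≥ N`: `q' = N` (in both cases `b₂ ≥ M (c+1) - N - 1 = M c`);
if `a₂ < M c`: `b₂ = a₂` and `q, q' ≥ M (c+1) - M c ≥ N`. Left parts: (1) and appending; right parts: the claim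
for `c` and L1. -/
def St_L2 : Prop := ∀ (C i : ℕ) (u : List ℕ),
  (∀ a b, 2 * (C + 1) ^ i ≤ a + 1 → 2 * (C + 1) ^ i ≤ b + 1 → Rl C i (rep u a) (rep u b)) ∧
  ∀ c a b, 2 * (C + 1) ^ i * (c + 1) ≤ a + 1 → 2 * (C + 1) ^ i * (c + 1) ≤ b + 1 →
    Sl (Rl C i) c (rep u a) (rep u b)

/-- [L3] (uses L1, L2) Inserting `v` into a power of `u` at the next level.
Proof. `N`, `M c` as in L2. Claim: `Sl (Rl C i) c (rep u a) (rep u b ++ v ++ rep u b')` if `a, b, b' ≥ M c`. The relation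
`Rl C i (rep u b ++ v ++ rep u b') (rep u a)` holds if `a ≥ N` and `b + 1 + b' ≥ N`: replace `v` by `u`, L2 (1). So
`c = 0` and the first components are clear. `c + 1`: pick in the copy number `q` of `rep u a`, `a = q + 1 + a₂`,
`u = s ++ x :: t`. Case `a₂ ≥ M c`: answer in `rep u b`, `b = q' + 1 + b₂`, `q' = q` if `q < N`, `q' = N` if `q ≥ N`; `b₂ ≥ M c`. Left
parts `rep u q ++ s`, `rep u q' ++ s` as in L2; right parts `t ++ rep u a₂` and `t ++ rep u b₂ ++ v ++ rep u b'`: the claim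
for `c`. Case `a₂ < M c`: answer in `rep u b'`, `b' = q'' + 1 + a₂`; `q, q'' ≥ M (c+1) - M c ≥ N`. Left parts:
`Rl C i (rep u b ++ v ++ rep u q'' ++ s) (rep u q ++ s)` as above; right parts equal. `c = C`: `M C + 1 = 2 (C+1)^(i+1)`. -/
def St_L3 : Prop := ∀ (C i : ℕ) (u v : List ℕ), Rl C i v u → ∀ a b b',
  2 * (C + 1) ^ (i + 1) ≤ a + 1 → 2 * (C + 1) ^ (i + 1) ≤ b + 1 → 2 * (C + 1) ^ (i + 1) ≤ b' + 1 →
    Rl C (i + 1) (rep u a) (rep u b ++ v ++ rep u b')

/-- [L4] (uses L1, L3) The words, with a bound for their lengths.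
Proof. As W4, with `a = b = b' = 2 (C+1)^(i+1) - 1` at level `i` (`≥ 1`). Lengths: level `0`: `2 a + 1 ≤ 4 (C+1)`.
Level `i + 1`, `a = 2 (C+1)^(i+2) - 1`: `(2 a + 1) (l + 1)`, with `l ≥ 1` the bound for level `i`; it is at most
`4 (C+1)^(i+2) * 2 l`, and `(i+2)^2 + (i + 3) ≤ (i+3)^2`. -/
def St_L4 : Prop := ∀ C i : ℕ, ∃ Lo Wi : List ℕ, Rl C (i + 1) Lo Wi ∧ val i Wi ∧ ¬ val i Lo ∧
  (∀ c ∈ Lo, c < i + 2) ∧ (∀ c ∈ Wi, c < i + 2) ∧
  Lo.length ≤ (4 * (C + 1)) ^ ((i + 2) ^ 2) ∧ Wi.length ≤ (4 * (C + 1)) ^ ((i + 2) ^ 2)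

/-- [L5] One block of picks, exchange of the roles.
Proof. Sort the picks `w k` increasingly, `z₁ < z₂ < ⋯` (distinct values, at most `card κ ≤ C`), and treat
them in this order. State after the pick `z` with `c` picks left: the conditions of `KK` for `D ∪` the
pairs found so far, with the gap relation: for neighbours `d, e`: `R (seg V …) (seg U …)` if `e.1 ≤ z`, and
`Sl R c (seg U …) (seg V …)` if `z ≤ d.1`. Next pick `z⁺ > z`. If `z⁺ = d.1` for some `d ∈ D`: its answer is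
`d.2` (`Sl R c u v → R v u` for the gaps which are closed now). Otherwise `z⁺` is in a gap `(d, e)` with `z ≤ d.1`;
`c ≥ 1`: answer of `Sl R c`, as in K1 (`seg U d.1 e.1 = seg U d.1 z⁺ ++ U[z⁺-1] :: seg U z⁺ e.1`), the left part is
closed and the right part has `Sl R (c-1)`. At the end close all gaps. (Before the first pick there
is no closed gap.) (2) exchange: as K2 (3). (3) from (1), (2), and K2 (4) for `OT` (from `ord`). -/
def St_L5 : Prop :=
  (∀ (κ : Type) [Fintype κ] (R : List ℕ → List ℕ → Prop) (C : ℕ) (U V : List ℕ)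
    (D : Set (ℕ × ℕ)), KK (Sl R C) U V D → Fintype.card κ ≤ C → ∀ w : κ → ℕ,
      (∀ k, w k < U.length + 2) → ∃ w' : κ → ℕ, (∀ k, w' k < V.length + 2) ∧
        KK (fun u v => R v u) U V (D ∪ grf w w')) ∧
  (∀ (R : List ℕ → List ℕ → Prop) (U V : List ℕ) (D : Set (ℕ × ℕ)), KK (fun u v => R v u) U V D →
    KK R V U (Prod.swap '' D)) ∧
  (∀ (κ : Type) [Fintype κ] (C i : ℕ) (U V : List ℕ) (D : Set (ℕ × ℕ)), KK (Rl C (i + 1)) U V D →
    Fintype.card κ ≤ C → ∀ w : κ → ℕ, (∀ k, w k < U.length + 2) → ∃ w' : κ → ℕ,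
      (∀ k, w' k < V.length + 2) ∧ OT D w w' ∧ KK (Rl C i) V U (Prod.swap '' (D ∪ grf w w')))

/-! ## Real quantifiers -/

/-- [P1] (uses `Pool.Agent.PWQ.exists_fibre`) One real variable, with pinned elements. The proof is that of
R1, with the following changes. `f_l`, `l = 0, 1, 2`, is the renaming of `f ∈ Ψ` with `inl v ↦ none`,
`inl v' ↦ some (inl v')`, `inr (inl k) ↦ some (inr (inl (inl k)))` (`k : π`), and `inr (inr k)` goes to
`some (inr (inl (inr (l, k))))` if `l = 0, 1` (pinned) and to `some (inr (inr k))` if `l = 2` (free). `G` from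
`exists_fibre` for all `f_l`. `q f w t` := the value of `f` with the pins `z`, the free elements `w`, and `t` for `v`.
(F) for every test pair `w, w'` (`OT D`) there is `φ : ℝ ≃o ℝ` with `sign (q f u t) = sign (q' f u' (φ t))` for all `t`,
`f ∈ Ψ` and `(u, u')` one of `(w 0, w' 0)`, `(w 1, w' 1)` (the two halves of the picks), and the test pair. The
picks depend only on `a, N, z, x, t`. Case A (`t` a root, of `q f0 w0`): picks `(w0, w0)`; the halves of the
answer are equal by `Od D`, `grf w w' ⊆ D`; `(w0, w0')` is itself a test pair (`Od D`). Case B: as in R1. -/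
def St_P1 : Prop := ∀ (π κ : Type) [Fintype κ] (Ψ : Finset (MvPolynomial (Vr ⊕ (π ⊕ κ)) ℚ))
  (v : Vr), ∃ G : Finset (MvPolynomial (Vr ⊕ ((π ⊕ (Fin 2 × κ)) ⊕ κ)) ℚ),
    ∀ (a : ℕ → ℕ) (N : ℕ) (z : π → ℕ) (x : Vr → ℝ) (t : ℝ), 0 < N →
      ∃ w : Fin 2 × κ → ℕ, (∀ k, w k < N) ∧
        ∀ (N' : ℕ) (D : Set (ℕ × ℕ)) (x' : Vr → ℝ) (z' : π → ℕ) (w' : Fin 2 × κ → ℕ),
          (∀ k, w' k < N') → Od D → grf w w' ⊆ D →
          RP G a N N' D (Sum.elim z w) (Sum.elim z' w') x x' → ∃ t' : ℝ,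
            RP Ψ a N N' D z z' (Function.update x v t) (Function.update x' v t')

/-- [P2] (uses P1) One block of real variables; `s * (2 * card κ)` picks.
Proof. Induction on `s`, for all `π`. `s = 0`: `upd 0 i x y = x`, no picks. `s + 1`: `upd (s+1) i x y =
update (upd s i x y) (i, s) (y s)`. P1 for `Ψ` and `(i, s)`: `G₁` with the pins `π ⊕ (Fin 2 × κ)`. Induction hypothesis for
`G₁`: `G₂`, with additional pins `π''`. The picks: `w₁` from P1 at the point `upd s i x y`, `t = y s`; then `w₂` from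
the induction hypothesis with the pins `Sum.elim z w₁`. `G` is the renaming of `G₂` (reassociation). Given the
answers: the induction hypothesis gives `y'` with `RP G₁ … (upd s i x y) (upd s i x' y')`, P1 gives `t'`; change
`y'` at `s` to `t'` (this does not change `upd s`). -/
def St_P2 : Prop := ∀ (s i : ℕ) (π κ : Type) [Fintype κ]
  (Ψ : Finset (MvPolynomial (Vr ⊕ (π ⊕ κ)) ℚ)),
    ∃ G : Finset (MvPolynomial (Vr ⊕ ((π ⊕ Fin (s * (2 * Fintype.card κ))) ⊕ κ)) ℚ),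
    ∀ (a : ℕ → ℕ) (N : ℕ) (z : π → ℕ) (x : Vr → ℝ) (y : ℕ → ℝ), 0 < N →
      ∃ w : Fin (s * (2 * Fintype.card κ)) → ℕ, (∀ k, w k < N) ∧
        ∀ (N' : ℕ) (D : Set (ℕ × ℕ)) (x' : Vr → ℝ) (z' : π → ℕ)
          (w' : Fin (s * (2 * Fintype.card κ)) → ℕ), (∀ k, w' k < N') → Od D → grf w w' ⊆ D →
          RP G a N N' D (Sum.elim z w) (Sum.elim z' w') x x' → ∃ y' : ℕ → ℝ,
            RP Ψ a N N' D z z' (upd s i x y) (upd s i x' y')

/-- [P3] (uses P2) One block of real variables, with extra picks, quantitative form of R2.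
Proof. P2 with `π = Empty` for the renaming of `Ψ`; `κ' = Fin (s * (2 * card κ)) ⊕ κ`, of cardinality
`(2 s + 1) card κ`, `G` the renaming of the `G` of P2. Extra picks: for every term of `L` (at most `s`) there is at
most one `p < N` with `aeval (upd s i x y) (tp t) = a p` (`a` injective); if there is none pick `0`; fill up to
exactly `s` extra picks with `0`. Given `D`, `Od D`, `OT D w w'`: `D' = D ∪ grf w w'` satisfies `Od`. If `w₃, w₃'` is a
test pair over `D'` then the picks together with it are a test pair for `κ'` over `D`; so `RR G … D x x'` gives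
`RP G … D' w w' x x'`. P2 for `D'`. -/
def St_P3 : Prop := ∀ (κ : Type) [Fintype κ] (Ψ : Finset (MvPolynomial (Vr ⊕ κ) ℚ)) (s i : ℕ),
  ∃ (κ' : Type) (_ : Fintype κ') (G : Finset (MvPolynomial (Vr ⊕ κ') ℚ)),
    Fintype.card κ' = (2 * s + 1) * Fintype.card κ ∧
    ∀ (a : ℕ → ℕ) (N : ℕ) (x : Vr → ℝ) (y : ℕ → ℝ) (L : List Tm), L.length ≤ s →
      StrictMono a → 0 < N →
      ∃ w : Fin (s * (2 * Fintype.card κ) + s) → ℕ, (∀ k, w k < N) ∧
        Cv L a N (upd s i x y) (Set.range w) ∧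
        ∀ (N' : ℕ) (D : Set (ℕ × ℕ)) (x' : Vr → ℝ) (w' : Fin (s * (2 * Fintype.card κ) + s) → ℕ),
          (∀ k, w' k < N') → Od D → RR G a N N' D x x' → OT D w w' → ∃ y' : ℕ → ℝ,
            RR Ψ a N N' (D ∪ grf w w') (upd s i x y) (upd s i x' y')

/-- [F2] Formulas without quantifiers; the statement and the proof are those of F1, but `Cd` is only
required for the terms in the oracle atoms of `ψ` (this is all that the proof of F1 uses; in the
induction on the formula `ots` of the subformulas are sublists), and `KK (Rl C 0) = KK (Rr C 0)` by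
definition. -/
def St_F2 : Prop := ∀ (s : ℕ) (K : Finset ℕ), 1 ∈ K → 2 ∈ K →
  ∃ Ψ : Finset (MvPolynomial (Vr ⊕ Unit) ℚ),
    ∀ (C : ℕ) (a : ℕ → ℕ) (n : ℕ) (U V : List ℕ) (D : Set (ℕ × ℕ)) (B : Set (List ℝ))
      (b b' : ℕ → ℕ → ℝ), StrictMono a → (∀ c ∈ U, c ∈ K) → (∀ c ∈ V, c ∈ K) → Bas s K B →
      KK (Rl C 0) U V D → RR Ψ a (U.length + 2) (V.length + 2) D (tr s b) (tr s b') →
      ∀ ψ : Qf, ψ.code.length ≤ s →
        (Cv (ots ψ) a (U.length + 2) (tr s b) (Prod.fst '' D) ∨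
          Cv (ots ψ) a (V.length + 2) (tr s b') (Prod.snd '' D)) →
        (ψ.holds (B ∪ LL n (lbl a U)) b ↔ ψ.holds (B ∪ LL n (lbl a V)) b')

/-- [T2] (uses L5, P3, F2) Transfer of truth; the proof is that of T1.
The numbers: `card κ_0 = 1`, `card κ_{k+1} = (2 s + 1) card κ_k`; the block with `k + 1` blocks left needs
`s * (2 * card κ_k) + s ≤ (2 s + 1)^(k+1) + s` picks. `L = ots ψ`, `(ots ψ).length ≤ ψ.code.length ≤ s`.
`Od D` is `KK.ord`. -/
def St_T2 : Prop := ∀ (s : ℕ) (K : Finset ℕ), 1 ∈ K → 2 ∈ K → ∀ k i : ℕ,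
  ∃ (κ : Type) (_ : Fintype κ) (G : Finset (MvPolynomial (Vr ⊕ κ) ℚ)),
    Fintype.card κ = (2 * s + 1) ^ k ∧ ∀ C, (2 * s + 1) ^ k + s ≤ C →
    ∀ (a : ℕ → ℕ) (n : ℕ) (U V : List ℕ) (D : Set (ℕ × ℕ)) (B : Set (List ℝ))
      (b b' : ℕ → ℕ → ℝ), StrictMono a → (∀ c ∈ U, c ∈ K) → (∀ c ∈ V, c ∈ K) → Bas s K B →
      KK (Rl C k) U V D → RR G a (U.length + 2) (V.length + 2) D (tr s b) (tr s b') →
      ∀ ψ : Qf, ψ.code.length ≤ s →
        (k = 0 → Cv (ots ψ) a (U.length + 2) (tr s b) (Prod.fst '' D) ∨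
          Cv (ots ψ) a (V.length + 2) (tr s b') (Prod.snd '' D)) →
        (truth (B ∪ LL n (lbl a U)) true k i ψ b → truth (B ∪ LL n (lbl a V)) true k i ψ b') ∧
        (truth (B ∪ LL n (lbl a V)) false k i ψ b' → truth (B ∪ LL n (lbl a U)) false k i ψ b)

/-- A bound for the lengths of the words. -/
def Bd (s j : ℕ) : ℕ := (4 * ((2 * s + 1) ^ (j + 1) + s + 1)) ^ ((j + 2) ^ 2)

/-- [I2] (uses T2, H3, L1, L4, K2 (2)) The two candidates, with a bound for their lengths; the proof is that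
of I1, with `C = (2 s + 1)^(j+1) + s`. -/
def St_I2 : Prop := ∀ (s j : ℕ) (K : Finset ℕ), ∃ (a : ℕ → ℕ) (Lo Wi : List ℕ), StrictMono a ∧
  val j Wi ∧ ¬ val j Lo ∧ Lo.length ≤ Bd s j ∧ Wi.length ≤ Bd s j ∧
  ∀ (n : ℕ) (B : Set (List ℝ)), Bas s K B → ∀ ψ : Qf,
    ψ.code.length ≤ s →
      (PiTrue (B ∪ LL n (lbl a Wi)) (j + 1) ψ → PiTrue (B ∪ LL n (lbl a Lo)) (j + 1) ψ) ∧
      ∀ k, 1 ≤ k → k ≤ j →
        (SigmaTrue (B ∪ LL n (lbl a Lo)) k ψ ↔ SigmaTrue (B ∪ LL n (lbl a Wi)) k ψ) ∧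
        (PiTrue (B ∪ LL n (lbl a Lo)) k ψ ↔ PiTrue (B ∪ LL n (lbl a Wi)) k ψ)

/-! ## The oracle -/

/-- [O4] The oracle is quantitatively tame.
Proof. The lists of length `m` in `ore T E`: at most `2^(m-1)` of the form `0 :: bits c` (`m ≥ 1`), and those of
the part `n = m - 3` (if `m ≥ 3`), at most `2^(m-3)` (the map `t ↦ replicate n 1 ++ [2, t.1, t.2]` on `E n`). No list
of length `0`. -/
def St_O4 : Prop := ∀ (T : Set Qf) (E : ℕ → Set (ℕ × ℕ)),
  (∀ n, (E n).Finite ∧ (E n).ncard ≤ 2 ^ n) →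
  (∀ m, {l | l ∈ ore T E ∧ l.length = m}.Finite ∧ {l | l ∈ ore T E ∧ l.length = m}.ncard ≤ 2 ^ m) ∧
    ∀ l ∈ ore T E, ∀ z ∈ l, ∃ c : ℕ, z = (c : ℝ)

/-- [Y1] Polynomial time gives polynomial length, and the bound `Bd` is eventually below `2^n`.
Proof. The length of the output of a polynomial-time function is bounded by a polynomial in the
length of the input (`Pool.Agent.PolyTime` library, or Mathlib `TM2ComputableInPolyTime`: time bounds the output);
`Bd s j` with `s ≤ c (n+1)^d` is bounded by a polynomial in `n`, and `2^n` is larger for large `n`. -/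
def St_Y1 : Prop := ∀ f : List Bool → List Bool, Pool.Agent.PolyTime.PolyTime f → ∀ j m : ℕ,
  ∃ n, m ≤ n ∧ Bd (f (List.replicate n true)).length j ≤ 2 ^ n

/-- [D2] (uses I2, V1, O1, Y1) One requirement; the proof is that of D1, but `n ≥ m` is taken from Y1, so that
the words have at most `2^n` letters and `(lbl a X).ncard ≤ X.length ≤ 2^n`. -/
def St_D2 : Prop := ∀ (k c j : ℕ), 1 ≤ k → k ≤ j → ∀ (f : List Bool → List Bool),
  Pool.Agent.PolyTime.PolyTime f → ∀ (E : ℕ → Set (ℕ × ℕ)) (m : ℕ),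
  (∀ n, (E n).Finite ∧ (E n).ncard ≤ 2 ^ n) → ∃ (E' : ℕ → Set (ℕ × ℕ)) (m' : ℕ),
    m ≤ m' ∧ (∀ n, n < m → E' n = E n) ∧ (∀ n, (E' n).Finite ∧ (E' n).ncard ≤ 2 ^ n) ∧
      ∀ E'' : ℕ → Set (ℕ × ℕ), (∀ n, (E'' n).Finite ∧ (E'' n).ncard ≤ 2 ^ n) →
        (∀ n, n < m' → E'' n = E' n) → Rq k c j f E''

/-- [X2] Finite extensions, with a condition depending on the index. Proof: that of X1. -/
def St_X2 : Prop := ∀ (α ι : Type) [Countable ι] (P : ℕ → α → Prop) (Req : ι → (ℕ → α) → Prop),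
  (∃ E₀ : ℕ → α, ∀ n, P n (E₀ n)) →
  (∀ r (E : ℕ → α) (m : ℕ), (∀ n, P n (E n)) → ∃ (E' : ℕ → α) (m' : ℕ), m ≤ m' ∧
    (∀ n, n < m → E' n = E n) ∧ (∀ n, P n (E' n)) ∧ ∀ E'' : ℕ → α, (∀ n, P n (E'' n)) →
      (∀ n, n < m' → E'' n = E' n) → Req r E'') →
  ∃ E : ℕ → α, (∀ n, P n (E n)) ∧ ∀ r, Req r E

/-- [END2] (uses D2, X2, O1, O2, O4, V2) The theorem. Proof: that of END. -/
def St_END2 : Prop := ∀ k, 1 ≤ k → ∃ O : Set (List ℝ),
  (∀ m, {l | l ∈ O ∧ l.length = m}.Finite ∧ {l | l ∈ O ∧ l.length = m}.ncard ≤ 2 ^ m) ∧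
  (∀ l ∈ O, ∀ z ∈ l, ∃ c : ℕ, z = (c : ℝ)) ∧
  (∀ j ≤ k, ∀ L, (InSigma O j L ↔ InSigma O 0 L) ∧ (InPi O j L ↔ InSigma O 0 L)) ∧
  ∀ j, k ≤ j → ∃ L, InSigma O (j + 1) L ∧ ¬ InPi O (j + 1) L ∧ ¬ InSigma O j L ∧ ¬ InPi O j L

end Pool.Agent.RHT
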