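import Pool.Agent.RHT.St

/-!
# RHT, module W3: inserting a word into a power
-/

set_option autoImplicit false

namespace Pool.Agent.RHT

private theorem W3_rep_add (u : List ℕ) (m n : ℕ) : rep u (m + n) = rep u m ++ rep u n := by
  unfold rep
  rw [List.replicate_add, List.flatten_append]

private theorem W3_rep_one (u : List ℕ) : rep u 1 = u := by
  simp [rep]

private theorem W3_rep_zero (u : List ℕ) : rep u 0 = [] := by
  simp [rep]

private theorem W3_mid (u : List ℕ) (m n : ℕ) :
    rep u (m + 1 + n) = rep u m ++ (u ++ rep u n) := by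
  rw [W3_rep_add, W3_rep_add, W3_rep_one, List.append_assoc]

private theorem W3_dec (u : List ℕ) : ∀ (a : ℕ) (p : List ℕ) (x : ℕ) (q : List ℕ),
    rep u a = p ++ x :: q → ∃ a1 a2 s r, a = a1 + 1 + a2 ∧ u = s ++ x :: r ∧
      p = rep u a1 ++ s ∧ q = r ++ rep u a2 := by
  intro a
  induction a with
  | zero =>
    intro p x q h
    rw [W3_rep_zero] at h
    simp at h
  | succ a ih =>
    intro p x q h
    rw [Nat.add_comm a 1, W3_rep_add, W3_rep_one] at h
    rcases List.append_eq_append_iff.mp h with ⟨p2, hp, hq⟩ | ⟨c', hu, hq⟩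
    · obtain ⟨a1, a2, s, r, h1, h2, h3, h4⟩ := ih p2 x q hq
      refine ⟨a1 + 1, a2, s, r, by omega, h2, ?_, h4⟩
      rw [Nat.add_comm a1 1, W3_rep_add, W3_rep_one, hp, h3, List.append_assoc]
    · cases c' with
      | nil =>
        rw [List.append_nil] at hu
        rw [List.nil_append] at hq
        obtain ⟨a1, a2, s, r, h1, h2, h3, h4⟩ := ih [] x q (by rw [List.nil_append]; exact hq.symm)
        refine ⟨a1 + 1, a2, s, r, by omega, h2, ?_, h4⟩
        rw [Nat.add_comm a1 1, W3_rep_add, W3_rep_one, List.append_assoc, ← h3, List.append_nil]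
        exact hu.symm
      | cons y r =>
        rw [List.cons_append] at hq
        injection hq with h5 h6
        subst h5
        refine ⟨0, a, p, r, by omega, hu, ?_, h6⟩
        rw [W3_rep_zero, List.nil_append]

theorem W3 (W1 : St_W1) (W2 : St_W2) : St_W3 := by
  intro C i u v hvu
  obtain ⟨w1, w2, -, w4, -, w6, w7⟩ := W1 C i
  obtain ⟨⟨θ0, h0⟩, hT⟩ := W2 C i u
  choose T hT using hT
  -- the thresholds
  obtain ⟨t, t0, ts⟩ : ∃ t : ℕ → ℕ, t 0 = θ0 + T 0 ∧ ∀ c, t (c + 1) = 2 * t c + 1 + T (c + 1) :=
    ⟨fun c => Nat.rec (θ0 + T 0) (fun c r => 2 * r + 1 + T (c + 1)) c, rfl, fun _ => rfl⟩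
  have tT : ∀ c, T c ≤ t c := by
    intro c
    cases c with
    | zero => omega
    | succ c => have := ts c; omega
  have key : ∀ c a b b', t c ≤ a → t c ≤ b → t c ≤ b' →
      Ss (Rr C i) c (rep u a) (rep u b ++ v ++ rep u b') := by
    intro c
    induction c with
    | zero =>
      intro a b b' ha hb hb'
      show Rr C i (rep u b ++ v ++ rep u b') (rep u a)
      refine w2 _ (rep u (b + 1 + b')) _ ?_ (h0 _ _ (by omega) (by omega))
      rw [W3_mid, ← List.append_assoc]
      exact w4 _ _ _ _ (w4 _ _ _ _ (w1 _) hvu) (w1 _)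
    | succ c ih =>
      intro a b b' ha hb hb'
      have hs := ts c
      refine ⟨ih a b b' (by omega) (by omega) (by omega), ?_⟩
      intro p x q hpq
      obtain ⟨a1, a2, s, r, h1, h2, h3, h4⟩ := W3_dec u a p x q hpq
      subst h3
      subst h4
      by_cases hc : t c ≤ a1
      · -- the pick is answered on the right
        obtain ⟨b1, hb1⟩ : ∃ b1, b' = b1 + 1 + min a2 (t c) := ⟨b' - 1 - min a2 (t c), by omega⟩
        refine ⟨rep u b ++ v ++ rep u b1 ++ s, r ++ rep u (min a2 (t c)), ?_, ?_, ?_⟩
        · rw [hb1, W3_mid]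
          have h5 : u ++ rep u (min a2 (t c)) = s ++ x :: (r ++ rep u (min a2 (t c))) := by
            have h6 := congrArg (fun z => z ++ rep u (min a2 (t c))) h2
            simpa using h6
          rw [h5]
          simp
        · exact w6 c _ _ _ _ (ih a1 b b1 hc (by omega) (by omega)) (w7 c s)
        · refine w6 c _ _ _ _ (w7 c r) ?_
          by_cases h5 : a2 ≤ t c
          · rw [min_eq_left h5]
            exact w7 c _
          · rw [min_eq_right (by omega)]
            exact hT c _ _ (by have := tT c; omega) (tT c)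
      · -- the pick is answered on the left
        have hc2 : t c ≤ a2 := by omega
        obtain ⟨b1, hb1⟩ : ∃ b1, b = min a1 (t c) + 1 + b1 := ⟨b - 1 - min a1 (t c), by omega⟩
        refine ⟨rep u (min a1 (t c)) ++ s, r ++ (rep u b1 ++ v ++ rep u b'), ?_, ?_, ?_⟩
        · rw [hb1, W3_mid]
          have h5 : u ++ rep u b1 = s ++ x :: (r ++ rep u b1) := by
            have h6 := congrArg (fun z => z ++ rep u b1) h2
            simpa using h6
          rw [h5]
          simp
        · refine w6 c _ _ _ _ ?_ (w7 c s)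
          rw [min_eq_left (by omega)]
          exact w7 c _
        · exact w6 c _ _ _ _ (w7 c r) (ih a2 b1 b' hc2 (by omega) (by omega))
  exact ⟨t C, fun a b b' ha hb hb' => key C a b b' ha hb hb'⟩

end Pool.Agent.RHT
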